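import Mathlib

set_option autoImplicit false

namespace Pool.Agent.Lib.MP_cdd7b4_an.H80

open scoped BigOperators

/-- average over a finite type -/
noncomputable def av {α : Type*} [Fintype α] (f : α → ℝ) : ℝ :=
  (Fintype.card α : ℝ)⁻¹ * ∑ a, f a

section av
variable {α : Type*} [Fintype α]

lemma av_add (f g : α → ℝ) : av (fun a => f a + g a) = av f + av g := by
  simp only [av, Finset.sum_add_distrib, mul_add]

lemma av_sub (f g : α → ℝ) : av (fun a => f a - g a) = av f - av g := by
  simp only [av, Finset.sum_sub_distrib, mul_sub]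

lemma av_const_mul (c : ℝ) (f : α → ℝ) : av (fun a => c * f a) = c * av f := by
  simp only [av, ← Finset.mul_sum]; ring

lemma av_mul_const (c : ℝ) (f : α → ℝ) : av (fun a => f a * c) = av f * c := by
  simp only [av, ← Finset.sum_mul]; ring

lemma av_sum {ι : Type*} (s : Finset ι) (f : ι → α → ℝ) :
    av (fun a => ∑ i ∈ s, f i a) = ∑ i ∈ s, av (f i) := by
  simp only [av]
  rw [Finset.sum_comm, Finset.mul_sum]

lemma av_const [Nonempty α] (c : ℝ) : av (fun _ : α => c) = c := by
  have : (Fintype.card α : ℝ) ≠ 0 := by exact_mod_cast Fintype.card_ne_zero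
  simp only [av, Finset.sum_const, Finset.card_univ, nsmul_eq_mul]
  field_simp

lemma av_mono {f g : α → ℝ} (h : ∀ a, f a ≤ g a) : av f ≤ av g :=
  mul_le_mul_of_nonneg_left (Finset.sum_le_sum (fun a _ => h a)) (by positivity)

lemma av_nonneg {f : α → ℝ} (h : ∀ a, 0 ≤ f a) : 0 ≤ av f :=
  mul_nonneg (by positivity) (Finset.sum_nonneg (fun a _ => h a))

lemma av_equiv {β : Type*} [Fintype β] (e : α ≃ β) (f : β → ℝ) :
    av (fun a => f (e a)) = av f := by
  simp only [av]
  rw [Fintype.card_congr e, Equiv.sum_comp e f]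

lemma av_inv {e : α → α} (he : Function.Involutive e) (f : α → ℝ) :
    av (fun a => f (e a)) = av f :=
  av_equiv he.toPerm f

/-- Cauchy–Schwarz for averages. -/
lemma av_sq_le_av_sq [Nonempty α] (f : α → ℝ) : av f ^ 2 ≤ av (fun a => f a ^ 2) := by
  have h : 0 ≤ av (fun a => (f a - av f) ^ 2) := av_nonneg (fun a => sq_nonneg _)
  have e : av (fun a => (f a - av f) ^ 2) = av (fun a => f a ^ 2) - av f ^ 2 := by
    have : (fun a => (f a - av f) ^ 2)
        = fun a => (f a ^ 2 - (2 * av f) * f a) + av f ^ 2 := by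
      funext a; ring
    rw [this, av_add (fun a => f a ^ 2 - (2 * av f) * f a) (fun _ => av f ^ 2),
      av_sub (fun a => f a ^ 2) (fun a => (2 * av f) * f a), av_const_mul, av_const]
    ring
  linarith

lemma av_sqrt_le [Nonempty α] (f : α → ℝ) (hf : ∀ a, 0 ≤ f a) :
    av (fun a => Real.sqrt (f a)) ≤ Real.sqrt (av f) := by
  apply Real.le_sqrt_of_sq_le
  refine (av_sq_le_av_sq _).trans (le_of_eq ?_)
  congr 1
  funext a
  exact Real.sq_sqrt (hf a)

end av

section prod
variable {ι : Type*} [Fintype ι] [DecidableEq ι] {Q : Type*} [Fintype Q]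

lemma av_prod (F : ι → Q → ℝ) :
    av (fun κ : ι → Q => ∏ i, F i (κ i)) = ∏ i, av (F i) := by
  simp only [av]
  rw [Finset.prod_mul_distrib, Finset.prod_const, Finset.prod_univ_sum, Fintype.card_pi,
    Finset.prod_const, Fintype.piFinset_univ]
  congr 1
  push_cast
  rw [inv_pow]

variable [Nonempty Q]

lemma av_coord (i : ι) (f : Q → ℝ) : av (fun κ : ι → Q => f (κ i)) = av f := by
  have h := av_prod (ι := ι) (fun j q => if j = i then f q else 1)
  have e1 : (fun κ : ι → Q => ∏ j, (if j = i then f (κ j) else (1:ℝ))) = fun κ => f (κ i) := by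
    funext κ
    rw [Finset.prod_ite_eq']
    simp
  have e2 : ∀ j : ι, av (fun q : Q => if j = i then f q else (1:ℝ)) = if j = i then av f else 1 := by
    intro j
    split_ifs with h
    · rfl
    · exact av_const 1
  rw [e1] at h
  rw [h, Finset.prod_congr rfl (fun j _ => e2 j), Finset.prod_ite_eq']
  simp

lemma av_coord2 {i j : ι} (hij : i ≠ j) (f g : Q → ℝ) :
    av (fun κ : ι → Q => f (κ i) * g (κ j)) = av f * av g := by
  have h := av_prod (ι := ι) (fun l q => (if l = i then f q else 1) * (if l = j then g q else 1))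
  have e1 : (fun κ : ι → Q => ∏ l, ((if l = i then f (κ l) else (1:ℝ))
      * (if l = j then g (κ l) else 1))) = fun κ => f (κ i) * g (κ j) := by
    funext κ
    rw [Finset.prod_mul_distrib, Finset.prod_ite_eq', Finset.prod_ite_eq']
    simp
  have e2 : ∀ l : ι, av (fun q : Q => (if l = i then f q else (1:ℝ)) * (if l = j then g q else 1))
      = (if l = i then av f else 1) * (if l = j then av g else 1) := by
    intro l
    by_cases h1 : l = i
    · have h2 : ¬ l = j := fun h => hij (h1 ▸ h)
      simp [h1, hij]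
    · by_cases h2 : l = j
      · simp [h2, hij.symm]
      · simp only [h1, h2, if_false]
        rw [mul_one]; exact av_const _
  rw [e1] at h
  rw [h, Finset.prod_congr rfl (fun l _ => e2 l), Finset.prod_mul_distrib, Finset.prod_ite_eq',
    Finset.prod_ite_eq']
  simp

/-- Second moment of a sum of functions of independent coordinates. -/
lemma av_sq_sum_le (f : ι → Q → ℝ) :
    av (fun κ : ι → Q => (∑ i, f i (κ i)) ^ 2)
      ≤ (∑ i, av (f i)) ^ 2 + ∑ i, av (fun q => f i q ^ 2) := by
  have e : ∀ κ : ι → Q, (∑ i, f i (κ i)) ^ 2 = ∑ i, ∑ j, f i (κ i) * f j (κ j) := by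
    intro κ
    rw [sq, Finset.sum_mul_sum]
  simp only [e]
  rw [av_sum]
  have e2 : ∀ i, av (fun κ : ι → Q => ∑ j, f i (κ i) * f j (κ j))
      ≤ ∑ j, av (f i) * av (f j) + av (fun q => f i q ^ 2) := by
    intro i
    rw [av_sum]
    have e3 : ∀ j, av (fun κ : ι → Q => f i (κ i) * f j (κ j))
        = av (f i) * av (f j) + if j = i then av (fun q => f i q ^ 2) - av (f i) ^ 2 else 0 := by
      intro j
      by_cases hij : j = i
      · subst hij
        simp only [if_true]
        have := av_coord (ι := ι) j (fun q => f j q * f j q)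
        rw [this]
        have e4 : (fun q => f j q * f j q) = fun q => f j q ^ 2 := by funext q; ring
        rw [e4]; ring
      · rw [if_neg hij, add_zero]
        exact av_coord2 (fun h => hij h.symm) _ _
    rw [Finset.sum_congr rfl (fun j _ => e3 j), Finset.sum_add_distrib, Finset.sum_ite_eq']
    simp only [Finset.mem_univ, if_true]
    have := sq_nonneg (av (f i))
    linarith
  refine (Finset.sum_le_sum (fun i _ => e2 i)).trans (le_of_eq ?_)
  rw [Finset.sum_add_distrib, sq, Finset.sum_mul_sum]

lemma av_sum_coord (f : ι → Q → ℝ) :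
    av (fun κ : ι → Q => ∑ i, f i (κ i)) = ∑ i, av (f i) := by
  rw [av_sum]
  exact Finset.sum_congr rfl (fun i _ => av_coord i (f i))

end prod

end Pool.Agent.Lib.MP_cdd7b4_an.H80
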