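import Pool.Agent.Lib.MP_cdd7b4_an.H80.Emb

set_option autoImplicit false
set_option linter.unusedSectionVars false

namespace Pool.Agent.Lib.MP_cdd7b4_an.H80

open MeasureTheory
open scoped BigOperators ENNReal

variable {𝕜 : Type*} [RCLike 𝕜] {X : Type*} [NormedAddCommGroup X] [NormedSpace 𝕜 X]
  {S : Type*} [MeasurableSpace S] {Ω : Type*} [MeasurableSpace Ω] {ν : Measure Ω}
  {H : Type*} [NormedAddCommGroup H] [InnerProductSpace 𝕜 H]

lemma pull_sum {m : ℕ} {κ : Type*} [Fintype κ] (a : Fin m → ℝ≥0∞) (d : κ → Fin m → ℝ≥0∞)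
    (l : Fin m → ℝ≥0∞) (c1 c2 c3 c4 c5 c6 : ℝ≥0∞) :
    ∑ θ, a θ * (c1 * (c2 * (c3 * ∑ k, d k θ) + c4 * l θ) + c5 * (c6 * l θ))
      = c1 * (c2 * (c3 * ∑ k, ∑ θ, a θ * d k θ) + c4 * ∑ θ, a θ * l θ)
        + c5 * (c6 * ∑ θ, a θ * l θ) := by
  have h : ∀ θ, a θ * (c1 * (c2 * (c3 * ∑ k, d k θ) + c4 * l θ) + c5 * (c6 * l θ))
      = c1 * c2 * c3 * (∑ k, a θ * d k θ) + (c1 * c4 + c5 * c6) * (a θ * l θ) := by
    intro θ
    rw [← Finset.mul_sum]
    ring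
  simp only [h]
  rw [Finset.sum_add_distrib, ← Finset.mul_sum, ← Finset.mul_sum, Finset.sum_comm]
  ring

/-- Rows: the Rademacher average of `y` is controlled by the square function of any row. -/
lemma row_low {ρ : (S → ℝ) → ℝ≥0∞} (hρ : FN ρ) {M : ℝ} (hc2 : LConc ρ 2 M)
    {ev : S → (X →ₗ[𝕜] H)} {c C : ℝ} (he : Emb ρ ev c C) {m : ℕ} (w : Fin m → ℝ)
    (hw : ∀ θ, 0 ≤ w θ) {K : ℕ} (z : Fin K → Fin m → X) (y : Fin K → X) {c' d : ℝ}
    (h : ∀ e : Fin K → Bool, c' * ‖∑ k, sg 𝕜 (e k) • y k‖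
      ≤ ∑ θ, w θ * ‖∑ k, sg 𝕜 (e k) • z k θ‖ + d) :
    ENNReal.ofReal (c * (c' * av (fun e : Fin K → Bool => ‖∑ k, sg 𝕜 (e k) • y k‖) - d))
      ≤ ENNReal.ofReal M * ∑ θ, ENNReal.ofReal (w θ)
        * ρ (fun s => Real.sqrt (∑ k, ‖ev s (z k θ)‖ ^ 2)) := by
  have hc := he.hc
  have h1 : c' * av (fun e : Fin K → Bool => ‖∑ k, sg 𝕜 (e k) • y k‖) - d
      ≤ av (fun e : Fin K → Bool => ∑ θ, w θ * ‖∑ k, sg 𝕜 (e k) • z k θ‖) := by
    have := av_mono h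
    rw [av_const_mul, av_add, av_const] at this
    linarith
  have h2 : ENNReal.ofReal (c * (c' * av (fun e : Fin K → Bool => ‖∑ k, sg 𝕜 (e k) • y k‖) - d))
      ≤ ENNReal.ofReal (c * av (fun e : Fin K → Bool => ∑ θ, w θ * ‖∑ k, sg 𝕜 (e k) • z k θ‖)) :=
    ENNReal.ofReal_le_ofReal (mul_le_mul_of_nonneg_left h1 hc.le)
  refine h2.trans ?_
  have e1 : c * av (fun e : Fin K → Bool => ∑ θ, w θ * ‖∑ k, sg 𝕜 (e k) • z k θ‖)
      = ∑ θ, w θ * (((Fintype.card (Fin K → Bool) : ℝ)⁻¹)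
          * ∑ e : Fin K → Bool, c * ‖∑ k, sg 𝕜 (e k) • z k θ‖) := by
    rw [av_sum, Finset.mul_sum]
    refine Finset.sum_congr rfl (fun θ _ => ?_)
    rw [av_const_mul, ← Finset.mul_sum]
    simp only [av]
    ring
  rw [e1, ENNReal.ofReal_sum_of_nonneg (fun θ _ => by have := hw θ; positivity), Finset.mul_sum]
  refine Finset.sum_le_sum (fun θ _ => ?_)
  rw [ENNReal.ofReal_mul (hw θ), mul_left_comm]
  gcongr
  rw [ENNReal.ofReal_mul (by positivity), ENNReal.ofReal_sum_of_nonneg (fun e _ => by positivity)]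
  have h3 : ∀ e : Fin K → Bool, ENNReal.ofReal (c * ‖∑ k, sg 𝕜 (e k) • z k θ‖)
      ≤ ρ (fun s => ‖ev s (∑ k, sg 𝕜 (e k) • z k θ)‖) := fun e => he.low _
  refine (mul_le_mul_right (Finset.sum_le_sum (fun e _ => h3 e)) _).trans ?_
  refine (av_lconc hρ hc2 (fun (e : Fin K → Bool) s => ‖ev s (∑ k, sg 𝕜 (e k) • z k θ)‖)
    (fun e => he.meas _) (fun _ _ => norm_nonneg _)).trans (le_of_eq ?_)
  congr 2
  funext s
  congr 1
  have : ∀ e : Fin K → Bool, ev s (∑ k, sg 𝕜 (e k) • z k θ) = ∑ k, sg 𝕜 (e k) • ev s (z k θ) := by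
    intro e
    rw [map_sum]; simp only [map_smul]
  simp only [this]
  exact av_norm_sq (𝕜 := 𝕜) (fun k => ev s (z k θ))

theorem bound5N {ρ : (S → ℝ) → ℝ≥0∞} (hρ : FN ρ) {p M : ℝ} (hp1 : 1 ≤ p) (hp2 : p < 2)
    (hM0 : 0 ≤ M) (hcp : LConc ρ p M) (hc2 : LConc ρ 2 M)
    {ev : S → (X →ₗ[𝕜] H)} {c C : ℝ} (he : Emb ρ ev c C)
    {N K : ℕ} {T : (Fin N → X) →ₗ[𝕜] Lp X 1 ν} {c' b : ℝ} (hb : 0 ≤ b) (hT : Cop T c' b)
    (hN : 0 < N) (hK : 0 < K) (y : Fin K → X) (hy : ∀ k, ‖y k‖ ≤ 1) :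
    N * (c * (c' * av (fun e : Fin K → Bool => ‖∑ k, sg 𝕜 (e k) • y k‖) - (N:ℝ)⁻¹ * K))
      ≤ M * (M * (N:ℝ) ^ (1 - 1 / (2:ℝ)) * (2 * Real.sqrt K * (2 * C * ((b + 1) * Real.sqrt N))
          + Real.sqrt (K:ℝ)⁻¹ * (2 * C * ((b + 1) * (Real.sqrt N * K))))
        + M * (N:ℝ) ^ (1 - 1 / p) * (((K:ℝ) ^ 2)⁻¹ ^ (1 / 2 - 1 / p)
          * (2 * C * ((b + 1) * (Real.sqrt N * K))))) := by
  classical
  have hN' : (0:ℝ) < N := by exact_mod_cast hN
  have hK' : (0:ℝ) < K := by exact_mod_cast hK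
  have hN1 : (1:ℝ) ≤ Real.sqrt N := by
    rw [Real.one_le_sqrt]; exact_mod_cast hN
  have hC := he.hC
  have hc := he.hc
  obtain ⟨m, w, v, hw, hv⟩ := exists_array hT K y (δ := (N:ℝ)⁻¹) (by positivity)
  -- diagonals
  have hd : ∀ κ : Fin N → Fin K, ∑ θ, ENNReal.ofReal (w θ)
      * ρ (fun s => Real.sqrt (∑ n, ‖ev s (v n (κ n) θ)‖ ^ 2))
      ≤ ENNReal.ofReal (2 * C * ((b + 1) * Real.sqrt N)) := by
    intro κ
    refine (khinP hρ he w hw (fun n θ => v n (κ n) θ)).trans (ENNReal.ofReal_le_ofReal ?_)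
    refine mul_le_mul_of_nonneg_left ?_ (by positivity)
    have h1 : ∀ e : Fin N → Bool, ∑ θ, w θ * ‖∑ n, sg 𝕜 (e n) • v n (κ n) θ‖
        ≤ (b + 1) * Real.sqrt N := by
      intro e
      have h2 := (hv (fun n k => if k = κ n then sg 𝕜 (e n) else 0)).1
      simp only [ite_smul, zero_smul, Finset.sum_ite_eq', Finset.mem_univ, if_true] at h2
      refine h2.trans ?_
      have h3 : Real.sqrt (∑ n : Fin N, ‖sg 𝕜 (e n) • y (κ n)‖ ^ 2) ≤ Real.sqrt N := by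
        apply Real.sqrt_le_sqrt
        calc ∑ n : Fin N, ‖sg 𝕜 (e n) • y (κ n)‖ ^ 2 ≤ ∑ n : Fin N, (1:ℝ) := by
              refine Finset.sum_le_sum (fun n _ => ?_)
              rw [norm_smul, norm_sg, one_mul]
              exact pow_le_one₀ (norm_nonneg _) (hy _)
          _ = N := by simp
      have h4 : ∑ n : Fin N, ∑ k : Fin K, ‖(if k = κ n then sg 𝕜 (e n) else (0:𝕜))‖ = N := by
        have : ∀ (n : Fin N) (k : Fin K), ‖(if k = κ n then sg 𝕜 (e n) else (0:𝕜))‖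
            = if k = κ n then (1:ℝ) else 0 := by
          intro n k
          split_ifs
          · exact norm_sg _ _
          · exact norm_zero
        simp only [this, Finset.sum_ite_eq', Finset.mem_univ, if_true]
        simp
      rw [h4, inv_mul_cancel₀ hN'.ne']
      nlinarith
    refine (av_mono h1).trans (le_of_eq ?_)
    exact av_const _
  -- total square function
  have hL : ∑ θ, ENNReal.ofReal (w θ)
      * ρ (fun s => Real.sqrt (∑ n, ∑ k, ‖ev s (v n k θ)‖ ^ 2))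
      ≤ ENNReal.ofReal (2 * C * ((b + 1) * (Real.sqrt N * K))) := by
    have e0 : ∀ θ, (fun s => Real.sqrt (∑ n, ∑ k, ‖ev s (v n k θ)‖ ^ 2))
        = fun s => Real.sqrt (∑ i : Fin N × Fin K, ‖ev s (v i.1 i.2 θ)‖ ^ 2) := by
      intro θ
      funext s
      rw [Fintype.sum_prod_type]
    simp only [e0]
    refine (khinP hρ he w hw (fun (i : Fin N × Fin K) θ => v i.1 i.2 θ)).trans
      (ENNReal.ofReal_le_ofReal ?_)
    refine mul_le_mul_of_nonneg_left ?_ (by positivity)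
    have h1 : ∀ e : Fin N × Fin K → Bool, ∑ θ, w θ * ‖∑ i, sg 𝕜 (e i) • v i.1 i.2 θ‖
        ≤ (b + 1) * (Real.sqrt N * K) := by
      intro e
      have h2 := (hv (fun n k => sg 𝕜 (e (n, k)))).1
      have e1 : ∀ θ, ∑ i : Fin N × Fin K, sg 𝕜 (e i) • v i.1 i.2 θ
          = ∑ n, ∑ k, sg 𝕜 (e (n, k)) • v n k θ := fun θ => Fintype.sum_prod_type _
      simp only [e1]
      refine h2.trans ?_
      have h3 : Real.sqrt (∑ n : Fin N, ‖∑ k, sg 𝕜 (e (n, k)) • y k‖ ^ 2) ≤ Real.sqrt N * K := by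
        rw [Real.sqrt_le_left (by positivity), mul_pow, Real.sq_sqrt hN'.le]
        calc ∑ n : Fin N, ‖∑ k, sg 𝕜 (e (n, k)) • y k‖ ^ 2 ≤ ∑ n : Fin N, (K:ℝ) ^ 2 := by
              refine Finset.sum_le_sum (fun n _ => ?_)
              refine pow_le_pow_left₀ (norm_nonneg _) ?_ 2
              refine (norm_sum_le _ _).trans ?_
              calc ∑ k, ‖sg 𝕜 (e (n, k)) • y k‖ ≤ ∑ k : Fin K, (1:ℝ) := by
                    refine Finset.sum_le_sum (fun k _ => ?_)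
                    rw [norm_smul, norm_sg, one_mul]
                    exact hy _
                _ = K := by simp
          _ = N * (K:ℝ) ^ 2 := by simp
      have h4 : ∑ n : Fin N, ∑ k : Fin K, ‖sg 𝕜 (e (n, k))‖ = N * K := by
        simp [norm_sg]
      rw [h4]
      have h5 : (N:ℝ)⁻¹ * (N * K) = K := by field_simp
      rw [h5]
      nlinarith
    refine (av_mono h1).trans (le_of_eq ?_)
    exact av_const _
  -- rows
  have hr : ∀ n0 : Fin N, ENNReal.ofReal (c * (c' * av (fun e : Fin K → Bool =>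
      ‖∑ k, sg 𝕜 (e k) • y k‖) - (N:ℝ)⁻¹ * K))
      ≤ ENNReal.ofReal M * ∑ θ, ENNReal.ofReal (w θ)
        * ρ (fun s => Real.sqrt (∑ k, ‖ev s (v n0 k θ)‖ ^ 2)) := by
    intro n0
    refine row_low hρ hc2 he w hw (fun k θ => v n0 k θ) y (fun e => ?_)
    have h2 := (hv (fun n k => if n = n0 then sg 𝕜 (e k) else 0)).2
    have e1 : ∀ (n : Fin N), ∑ k, (if n = n0 then sg 𝕜 (e k) else (0:𝕜)) • y k
        = if n = n0 then ∑ k, sg 𝕜 (e k) • y k else 0 := by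
      intro n; split_ifs <;> simp
    have e2 : ∀ (θ : Fin m) (n : Fin N), ∑ k, (if n = n0 then sg 𝕜 (e k) else (0:𝕜)) • v n k θ
        = if n = n0 then ∑ k, sg 𝕜 (e k) • v n k θ else 0 := by
      intro θ n; split_ifs <;> simp
    have e3 : ∀ (n : Fin N), ∑ k : Fin K, ‖(if n = n0 then sg 𝕜 (e k) else (0:𝕜))‖
        = if n = n0 then (K:ℝ) else 0 := by
      intro n; split_ifs <;> simp [norm_sg]
    simp only [e1, e2, e3, Finset.sum_ite_eq', Finset.mem_univ, if_true] at h2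
    have e4 : ∑ n : Fin N, ‖(if n = n0 then ∑ k, sg 𝕜 (e k) • y k else 0)‖ ^ 2
        = ‖∑ k, sg 𝕜 (e k) • y k‖ ^ 2 := by
      have : ∀ n : Fin N, ‖(if n = n0 then ∑ k, sg 𝕜 (e k) • y k else 0)‖ ^ 2
          = if n = n0 then ‖∑ k, sg 𝕜 (e k) • y k‖ ^ 2 else 0 := by
        intro n; split_ifs <;> simp
      simp only [this, Finset.sum_ite_eq', Finset.mem_univ, if_true]
    rw [e4, Real.sqrt_sq (norm_nonneg _)] at h2
    exact h2
  -- combination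
  have hcore : ∀ θ, _ := fun θ => core5 hρ hp1 hp2 hcp hc2 hK (fun n k s => ‖ev s (v n k θ)‖)
    (fun n k => he.meas _) (η := ((K:ℝ) ^ 2)⁻¹) (ε := (K:ℝ)⁻¹) (by positivity) (by positivity)
    (by
      apply le_of_eq
      field_simp)
  have hsum := Finset.sum_le_sum (s := Finset.univ) (fun θ (_ : θ ∈ Finset.univ) =>
    mul_le_mul_right (hcore θ) (ENNReal.ofReal (w θ)))
  rw [pull_sum] at hsum
  have hlow : ENNReal.ofReal (N * (c * (c' * av (fun e : Fin K → Bool =>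
      ‖∑ k, sg 𝕜 (e k) • y k‖) - (N:ℝ)⁻¹ * K)))
      ≤ ENNReal.ofReal M * ∑ θ, ENNReal.ofReal (w θ) * ∑ n,
        ρ (fun s => Real.sqrt (∑ k, ‖ev s (v n k θ)‖ ^ 2)) := by
    rw [ENNReal.ofReal_mul hN'.le, ENNReal.ofReal_natCast]
    have := Finset.sum_le_sum (s := Finset.univ) (fun n (_ : n ∈ Finset.univ) => hr n)
    rw [Finset.sum_const, Finset.card_univ, Fintype.card_fin, nsmul_eq_mul, ← Finset.mul_sum,
      Finset.sum_comm] at this
    simpa only [Finset.mul_sum] using this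
  have hcard : (0:ℝ) < Fintype.card (Fin N → Fin K) := by
    have : Nonempty (Fin K) := ⟨⟨0, hK⟩⟩
    exact_mod_cast Fintype.card_pos
  have hA : ENNReal.ofReal ((Fintype.card (Fin N → Fin K) : ℝ)⁻¹)
      * ∑ κ : Fin N → Fin K, ∑ θ, ENNReal.ofReal (w θ)
        * ρ (fun s => Real.sqrt (∑ n, ‖ev s (v n (κ n) θ)‖ ^ 2))
      ≤ ENNReal.ofReal (2 * C * ((b + 1) * Real.sqrt N)) := by
    refine (mul_le_mul_right (Finset.sum_le_sum (fun κ _ => hd κ)) _).trans (le_of_eq ?_)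
    rw [Finset.sum_const, Finset.card_univ, nsmul_eq_mul, ← mul_assoc, ← ENNReal.ofReal_natCast,
      ← ENNReal.ofReal_mul (by positivity), inv_mul_cancel₀ hcard.ne', ENNReal.ofReal_one, one_mul]
  set A := 2 * C * ((b + 1) * Real.sqrt N) with hAdef
  set B := 2 * C * ((b + 1) * (Real.sqrt N * K)) with hBdef
  have hA0 : 0 ≤ A := by positivity
  have hB0 : 0 ≤ B := by positivity
  have hfin : ENNReal.ofReal (N * (c * (c' * av (fun e : Fin K → Bool =>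
      ‖∑ k, sg 𝕜 (e k) • y k‖) - (N:ℝ)⁻¹ * K)))
      ≤ ENNReal.ofReal (M * (M * (N:ℝ) ^ (1 - 1 / (2:ℝ)) * (2 * Real.sqrt K * A
          + Real.sqrt (K:ℝ)⁻¹ * B)
        + M * (N:ℝ) ^ (1 - 1 / p) * (((K:ℝ) ^ 2)⁻¹ ^ (1 / 2 - 1 / p) * B))) := by
    refine (hlow.trans (mul_le_mul_right (hsum.trans ?_) _)).trans (le_of_eq
      (ENNReal.ofReal_mul hM0).symm)
    rw [ENNReal.ofReal_add (by positivity) (by positivity),
      ENNReal.ofReal_mul (p := M * (N:ℝ) ^ (1 - 1 / (2:ℝ))) (by positivity),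
      ENNReal.ofReal_mul (p := M * (N:ℝ) ^ (1 - 1 / p)) (by positivity),
      ENNReal.ofReal_add (by positivity) (by positivity),
      ENNReal.ofReal_mul (p := 2 * Real.sqrt K) (by positivity),
      ENNReal.ofReal_mul (p := Real.sqrt (K:ℝ)⁻¹) (by positivity),
      ENNReal.ofReal_mul (p := ((K:ℝ) ^ 2)⁻¹ ^ (1 / 2 - 1 / p)) (by positivity)]
    gcongr
  exact (ENNReal.ofReal_le_ofReal_iff (by positivity)).1 hfin

end Pool.Agent.Lib.MP_cdd7b4_an.H80
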