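import Mathlib

set_option autoImplicit false
set_option linter.unusedSectionVars false

namespace Pool.Agent.Lib.MP_cdd7b4_an.H80

open MeasureTheory
open scoped BigOperators ENNReal

section
variable {𝕜 : Type*} [RCLike 𝕜] {X : Type*} [NormedAddCommGroup X] [NormedSpace 𝕜 X]
  {Ω : Type*} [MeasurableSpace Ω] {ν : Measure Ω}

/-- A finite family in `L¹(ν, X)` is almost isometric to a family in a weighted finite
`ℓ¹`-sum of copies of `X`. -/
theorem approx {ι : Type*} [Fintype ι] (f : ι → Lp X 1 ν) {δ : ℝ} (hδ : 0 < δ) :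
    ∃ (m : ℕ) (w : Fin m → ℝ) (v : ι → Fin m → X), (∀ θ, 0 ≤ w θ) ∧
      ∀ α : ι → 𝕜, |‖∑ i, α i • f i‖ - ∑ θ, w θ * ‖∑ i, α i • v i θ‖| ≤ δ * ∑ i, ‖α i‖ := by
  classical
  set F : Ω → ι → X := fun ω i => (f i : Ω → X) ω with hF
  have hFm : MemLp F 1 ν := memLp_pi_iff.2 (fun i => Lp.memLp (f i))
  obtain ⟨g, hg, hgm⟩ := hFm.exists_simpleFunc_eLpNorm_sub_lt ENNReal.one_ne_top
    (ε := ENNReal.ofReal δ) (by simpa using hδ)
  have hFi : Integrable F ν := memLp_one_iff_integrable.1 hFm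
  have hgi : Integrable g ν := memLp_one_iff_integrable.1 hgm
  have hd : ∫ ω, ‖F ω - g ω‖ ∂ν ≤ δ := by
    have hi : Integrable (fun ω => F ω - g ω) ν := hFi.sub hgi
    rw [integral_norm_eq_lintegral_enorm hi.aestronglyMeasurable]
    refine ENNReal.toReal_le_of_le_ofReal hδ.le ?_
    rw [eLpNorm_one_eq_lintegral_enorm] at hg
    exact hg.le
  refine ⟨g.range.card, fun θ => ν.real (g ⁻¹' {((g.range.equivFin.symm θ : g.range) : ι → X)}),
    fun i θ => ((g.range.equivFin.symm θ : g.range) : ι → X) i, fun θ => measureReal_nonneg,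
    fun α => ?_⟩
  have h1 : ‖∑ i, α i • f i‖ = ∫ ω, ‖∑ i, α i • F ω i‖ ∂ν := by
    rw [L1.norm_eq_integral_norm]
    apply integral_congr_ae
    have a1 := Lp.coeFn_fun_finsetSum Finset.univ (fun i => α i • f i)
    have a2 : ∀ᵐ ω ∂ν, ∀ i, (α i • f i : Lp X 1 ν) ω = α i • (f i : Ω → X) ω := by
      rw [ae_all_iff]; intro i
      exact Lp.coeFn_smul _ _
    filter_upwards [a1, a2] with ω b1 b2
    rw [b1]
    simp only [b2, hF]
  have h2 : ∑ θ : Fin g.range.card,
      ν.real (g ⁻¹' {((g.range.equivFin.symm θ : g.range) : ι → X)})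
        * ‖∑ i, α i • ((g.range.equivFin.symm θ : g.range) : ι → X) i‖
      = ∫ ω, ‖∑ i, α i • g ω i‖ ∂ν := by
    rw [Equiv.sum_comp g.range.equivFin.symm (fun z : g.range =>
      ν.real (g ⁻¹' {(z : ι → X)}) * ‖∑ i, α i • (z : ι → X) i‖)]
    rw [Finset.sum_coe_sort g.range (fun z => ν.real (g ⁻¹' {z}) * ‖∑ i, α i • z i‖)]
    have h3 := SimpleFunc.map_integral g (fun z : ι → X => ‖∑ i, α i • z i‖) hgi (by simp)
    simp only [smul_eq_mul] at h3
    rw [← h3, SimpleFunc.integral_eq_integral]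
    · rfl
    · have : Integrable (fun ω => ‖∑ i, α i • g ω i‖) ν := by
        apply Integrable.norm
        apply integrable_finsetSum
        intro i _
        exact (integrable_pi_iff.1 hgi i).smul (α i)
      exact this
  rw [h1, h2]
  have hI1 : Integrable (fun ω => ‖∑ i, α i • F ω i‖) ν := by
    apply Integrable.norm
    apply integrable_finsetSum
    intro i _
    exact (integrable_pi_iff.1 hFi i).smul (α i)
  have hI2 : Integrable (fun ω => ‖∑ i, α i • g ω i‖) ν := by
    apply Integrable.norm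
    apply integrable_finsetSum
    intro i _
    exact (integrable_pi_iff.1 hgi i).smul (α i)
  rw [← integral_sub hI1 hI2]
  refine (abs_integral_le_integral_abs).trans ?_
  calc ∫ ω, |‖∑ i, α i • F ω i‖ - ‖∑ i, α i • g ω i‖| ∂ν
      ≤ ∫ ω, (∑ i, ‖α i‖) * ‖F ω - g ω‖ ∂ν := by
        apply integral_mono (hI1.sub hI2).abs ((hFi.sub hgi).norm.const_mul _)
        intro ω
        simp only
        refine (abs_norm_sub_norm_le _ _).trans ?_
        rw [← Finset.sum_sub_distrib, Finset.sum_mul]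
        refine (norm_sum_le _ _).trans (Finset.sum_le_sum (fun i _ => ?_))
        rw [← smul_sub, norm_smul]
        refine mul_le_mul_of_nonneg_left ?_ (norm_nonneg _)
        exact norm_le_pi_norm (F ω - g ω) i
    _ = (∑ i, ‖α i‖) * ∫ ω, ‖F ω - g ω‖ ∂ν := by rw [integral_const_mul]
    _ ≤ δ * ∑ i, ‖α i‖ := by
        rw [mul_comm]
        exact mul_le_mul_of_nonneg_right hd (Finset.sum_nonneg (fun i _ => norm_nonneg _))

end

end Pool.Agent.Lib.MP_cdd7b4_an.H80
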