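import Pool.Agent.Lib.MP_cdd7b4_an.H80.Core5
import Pool.Agent.Lib.MP_cdd7b4_an.H80.Simple

set_option autoImplicit false
set_option linter.unusedSectionVars false

namespace Pool.Agent.Lib.MP_cdd7b4_an.H80

open MeasureTheory
open scoped BigOperators ENNReal

section ev
variable {𝕜 : Type*} [RCLike 𝕜] {X : Type*} [NormedAddCommGroup X] [NormedSpace 𝕜 X]
  {S : Type*} [MeasurableSpace S] {μ : Measure S} {Y : Type*} [NormedAddCommGroup Y]
  [NormedSpace 𝕜 Y]

lemma aeeq_sum {ι : Type*} (t : Finset ι) (g : ι → (S →ₘ[μ] Y)) :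
    ((∑ i ∈ t, g i : S →ₘ[μ] Y) : S → Y) =ᵐ[μ] fun s => ∑ i ∈ t, (g i : S → Y) s := by
  classical
  induction t using Finset.induction_on with
  | empty =>
    simp only [Finset.sum_empty]
    exact AEEqFun.coeFn_zero
  | insert i t hi ih =>
    rw [Finset.sum_insert hi]
    filter_upwards [AEEqFun.coeFn_add (g i) (∑ i ∈ t, g i), ih] with s h1 h2
    rw [h1, Pi.add_apply, h2, Finset.sum_insert hi]

/-- Everywhere linear versions of the classes `J x`. -/
lemma exists_ev (J : X →ₗ[𝕜] (S →ₘ[μ] Y)) :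
    ∃ ev : S → (X →ₗ[𝕜] Y), (∀ x, Measurable (fun s => ‖ev s x‖)) ∧
      ∀ x, (J x : S → Y) =ᵐ[μ] fun s => ev s x := by
  classical
  let b := Module.Basis.ofVectorSpace 𝕜 X
  have hev : ∀ (s : S) (x : X), (b.constr 𝕜 (fun i => (J (b i) : S → Y) s)) x
      = ∑ i ∈ (b.repr x).support, (b.repr x i) • (J (b i) : S → Y) s := by
    intro s x
    rw [Module.Basis.constr_apply, Finsupp.sum]
  refine ⟨fun s => b.constr 𝕜 (fun i => (J (b i) : S → Y) s), fun x => ?_, fun x => ?_⟩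
  · simp only [hev]
    have : StronglyMeasurable (fun s => ∑ i ∈ (b.repr x).support,
        (b.repr x i) • (J (b i) : S → Y) s) := by
      apply Finset.stronglyMeasurable_fun_sum
      intro i _
      exact (AEEqFun.stronglyMeasurable _).const_smul _
    exact this.norm.measurable
  · have hx : J x = ∑ i ∈ (b.repr x).support, (b.repr x i) • J (b i) := by
      conv_lhs => rw [← b.linearCombination_repr x]
      rw [Finsupp.linearCombination_apply, Finsupp.sum, map_sum]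
      simp only [map_smul]
    have h1 := aeeq_sum (b.repr x).support (fun i => (b.repr x i) • J (b i))
    have h2 : ∀ᵐ s ∂μ, ∀ i ∈ (b.repr x).support,
        ((b.repr x i • J (b i) : S →ₘ[μ] Y) : S → Y) s = b.repr x i • (J (b i) : S → Y) s := by
      refine (Finset.eventually_all (b.repr x).support).2 (fun i _ => ?_)
      exact AEEqFun.coeFn_smul _ _
    rw [hx]
    filter_upwards [h1, h2] with s g1 g2
    rw [g1, Finset.sum_congr rfl g2, hev]

/-- data of an isomorphic embedding into `E(Y)` through evaluations. -/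
structure Emb (ρ : (S → ℝ) → ℝ≥0∞) (ev : S → (X →ₗ[𝕜] Y)) (c C : ℝ) : Prop where
  hc : 0 < c
  hC : 0 ≤ C
  meas : ∀ x, Measurable (fun s => ‖ev s x‖)
  low : ∀ x : X, ENNReal.ofReal (c * ‖x‖) ≤ ρ (fun s => ‖ev s x‖)
  up : ∀ x : X, ρ (fun s => ‖ev s x‖) ≤ ENNReal.ofReal (C * ‖x‖)

lemma emb_of_embedsIn {ρ : FunctionNorm μ} (h : EmbedsIn 𝕜 ρ Y X) :
    ∃ (ev : S → (X →ₗ[𝕜] Y)) (c C : ℝ), Emb ρ.toFun ev c C := by
  obtain ⟨J, c, C, hc, hJ⟩ := h
  obtain ⟨ev, hm, hev⟩ := exists_ev J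
  have e : ∀ x, ρ.toFun (fun s => ‖(J x : S → Y) s‖) = ρ.toFun (fun s => ‖ev s x‖) := by
    intro x
    have hJm : Measurable (fun s => ‖(J x : S → Y) s‖) :=
      (AEEqFun.stronglyMeasurable (J x)).norm.measurable
    apply le_antisymm
    · refine ρ.mono' _ _ hJm (hm x) ?_
      filter_upwards [hev x] with s hs
      rw [hs]; exact ⟨norm_nonneg _, le_rfl⟩
    · refine ρ.mono' _ _ (hm x) hJm ?_
      filter_upwards [hev x] with s hs
      rw [hs]; exact ⟨norm_nonneg _, le_rfl⟩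
  refine ⟨ev, c, max C 0, hc, le_max_right _ _, hm, fun x => ?_, fun x => ?_⟩
  · rw [← e x]; exact (hJ x).1
  · rw [← e x]
    refine (hJ x).2.trans (ENNReal.ofReal_le_ofReal ?_)
    exact mul_le_mul_of_nonneg_right (le_max_left _ _) (norm_nonneg _)

end ev

section arr
variable {𝕜 : Type*} [RCLike 𝕜] {X : Type*} [NormedAddCommGroup X] [NormedSpace 𝕜 X]
  {Ω : Type*} [MeasurableSpace Ω] {ν : Measure Ω}

/-- An isomorphic copy of `ℓ₂^N(X)` in `L¹(ν, X)`, with constants. -/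
structure Cop {N : ℕ} (T : (Fin N → X) →ₗ[𝕜] Lp X 1 ν) (c b : ℝ) : Prop where
  low : ∀ z, c * Real.sqrt (∑ n, ‖z n‖ ^ 2) ≤ ‖T z‖
  up : ∀ z, ‖T z‖ ≤ b * Real.sqrt (∑ n, ‖z n‖ ^ 2)

/-- The array of vectors coming from an embedding of `ℓ₂^N(X)`. -/
theorem exists_array {N : ℕ} {T : (Fin N → X) →ₗ[𝕜] Lp X 1 ν} {c b : ℝ} (hT : Cop T c b)
    (K : ℕ) (y : Fin K → X) {δ : ℝ} (hδ : 0 < δ) :
    ∃ (m : ℕ) (w : Fin m → ℝ) (v : Fin N → Fin K → Fin m → X), (∀ θ, 0 ≤ w θ) ∧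
      ∀ α : Fin N → Fin K → 𝕜,
        (∑ θ, w θ * ‖∑ n, ∑ k, α n k • v n k θ‖
          ≤ b * Real.sqrt (∑ n, ‖∑ k, α n k • y k‖ ^ 2) + δ * ∑ n, ∑ k, ‖α n k‖) ∧
        (c * Real.sqrt (∑ n, ‖∑ k, α n k • y k‖ ^ 2)
          ≤ ∑ θ, w θ * ‖∑ n, ∑ k, α n k • v n k θ‖ + δ * ∑ n, ∑ k, ‖α n k‖) := by
  classical
  obtain ⟨m, w, v, hw, h⟩ := approx (𝕜 := 𝕜) (X := X) (ν := ν)
    (fun i : Fin N × Fin K => T (Pi.single i.1 (y i.2))) hδ
  refine ⟨m, w, fun n k => v (n, k), hw, fun α => ?_⟩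
  have h1 := h (fun i => α i.1 i.2)
  rw [Fintype.sum_prod_type (f := fun i : Fin N × Fin K => ‖α i.1 i.2‖)] at h1
  have e1 : ∀ θ, ∑ i : Fin N × Fin K, α i.1 i.2 • v i θ = ∑ n, ∑ k, α n k • v (n, k) θ :=
    fun θ => Fintype.sum_prod_type _
  simp only [e1] at h1
  have e2 : ∑ i : Fin N × Fin K, α i.1 i.2 • T (Pi.single i.1 (y i.2))
      = T (fun n => ∑ k, α n k • y k) := by
    have h0 : (fun n => ∑ k, α n k • y k)
        = ∑ n : Fin N, ∑ k, α n k • (Pi.single n (y k) : Fin N → X) := by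
      rw [← Finset.univ_sum_single (fun n => ∑ k, α n k • y k)]
      refine Finset.sum_congr rfl (fun n _ => ?_)
      have h3 := map_sum (LinearMap.single 𝕜 (fun _ : Fin N => X) n)
        (fun k => α n k • y k) Finset.univ
      simp only [map_smul] at h3
      exact h3
    rw [h0, Fintype.sum_prod_type, map_sum]
    simp only [map_sum, map_smul]
  rw [e2] at h1
  have h2 := hT.up (fun n => ∑ k, α n k • y k)
  have h3 := hT.low (fun n => ∑ k, α n k • y k)
  rw [abs_le] at h1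
  constructor
  · linarith [h1.1]
  · linarith [h1.2]

end arr

section khin
variable {𝕜 : Type*} [RCLike 𝕜] {X : Type*} [NormedAddCommGroup X] [NormedSpace 𝕜 X]
  {S : Type*} [MeasurableSpace S] {H : Type*} [NormedAddCommGroup H] [InnerProductSpace 𝕜 H]

/-- Khinchine inside the function space, in a weighted finite sum. -/
lemma khinP {ρ : (S → ℝ) → ℝ≥0∞} (hρ : FN ρ) {ev : S → (X →ₗ[𝕜] H)} {c C : ℝ}
    (he : Emb ρ ev c C) {ι : Type*} [Fintype ι] [DecidableEq ι] {m : ℕ} (w : Fin m → ℝ)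
    (hw : ∀ θ, 0 ≤ w θ) (x : ι → Fin m → X) :
    ∑ θ, ENNReal.ofReal (w θ) * ρ (fun s => Real.sqrt (∑ i, ‖ev s (x i θ)‖ ^ 2))
      ≤ ENNReal.ofReal (2 * C * av (fun e : ι → Bool =>
          ∑ θ, w θ * ‖∑ i, sg 𝕜 (e i) • x i θ‖)) := by
  have h1 : ∀ θ, ρ (fun s => Real.sqrt (∑ i, ‖ev s (x i θ)‖ ^ 2))
      ≤ ENNReal.ofReal (2 * C * av (fun e : ι → Bool => ‖∑ i, sg 𝕜 (e i) • x i θ‖)) := by
    intro θ
    have hm : ∀ e : ι → Bool, Measurable (fun s => ‖ev s (∑ i, sg 𝕜 (e i) • x i θ)‖) :=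
      fun e => he.meas _
    have hlin : ∀ (e : ι → Bool) (s : S), ev s (∑ i, sg 𝕜 (e i) • x i θ)
        = ∑ i, sg 𝕜 (e i) • ev s (x i θ) := by
      intro e s
      rw [map_sum]; simp only [map_smul]
    have hsm : Measurable (fun s => Real.sqrt (∑ i, ‖ev s (x i θ)‖ ^ 2)) :=
      (Finset.measurable_sum _ (fun i _ => (he.meas _).pow_const 2)).sqrt
    have hAm : Measurable (fun s => av (fun e : ι → Bool => ‖ev s (∑ i, sg 𝕜 (e i) • x i θ)‖)) :=
      (Finset.measurable_sum _ (fun e _ => hm e)).const_mul _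
    have hA0 : ∀ s, 0 ≤ av (fun e : ι → Bool => ‖ev s (∑ i, sg 𝕜 (e i) • x i θ)‖) :=
      fun s => av_nonneg (fun _ => norm_nonneg _)
    have h2 : ρ (fun s => Real.sqrt (∑ i, ‖ev s (x i θ)‖ ^ 2))
        ≤ ρ (fun s => 2 * av (fun e : ι → Bool => ‖ev s (∑ i, sg 𝕜 (e i) • x i θ)‖)) := by
      refine hρ.mono _ _ hsm (hAm.const_mul _) (fun s => Real.sqrt_nonneg _) (fun s => ?_)
      simp only [hlin]
      exact khin (𝕜 := 𝕜) (fun i => ev s (x i θ))
    refine h2.trans ?_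
    rw [hρ.smul _ _ (by norm_num) hAm hA0]
    have h3 := hρ.av (fun (e : ι → Bool) s => ‖ev s (∑ i, sg 𝕜 (e i) • x i θ)‖) hm
      (fun _ _ => norm_nonneg _)
    refine (mul_le_mul_right (h3.trans (mul_le_mul_right (Finset.sum_le_sum
      (fun e _ => he.up _)) _)) _).trans (le_of_eq ?_)
    rw [← ENNReal.ofReal_sum_of_nonneg (fun e _ => mul_nonneg he.hC (norm_nonneg _)),
      ← ENNReal.ofReal_mul (by positivity), ← ENNReal.ofReal_mul (by norm_num)]
    congr 1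
    simp only [av]
    rw [← Finset.mul_sum]
    ring
  calc _ ≤ ∑ θ, ENNReal.ofReal (w θ) * ENNReal.ofReal (2 * C * av (fun e : ι → Bool =>
          ‖∑ i, sg 𝕜 (e i) • x i θ‖)) := Finset.sum_le_sum (fun θ _ => by gcongr; exact h1 θ)
    _ = _ := by
      have : ∀ θ, ENNReal.ofReal (w θ) * ENNReal.ofReal (2 * C * av (fun e : ι → Bool =>
          ‖∑ i, sg 𝕜 (e i) • x i θ‖)) = ENNReal.ofReal (w θ * (2 * C * av (fun e : ι → Bool =>
          ‖∑ i, sg 𝕜 (e i) • x i θ‖))) := fun θ => (ENNReal.ofReal_mul (hw θ)).symm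
      simp only [this]
      rw [← ENNReal.ofReal_sum_of_nonneg]
      · congr 1
        rw [av_sum, Finset.mul_sum]
        refine Finset.sum_congr rfl (fun θ _ => ?_)
        rw [av_const_mul]; ring
      · intro θ _
        have := he.hC
        have h5 : 0 ≤ av (fun e : ι → Bool => ‖∑ i, sg 𝕜 (e i) • x i θ‖) :=
          av_nonneg (fun _ => norm_nonneg _)
        have := hw θ
        positivity

/-- averages of the function norm and square functions. -/
lemma av_lconc {ρ : (S → ℝ) → ℝ≥0∞} (hρ : FN ρ) {M : ℝ} (hc2 : LConc ρ 2 M)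
    {α : Type*} [Fintype α] [Nonempty α] (g : α → S → ℝ) (hg : ∀ a, Measurable (g a))
    (h0 : ∀ a s, 0 ≤ g a s) :
    ENNReal.ofReal ((Fintype.card α : ℝ)⁻¹) * ∑ a, ρ (g a)
      ≤ ENNReal.ofReal M * ρ (fun s => Real.sqrt (av (fun a => g a s ^ 2))) := by
  classical
  have hcard : (0:ℝ) < Fintype.card α := by exact_mod_cast Fintype.card_pos
  let e := Fintype.equivFin α
  have h1 := hc2 (Fintype.card α) (fun i => g (e.symm i)) (fun i => hg _) (fun i s => h0 _ _)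
  rw [Equiv.sum_comp e.symm (fun a => ρ (g a))] at h1
  have e1 : ∀ s, ∑ i, g (e.symm i) s ^ (2:ℝ) = ∑ a, g a s ^ 2 := by
    intro s
    rw [Equiv.sum_comp e.symm (fun a => g a s ^ (2:ℝ))]
    simp
  have e2 : (fun s => (∑ i, g (e.symm i) s ^ (2:ℝ)) ^ (1 / (2:ℝ)))
      = fun s => Real.sqrt (Fintype.card α) * Real.sqrt (av (fun a => g a s ^ 2)) := by
    funext s
    rw [e1, ← Real.sqrt_eq_rpow, ← Real.sqrt_mul hcard.le]
    congr 1
    simp only [av]
    field_simp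
  have hm : Measurable (fun s => Real.sqrt (av (fun a => g a s ^ 2))) :=
    ((Finset.measurable_sum _ (fun a _ => (hg a).pow_const 2)).const_mul _).sqrt
  rw [e2, hρ.smul _ _ (Real.sqrt_nonneg _) hm (fun s => Real.sqrt_nonneg _)] at h1
  refine (mul_le_mul_right h1 _).trans (le_of_eq ?_)
  rw [← mul_assoc, ← mul_assoc]
  congr 1
  rw [← ENNReal.ofReal_mul (by positivity), ← ENNReal.ofReal_mul' (Real.sqrt_nonneg _)]
  congr 1
  have h3 : (1:ℝ) - 1 / 2 = 1 / 2 := by norm_num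
  rw [h3, ← Real.sqrt_eq_rpow]
  have h4 := Real.mul_self_sqrt hcard.le
  field_simp
  rw [sq, h4, mul_comm]

end khin

end Pool.Agent.Lib.MP_cdd7b4_an.H80
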