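import Pool.Agent.Lib.MP_cdd7b4_an.H80.Core6
import Pool.Agent.Lib.MP_cdd7b4_an.H80.Emb

set_option autoImplicit false
set_option linter.unusedSectionVars false

namespace Pool.Agent.Lib.MP_cdd7b4_an.H80

open MeasureTheory
open scoped BigOperators ENNReal

variable {𝕜 : Type*} [RCLike 𝕜] {X : Type*} [NormedAddCommGroup X] [NormedSpace 𝕜 X]
  {S : Type*} [MeasurableSpace S] {Ω : Type*} [MeasurableSpace Ω] {ν : Measure Ω}
  {Y : Type*} [NormedAddCommGroup Y] [NormedSpace 𝕜 Y]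

lemma sg_smul_eq {V : Type*} [NormedAddCommGroup V] [NormedSpace 𝕜 V] (b : Bool) (x : V) :
    sg 𝕜 b • x = if b then x else - x := by
  cases b <;> simp [sg]

/-- the second moment of a Rademacher sum -/
noncomputable def r2 (𝕜 : Type*) [RCLike 𝕜] {V : Type*} [NormedAddCommGroup V] [NormedSpace 𝕜 V]
    {n : ℕ} (x : Fin n → V) : ℝ :=
  Real.sqrt (av (fun e : Fin n → Bool => ‖∑ i, sg 𝕜 (e i) • x i‖ ^ 2))

lemma r2_eq {V : Type*} [NormedAddCommGroup V] [NormedSpace 𝕜 V] {n : ℕ} (x : Fin n → V) :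
    r2 𝕜 x = Real.sqrt ((2 ^ n : ℝ)⁻¹
      * ∑ e : Fin n → Bool, ‖∑ i, (if e i then x i else - x i)‖ ^ 2) := by
  have hc : (Fintype.card (Fin n → Bool) : ℝ) = 2 ^ n := by
    rw [Fintype.card_pi]; simp
  simp only [r2, av, sg_smul_eq, hc]

/-- triangle inequality for quadratic means -/
lemma qmean_le {α : Type*} [Fintype α] {m : ℕ} (w : Fin m → ℝ) (hw : ∀ θ, 0 ≤ w θ)
    (x : Fin m → α → ℝ) :
    Real.sqrt (av (fun a => (∑ θ, w θ * x θ a) ^ 2))
      ≤ ∑ θ, w θ * Real.sqrt (av (fun a => x θ a ^ 2)) := by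
  classical
  have hn : ∀ f : α → ℝ, Real.sqrt (av (fun a => f a ^ 2))
      = Real.sqrt ((Fintype.card α : ℝ)⁻¹) * ‖(WithLp.toLp 2 f : EuclideanSpace ℝ α)‖ := by
    intro f
    rw [EuclideanSpace.norm_eq, ← Real.sqrt_mul (by positivity)]
    simp only [av, Real.norm_eq_abs, sq_abs]
  have e1 : (WithLp.toLp 2 (fun a => ∑ θ, w θ * x θ a) : EuclideanSpace ℝ α)
      = ∑ θ, w θ • (WithLp.toLp 2 (x θ) : EuclideanSpace ℝ α) := by
    ext a
    simp
  rw [hn, e1]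
  simp only [hn]
  calc Real.sqrt ((Fintype.card α : ℝ)⁻¹) * ‖∑ θ, w θ • (WithLp.toLp 2 (x θ) : EuclideanSpace ℝ α)‖
      ≤ Real.sqrt ((Fintype.card α : ℝ)⁻¹)
        * ∑ θ, ‖w θ • (WithLp.toLp 2 (x θ) : EuclideanSpace ℝ α)‖ :=
        mul_le_mul_of_nonneg_left (norm_sum_le _ _) (Real.sqrt_nonneg _)
    _ = _ := by
        rw [Finset.mul_sum]
        refine Finset.sum_congr rfl (fun θ _ => ?_)
        rw [norm_smul, Real.norm_eq_abs, abs_of_nonneg (hw θ)]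
        ring

lemma two_concave_av {μ : Measure S} {r : FunctionNorm μ} {p M : ℝ} (hp : 1 ≤ p) (hp2 : p < 2)
    (hM0 : 0 < M)
    (hM : ∀ (n : ℕ) (f : Fin n → S → ℝ), (∀ i, Measurable (f i)) → (∀ i s, 0 ≤ f i s) →
    (∑ i, r.toFun (f i) ^ p) ^ (1 / p)
      ≤ ENNReal.ofReal M * r.toFun (fun s => (∑ i, f i s ^ p) ^ (1 / p)))
    {α : Type*} [Fintype α] [Nonempty α] (f : α → S → ℝ) (hf : ∀ i, Measurable (f i))
    (h0 : ∀ i s, 0 ≤ f i s)
    (x : α → ℝ) (hx : ∀ i, 0 ≤ x i) (hxf : ∀ i, ENNReal.ofReal (x i) ≤ r.toFun (f i)) :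
    ENNReal.ofReal (Real.sqrt (av (fun a => x a ^ 2)))
      ≤ ENNReal.ofReal M * r.toFun (fun s => Real.sqrt (av (fun a => f a s ^ 2))) := by
  classical
  by_cases htop : r.toFun (fun s => Real.sqrt (av (fun a => f a s ^ 2))) = ⊤
  · rw [htop, ENNReal.mul_top (by simpa using hM0)]
    exact le_top
  have hcard : (0:ℝ) < Fintype.card α := by exact_mod_cast Fintype.card_pos
  set B := (r.toFun (fun s => Real.sqrt (av (fun a => f a s ^ 2)))).toReal with hB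
  have hBe : ENNReal.ofReal B = r.toFun (fun s => Real.sqrt (av (fun a => f a s ^ 2))) :=
    ENNReal.ofReal_toReal htop
  let e := Fintype.equivFin α
  set κ := Real.sqrt ((Fintype.card α : ℝ)⁻¹) with hκ
  have hκ0 : 0 ≤ κ := Real.sqrt_nonneg _
  have hκ2 : κ ^ 2 = (Fintype.card α : ℝ)⁻¹ := Real.sq_sqrt (by positivity)
  have h1 := two_concave hp hp2 hM0.le hM (fun (i : Fin (Fintype.card α)) s => κ * f (e.symm i) s)
    (fun i => (hf _).const_mul _) (fun i s => mul_nonneg hκ0 (h0 _ _))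
    (fun i => κ * x (e.symm i)) (fun i => mul_nonneg hκ0 (hx _))
    (fun i => by
      rw [r.fn.smul _ _ hκ0 (hf _) (h0 _), ENNReal.ofReal_mul hκ0]
      gcongr
      exact hxf _)
    (B := B) ENNReal.toReal_nonneg (by
      rw [hBe]
      apply le_of_eq
      congr 1
      funext s
      congr 1
      rw [Equiv.sum_comp e.symm (fun a => (κ * f a s) ^ 2)]
      simp only [mul_pow, hκ2, av]
      rw [Finset.mul_sum])
  rw [Equiv.sum_comp e.symm (fun a => (κ * x a) ^ 2)] at h1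
  have e2 : ∑ a, (κ * x a) ^ 2 = av (fun a => x a ^ 2) := by
    simp only [mul_pow, hκ2, av]
    rw [Finset.mul_sum]
  rw [e2] at h1
  rw [← hBe, ← ENNReal.ofReal_mul hM0.le]
  exact ENNReal.ofReal_le_ofReal h1

lemma row_low6 {μ : Measure S} {r : FunctionNorm μ} {p M : ℝ} (hp : 1 ≤ p) (hp2 : p < 2)
    (hM0 : 0 < M)
    (hM : ∀ (n : ℕ) (f : Fin n → S → ℝ), (∀ i, Measurable (f i)) → (∀ i s, 0 ≤ f i s) →
    (∑ i, r.toFun (f i) ^ p) ^ (1 / p)
      ≤ ENNReal.ofReal M * r.toFun (fun s => (∑ i, f i s ^ p) ^ (1 / p)))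
    {ev : S → (X →ₗ[𝕜] Y)} {c C : ℝ} (he : Emb r.toFun ev c C) {t Ty : ℝ} (hTy0 : 0 ≤ Ty)
    (hTy : ∀ (n : ℕ) (x : Fin n → Y), r2 𝕜 x ≤ Ty * (∑ i, ‖x i‖ ^ t) ^ (1 / t))
    {m : ℕ} (w : Fin m → ℝ)
    (hw : ∀ θ, 0 ≤ w θ) {K : ℕ} (z : Fin K → Fin m → X) (y : Fin K → X) {c' d : ℝ} (hc' : 0 ≤ c')
    (hd : 0 ≤ d)
    (h : ∀ e : Fin K → Bool, c' * ‖∑ k, sg 𝕜 (e k) • y k‖
      ≤ ∑ θ, w θ * ‖∑ k, sg 𝕜 (e k) • z k θ‖ + d) :
    ENNReal.ofReal (c * (c' * r2 𝕜 y - d))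
      ≤ ENNReal.ofReal (M * Ty) * ∑ θ, ENNReal.ofReal (w θ)
        * r.toFun (fun s => (∑ k, ‖ev s (z k θ)‖ ^ t) ^ (1 / t)) := by
  have hc := he.hc
  have h1 : c' * r2 𝕜 y ≤ ∑ θ, w θ * r2 𝕜 (fun k => z k θ) + d := by
    have e1 : c' * r2 𝕜 y = Real.sqrt (av (fun e : Fin K → Bool =>
        (c' * ‖∑ k, sg 𝕜 (e k) • y k‖) ^ 2)) := by
      simp only [mul_pow]
      rw [av_const_mul, Real.sqrt_mul (sq_nonneg _), Real.sqrt_sq hc']
      rfl
    have h2 : Real.sqrt (av (fun e : Fin K → Bool => (c' * ‖∑ k, sg 𝕜 (e k) • y k‖) ^ 2))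
        ≤ Real.sqrt (av (fun e : Fin K → Bool =>
          (∑ θ : Fin (m + 1), (Fin.snoc (α := fun _ => ℝ) w 1 θ)
            * (Fin.snoc (α := fun _ => (Fin K → Bool) → ℝ)
              (fun θ e => ‖∑ k, sg 𝕜 (e k) • z k θ‖) (fun _ => d) θ) e) ^ 2)) := by
      apply Real.sqrt_le_sqrt
      apply av_mono
      intro e
      refine pow_le_pow_left₀ (mul_nonneg hc' (norm_nonneg _)) ?_ 2
      rw [Fin.sum_univ_castSucc]
      simp only [Fin.snoc_castSucc, Fin.snoc_last, one_mul]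
      exact h e
    have h3 := qmean_le (α := Fin K → Bool) (Fin.snoc (α := fun _ => ℝ) w 1)
      (fun θ => by
        refine Fin.lastCases ?_ (fun θ => ?_) θ
        · simp
        · simpa using hw θ)
      (Fin.snoc (α := fun _ => (Fin K → Bool) → ℝ)
              (fun θ e => ‖∑ k, sg 𝕜 (e k) • z k θ‖) (fun _ => d))
    rw [Fin.sum_univ_castSucc] at h3
    simp only [Fin.snoc_castSucc, Fin.snoc_last, one_mul] at h3
    rw [av_const, Real.sqrt_sq hd] at h3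
    rw [e1]
    exact h2.trans h3
  have h2 : ENNReal.ofReal (c * (c' * r2 𝕜 y - d))
      ≤ ENNReal.ofReal (∑ θ, w θ * (c * r2 𝕜 (fun k => z k θ))) := by
    refine ENNReal.ofReal_le_ofReal ?_
    have e1 : ∑ θ, w θ * (c * r2 𝕜 (fun k => z k θ)) = c * ∑ θ, w θ * r2 𝕜 (fun k => z k θ) := by
      rw [Finset.mul_sum]
      exact Finset.sum_congr rfl (fun θ _ => by ring)
    rw [e1]
    exact mul_le_mul_of_nonneg_left (by linarith) hc.le
  refine h2.trans ?_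
  have hr2 : ∀ θ, 0 ≤ r2 𝕜 (fun k => z k θ) := fun θ => Real.sqrt_nonneg _
  rw [ENNReal.ofReal_sum_of_nonneg (fun θ _ => mul_nonneg (hw θ) (mul_nonneg hc.le (hr2 θ))),
    Finset.mul_sum]
  refine Finset.sum_le_sum (fun θ _ => ?_)
  rw [ENNReal.ofReal_mul (hw θ), mul_left_comm]
  gcongr
  have hlin : ∀ (e : Fin K → Bool) (s : S), ev s (∑ k, sg 𝕜 (e k) • z k θ)
      = ∑ k, sg 𝕜 (e k) • ev s (z k θ) := by
    intro e s
    rw [map_sum]; simp only [map_smul]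
  have h3 := two_concave_av hp hp2 hM0 hM
    (fun (e : Fin K → Bool) s => ‖ev s (∑ k, sg 𝕜 (e k) • z k θ)‖) (fun e => he.meas _)
    (fun _ _ => norm_nonneg _) (fun e => c * ‖∑ k, sg 𝕜 (e k) • z k θ‖)
    (fun e => by positivity) (fun e => he.low _)
  have e3 : Real.sqrt (av (fun e : Fin K → Bool => (c * ‖∑ k, sg 𝕜 (e k) • z k θ‖) ^ 2))
      = c * r2 𝕜 (fun k => z k θ) := by
    simp only [mul_pow]
    rw [av_const_mul, Real.sqrt_mul (sq_nonneg _), Real.sqrt_sq hc.le]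
    rfl
  rw [e3] at h3
  refine h3.trans ?_
  rw [ENNReal.ofReal_mul hM0.le, mul_assoc]
  gcongr
  have hsm : Measurable (fun s => (∑ k, ‖ev s (z k θ)‖ ^ t) ^ (1 / t)) :=
    (Finset.measurable_sum _ (fun i _ => (he.meas _).pow_const _)).pow_const _
  have hs0 : ∀ s, 0 ≤ (∑ k, ‖ev s (z k θ)‖ ^ t) ^ (1 / t) := fun s =>
    Real.rpow_nonneg (Finset.sum_nonneg (fun i _ => Real.rpow_nonneg (norm_nonneg _) _)) _
  rw [← r.fn.smul _ _ hTy0 hsm hs0]
  refine r.fn.mono _ _ ?_ (hsm.const_mul _) (fun s => Real.sqrt_nonneg _) (fun s => ?_)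
  · exact ((Finset.measurable_sum _ (fun e _ => (he.meas _).pow_const 2)).const_mul _).sqrt
  · simp only [hlin]
    exact hTy K (fun k => ev s (z k θ))

/-- the weight constant -/
noncomputable def Zq (q : ℝ) : ℝ := ∑' j : ℕ, ((j : ℝ) + 1) ^ (-(2 / q))

lemma Zq_summable {q : ℝ} (hq : 0 < q) (hq2 : q < 2) :
    Summable (fun j : ℕ => ((j : ℝ) + 1) ^ (-(2 / q))) := by
  have h1 : Summable (fun j : ℕ => ((j : ℝ)) ^ (-(2 / q))) := by
    rw [Real.summable_nat_rpow]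
    have : 1 < 2 / q := by rw [lt_div_iff₀ hq]; linarith
    linarith
  have h2 := (summable_nat_add_iff 1).2 h1
  simpa using h2

lemma Zq_nonneg (q : ℝ) : 0 ≤ Zq q := tsum_nonneg (fun j => Real.rpow_nonneg (by positivity) _)

lemma wt_sq_av {q : ℝ} (hq : 0 < q) (hq2 : q < 2) {N' : ℕ} [NeZero N'] :
    av (fun j : Fin N' => wt N' q j ^ 2) ≤ (N':ℝ) ^ (2 / q - 1) * Zq q := by
  have hN' : (0:ℝ) < N' := by exact_mod_cast Nat.pos_of_ne_zero (NeZero.ne N')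
  have h1 : ∀ j : Fin N', wt N' q j ^ 2 = (N':ℝ) ^ (2 / q) * ((j:ℝ) + 1) ^ (-(2 / q)) := by
    intro j
    rw [wt, ← Real.rpow_natCast, ← Real.rpow_mul (by positivity),
      Real.div_rpow hN'.le (by positivity), Real.rpow_neg (by positivity)]
    have : 1 / q * ((2:ℕ):ℝ) = 2 / q := by push_cast; ring
    rw [this, div_eq_mul_inv]
  simp only [h1]
  rw [av_const_mul]
  have h2 : av (fun j : Fin N' => ((j:ℝ) + 1) ^ (-(2 / q))) ≤ (N':ℝ)⁻¹ * Zq q := by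
    simp only [av, Fintype.card_fin]
    refine mul_le_mul_of_nonneg_left ?_ (by positivity)
    rw [Fin.sum_univ_eq_sum_range (fun j : ℕ => ((j:ℝ) + 1) ^ (-(2 / q))) N']
    exact (Zq_summable hq hq2).sum_le_tsum _ (fun j _ => Real.rpow_nonneg (by positivity) _)
  calc (N':ℝ) ^ (2 / q) * av (fun j : Fin N' => ((j:ℝ) + 1) ^ (-(2 / q)))
      ≤ (N':ℝ) ^ (2 / q) * ((N':ℝ)⁻¹ * Zq q) :=
        mul_le_mul_of_nonneg_left h2 (Real.rpow_nonneg hN'.le _)
    _ = _ := by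
        rw [← mul_assoc, Real.rpow_sub_one hN'.ne']
        ring

lemma wt_le {q : ℝ} (hq : 1 ≤ q) {N' : ℕ} [NeZero N'] (j : Fin N') : wt N' q j ≤ N' := by
  have hN' : (1:ℝ) ≤ N' := by exact_mod_cast Nat.pos_of_ne_zero (NeZero.ne N')
  have h1 : (N':ℝ) / ((j:ℝ) + 1) ≤ N' := div_le_self (by linarith) (by
    have : (0:ℝ) ≤ (j:ℝ) := Nat.cast_nonneg _
    linarith)
  calc wt N' q j ≤ (N':ℝ) ^ (1 / q) := Real.rpow_le_rpow (by positivity) h1 (by positivity)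
    _ ≤ (N':ℝ) ^ (1:ℝ) := Real.rpow_le_rpow_of_exponent_le hN' (by
        rw [div_le_one (by linarith)]; exact hq)
    _ = N' := Real.rpow_one _

/-- The diagonal bound with heavy-tailed weights. -/
lemma diag6 {ρ : (S → ℝ) → ℝ≥0∞} (hρ : FN ρ) {q : ℝ} (hq1 : 1 ≤ q) (hq2 : q < 2)
    {ev : S → (X →ₗ[𝕜] Y)} {c C : ℝ} (he : Emb ρ ev c C)
    {N K N' : ℕ} [NeZero N'] (hN' : N ≤ N') (y : Fin K → X) {I : Type*} [Fintype I] [Nonempty I]
    (π : I → Fin K) (β : I → ℝ) (hβ0 : ∀ i, 0 ≤ β i) (hβ : ∀ i, β i * ‖y (π i)‖ ≤ 1)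
    {βm : ℝ} (hβm : ∀ i, β i ≤ βm)
    {m : ℕ} (w : Fin m → ℝ) (v : Fin N → Fin K → Fin m → X) (hw : ∀ θ, 0 ≤ w θ) {b δ : ℝ}
    (hb : 0 ≤ b) (hδ : 0 ≤ δ) (hδ1 : δ * (N * (βm * N')) ≤ 1)
    (hv : ∀ α : Fin N → Fin K → 𝕜, ∑ θ, w θ * ‖∑ n, ∑ k, α n k • v n k θ‖
          ≤ b * Real.sqrt (∑ n, ‖∑ k, α n k • y k‖ ^ 2) + δ * ∑ n, ∑ k, ‖α n k‖) :
    ENNReal.ofReal ((Fintype.card (Fin N → I × Fin N') : ℝ)⁻¹) * ∑ κ : Fin N → I × Fin N',
      ∑ θ, ENNReal.ofReal (w θ) * ρ (fun s => av (fun e : Fin N → Bool =>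
        ‖ev s (∑ n, sg 𝕜 (e n) • (((β (κ n).1 * wt N' q (κ n).2 : ℝ) : 𝕜)
          • v n (π (κ n).1) θ))‖))
      ≤ ENNReal.ofReal (C * (b * Real.sqrt (Zq q) + 1) * (N':ℝ) ^ (1 / q)) := by
  classical
  have hq0 : 0 < q := by linarith
  have hC := he.hC
  have hN'pos : (0:ℝ) < N' := by exact_mod_cast Nat.pos_of_ne_zero (NeZero.ne N')
  have hN'1 : (1:ℝ) ≤ N' := by exact_mod_cast Nat.pos_of_ne_zero (NeZero.ne N')
  have hcard : (0:ℝ) < Fintype.card (Fin N → I × Fin N') := by exact_mod_cast Fintype.card_pos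
  -- bound for one choice
  have h1 : ∀ κ : Fin N → I × Fin N', ∑ θ, ENNReal.ofReal (w θ) * ρ (fun s =>
      av (fun e : Fin N → Bool => ‖ev s (∑ n, sg 𝕜 (e n)
        • (((β (κ n).1 * wt N' q (κ n).2 : ℝ) : 𝕜) • v n (π (κ n).1) θ))‖))
      ≤ ENNReal.ofReal (C * (b * Real.sqrt (∑ n, wt N' q (κ n).2 ^ 2) + 1)) := by
    intro κ
    have hone : ∀ e : Fin N → Bool, ∑ θ, w θ * ‖∑ n, sg 𝕜 (e n)
        • (((β (κ n).1 * wt N' q (κ n).2 : ℝ) : 𝕜) • v n (π (κ n).1) θ)‖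
        ≤ b * Real.sqrt (∑ n, wt N' q (κ n).2 ^ 2) + 1 := by
      intro e
      have h2 := hv (fun n k => if k = π (κ n).1 then
        sg 𝕜 (e n) * ((β (κ n).1 * wt N' q (κ n).2 : ℝ) : 𝕜) else 0)
      simp only [ite_smul, zero_smul, Finset.sum_ite_eq', Finset.mem_univ, if_true] at h2
      simp only [smul_smul]
      refine h2.trans (add_le_add ?_ ?_)
      · refine mul_le_mul_of_nonneg_left (Real.sqrt_le_sqrt (Finset.sum_le_sum (fun n _ => ?_))) hb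
        refine pow_le_pow_left₀ (norm_nonneg _) ?_ 2
        rw [norm_smul, norm_mul, norm_sg, one_mul, RCLike.norm_ofReal,
          abs_of_nonneg (mul_nonneg (hβ0 _) (wt_pos hq0 _).le)]
        calc β (κ n).1 * wt N' q (κ n).2 * ‖y (π (κ n).1)‖
            = (β (κ n).1 * ‖y (π (κ n).1)‖) * wt N' q (κ n).2 := by ring
          _ ≤ 1 * wt N' q (κ n).2 := mul_le_mul_of_nonneg_right (hβ _) (wt_pos hq0 _).le
          _ = wt N' q (κ n).2 := one_mul _
      · refine le_trans (mul_le_mul_of_nonneg_left ?_ hδ) hδ1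
        have h3 : ∀ n : Fin N, ∑ k : Fin K, ‖(if k = π (κ n).1 then
            sg 𝕜 (e n) * ((β (κ n).1 * wt N' q (κ n).2 : ℝ) : 𝕜) else 0)‖ ≤ βm * N' := by
          intro n
          have e1 : ∀ k : Fin K, ‖(if k = π (κ n).1 then
            sg 𝕜 (e n) * ((β (κ n).1 * wt N' q (κ n).2 : ℝ) : 𝕜) else 0)‖
            = if k = π (κ n).1 then β (κ n).1 * wt N' q (κ n).2 else 0 := by
            intro k
            split_ifs
            · rw [norm_mul, norm_sg, one_mul, RCLike.norm_ofReal,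
                abs_of_nonneg (mul_nonneg (hβ0 _) (wt_pos hq0 _).le)]
            · exact norm_zero
          simp only [e1, Finset.sum_ite_eq', Finset.mem_univ, if_true]
          exact mul_le_mul (hβm _) (wt_le hq1 _) (wt_pos hq0 _).le ((hβ0 _).trans (hβm (κ n).1))
        calc _ ≤ ∑ n : Fin N, βm * N' := Finset.sum_le_sum (fun n _ => h3 n)
          _ = N * (βm * N') := by simp
    have h2 : ∀ θ, ρ (fun s => av (fun e : Fin N → Bool => ‖ev s (∑ n, sg 𝕜 (e n)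
        • (((β (κ n).1 * wt N' q (κ n).2 : ℝ) : 𝕜) • v n (π (κ n).1) θ))‖))
        ≤ ENNReal.ofReal (C * av (fun e : Fin N → Bool => ‖∑ n, sg 𝕜 (e n)
        • (((β (κ n).1 * wt N' q (κ n).2 : ℝ) : 𝕜) • v n (π (κ n).1) θ)‖)) := by
      intro θ
      have h3 := hρ.av (fun (e : Fin N → Bool) s => ‖ev s (∑ n, sg 𝕜 (e n)
        • (((β (κ n).1 * wt N' q (κ n).2 : ℝ) : 𝕜) • v n (π (κ n).1) θ))‖) (fun e => he.meas _)
        (fun _ _ => norm_nonneg _)
      refine h3.trans ((mul_le_mul_right (Finset.sum_le_sum (fun e _ => he.up _)) _).trans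
        (le_of_eq ?_))
      rw [← ENNReal.ofReal_sum_of_nonneg (fun e _ => mul_nonneg hC (norm_nonneg _)),
        ← ENNReal.ofReal_mul (by positivity)]
      congr 1
      simp only [av]
      rw [← Finset.mul_sum]
      ring
    calc _ ≤ ∑ θ, ENNReal.ofReal (w θ) * ENNReal.ofReal (C * av (fun e : Fin N → Bool =>
          ‖∑ n, sg 𝕜 (e n) • (((β (κ n).1 * wt N' q (κ n).2 : ℝ) : 𝕜)
            • v n (π (κ n).1) θ)‖)) := Finset.sum_le_sum (fun θ _ => by gcongr; exact h2 θ)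
      _ = ENNReal.ofReal (C * av (fun e : Fin N → Bool => ∑ θ, w θ *
          ‖∑ n, sg 𝕜 (e n) • (((β (κ n).1 * wt N' q (κ n).2 : ℝ) : 𝕜)
            • v n (π (κ n).1) θ)‖)) := by
          have : ∀ θ, ENNReal.ofReal (w θ) * ENNReal.ofReal (C * av (fun e : Fin N → Bool =>
            ‖∑ n, sg 𝕜 (e n) • (((β (κ n).1 * wt N' q (κ n).2 : ℝ) : 𝕜)
            • v n (π (κ n).1) θ)‖)) = ENNReal.ofReal (w θ * (C * av (fun e : Fin N → Bool =>
            ‖∑ n, sg 𝕜 (e n) • (((β (κ n).1 * wt N' q (κ n).2 : ℝ) : 𝕜)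
            • v n (π (κ n).1) θ)‖))) := fun θ => (ENNReal.ofReal_mul (hw θ)).symm
          simp only [this]
          rw [← ENNReal.ofReal_sum_of_nonneg]
          · congr 1
            rw [av_sum, Finset.mul_sum]
            refine Finset.sum_congr rfl (fun θ _ => ?_)
            rw [av_const_mul]; ring
          · intro θ _
            exact mul_nonneg (hw θ) (mul_nonneg hC (av_nonneg (fun _ => norm_nonneg _)))
      _ ≤ _ := by
          refine ENNReal.ofReal_le_ofReal (mul_le_mul_of_nonneg_left ?_ hC)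
          refine (av_mono hone).trans (le_of_eq ?_)
          exact av_const _
  -- average over the choices
  refine (mul_le_mul_right (Finset.sum_le_sum (fun κ _ => h1 κ)) _).trans ?_
  rw [← ENNReal.ofReal_sum_of_nonneg (fun κ _ => by positivity), ← ENNReal.ofReal_mul (by positivity)]
  refine ENNReal.ofReal_le_ofReal ?_
  have e1 : (Fintype.card (Fin N → I × Fin N') : ℝ)⁻¹ * ∑ κ : Fin N → I × Fin N',
      C * (b * Real.sqrt (∑ n, wt N' q (κ n).2 ^ 2) + 1)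
      = C * (b * av (fun κ : Fin N → I × Fin N' => Real.sqrt (∑ n, wt N' q (κ n).2 ^ 2)) + 1) := by
    have : av (fun κ : Fin N → I × Fin N' => C * (b * Real.sqrt (∑ n, wt N' q (κ n).2 ^ 2) + 1))
        = C * (b * av (fun κ : Fin N → I × Fin N' => Real.sqrt (∑ n, wt N' q (κ n).2 ^ 2)) + 1) := by
      rw [av_const_mul, av_add, av_const_mul, av_const]
    exact this
  rw [e1, mul_assoc]
  refine mul_le_mul_of_nonneg_left ?_ hC
  have h3 : av (fun κ : Fin N → I × Fin N' => Real.sqrt (∑ n, wt N' q (κ n).2 ^ 2))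
      ≤ Real.sqrt (Zq q) * (N':ℝ) ^ (1 / q) := by
    refine (av_sqrt_le _ (fun κ => Finset.sum_nonneg (fun n _ => sq_nonneg _))).trans ?_
    have e2 : av (fun κ : Fin N → I × Fin N' => ∑ n, wt N' q (κ n).2 ^ 2)
        = N * av (fun j : Fin N' => wt N' q j ^ 2) := by
      rw [av_sum_coord (fun (_ : Fin N) (x : I × Fin N') => wt N' q x.2 ^ 2)]
      have : av (fun x : I × Fin N' => wt N' q x.2 ^ 2) = av (fun j : Fin N' => wt N' q j ^ 2) := by
        rw [av_prodType (fun (_ : I) (j : Fin N') => wt N' q j ^ 2), av_const]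
      rw [this]
      simp
    rw [e2]
    have h4 : (N:ℝ) * av (fun j : Fin N' => wt N' q j ^ 2)
        ≤ Zq q * ((N':ℝ) ^ (1 / q)) ^ 2 := by
      have h5 := wt_sq_av (N' := N') hq0 hq2
      have h6 : ((N':ℝ) ^ (1 / q)) ^ 2 = N' * (N':ℝ) ^ (2 / q - 1) := by
        rw [← Real.rpow_natCast, ← Real.rpow_mul hN'pos.le, Real.rpow_sub_one hN'pos.ne']
        have : 1 / q * ((2:ℕ):ℝ) = 2 / q := by push_cast; ring
        rw [this]
        field_simp
      rw [h6]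
      have hNN : (N:ℝ) ≤ N' := by exact_mod_cast hN'
      calc (N:ℝ) * av (fun j : Fin N' => wt N' q j ^ 2)
          ≤ N' * ((N':ℝ) ^ (2 / q - 1) * Zq q) :=
            mul_le_mul hNN h5 (av_nonneg (fun _ => sq_nonneg _)) hN'pos.le
        _ = _ := by ring
    refine (Real.sqrt_le_sqrt h4).trans (le_of_eq ?_)
    rw [Real.sqrt_mul (Zq_nonneg q), Real.sqrt_sq (Real.rpow_nonneg hN'pos.le _)]
  have h7 : 1 ≤ (N':ℝ) ^ (1 / q) := Real.one_le_rpow hN'1 (by positivity)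
  have h8 := mul_le_mul_of_nonneg_left h3 hb
  nlinarith

end Pool.Agent.Lib.MP_cdd7b4_an.H80
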