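import Pool.Agent.Lib.MP_cdd7b4_an.H80.FN

set_option autoImplicit false
set_option linter.unusedSectionVars false

namespace Pool.Agent.Lib.MP_cdd7b4_an.H80

open MeasureTheory
open scoped BigOperators ENNReal

/-- Pointwise estimate for the small rows. -/
lemma pl5 {N K : ℕ} (hK : 0 < K) (u : Fin N → Fin K → ℝ) (hu : ∀ n k, 0 ≤ u n k) {η ε : ℝ}
    (hε : 0 < ε) (hηε : K * η ≤ ε) (L : ℝ) (hL : 0 ≤ L)
    (hsmall : ∀ n, ∑ k, u n k ≤ η * L) :
    Real.sqrt (∑ n, ∑ k, u n k)
      ≤ 2 * Real.sqrt K * av (fun κ : Fin N → Fin K => Real.sqrt (∑ n, u n (κ n)))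
        + Real.sqrt ε * Real.sqrt L := by
  classical
  have : Nonempty (Fin K) := ⟨⟨0, hK⟩⟩
  have hK' : (0:ℝ) < K := by exact_mod_cast hK
  set α2 := ∑ n, ∑ k, u n k with hα
  have hα0 : 0 ≤ α2 := Finset.sum_nonneg (fun n _ => Finset.sum_nonneg (fun k _ => hu n k))
  have hav0 : 0 ≤ av (fun κ : Fin N → Fin K => Real.sqrt (∑ n, u n (κ n))) :=
    av_nonneg (fun _ => Real.sqrt_nonneg _)
  by_cases hcase : α2 ≤ ε * L
  · have h1 : Real.sqrt α2 ≤ Real.sqrt ε * Real.sqrt L := by
      rw [← Real.sqrt_mul hε.le]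
      exact Real.sqrt_le_sqrt hcase
    have : 0 ≤ 2 * Real.sqrt K * av (fun κ : Fin N → Fin K => Real.sqrt (∑ n, u n (κ n))) := by
      positivity
    linarith
  push Not at hcase
  have hαpos : 0 < α2 := lt_of_le_of_lt (by positivity) hcase
  set m := α2 / K with hm
  have hmpos : 0 < m := by positivity
  have hrow : ∀ n, av (u n) = (∑ k, u n k) / K := by
    intro n
    simp only [av, Fintype.card_fin]
    field_simp
  have hE1 : av (fun κ : Fin N → Fin K => ∑ n, u n (κ n)) = m := by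
    rw [av_sum_coord, Finset.sum_congr rfl (fun n _ => hrow n), ← Finset.sum_div]
  have hE2 : av (fun κ : Fin N → Fin K => (∑ n, u n (κ n)) ^ 2) ≤ 2 * m ^ 2 := by
    refine (av_sq_sum_le u).trans ?_
    have e1 : ∑ n, av (u n) = m := by
      rw [Finset.sum_congr rfl (fun n _ => hrow n), ← Finset.sum_div]
    rw [e1]
    have e2 : ∀ n, av (fun q => u n q ^ 2) ≤ (∑ k, u n k) / K * (η * L) := by
      intro n
      have h3 : ∑ k, u n k ^ 2 ≤ (∑ k, u n k) * (η * L) := by
        rw [Finset.sum_mul]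
        refine Finset.sum_le_sum (fun k _ => ?_)
        rw [sq]
        refine mul_le_mul_of_nonneg_left ?_ (hu n k)
        exact (Finset.single_le_sum (fun j _ => hu n j) (Finset.mem_univ k)).trans (hsmall n)
      simp only [av, Fintype.card_fin]
      calc (K:ℝ)⁻¹ * ∑ k, u n k ^ 2 ≤ (K:ℝ)⁻¹ * ((∑ k, u n k) * (η * L)) :=
            mul_le_mul_of_nonneg_left h3 (by positivity)
        _ = (∑ k, u n k) / K * (η * L) := by ring
    have e3 : ∑ n, av (fun q => u n q ^ 2) ≤ m * (η * L) := by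
      refine (Finset.sum_le_sum (fun n _ => e2 n)).trans (le_of_eq ?_)
      rw [← Finset.sum_mul, ← Finset.sum_div]
    have e4 : η * L ≤ m := by
      rw [hm, le_div_iff₀ hK']
      calc η * L * K = (K * η) * L := by ring
        _ ≤ ε * L := mul_le_mul_of_nonneg_right hηε hL
        _ ≤ α2 := hcase.le
    have e5 : m * (η * L) ≤ m * m := mul_le_mul_of_nonneg_left e4 hmpos.le
    nlinarith
  have hpt : ∀ κ : Fin N → Fin K, (3 / (2 * Real.sqrt m)) * (∑ n, u n (κ n))
      - (1 / (2 * m * Real.sqrt m)) * (∑ n, u n (κ n)) ^ 2 ≤ Real.sqrt (∑ n, u n (κ n)) := by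
    intro κ
    have hW : 0 ≤ ∑ n, u n (κ n) := Finset.sum_nonneg (fun n _ => hu n _)
    have hs : 0 < Real.sqrt m := Real.sqrt_pos.2 hmpos
    have h1 := quart (Real.sqrt_nonneg (∑ n, u n (κ n))) hs
    have e1 : (Real.sqrt (∑ n, u n (κ n)) / Real.sqrt m) ^ 2 = (∑ n, u n (κ n)) / m := by
      rw [div_pow, Real.sq_sqrt hW, Real.sq_sqrt hmpos.le]
    have e2 : (Real.sqrt (∑ n, u n (κ n)) / Real.sqrt m) ^ 4 = ((∑ n, u n (κ n)) / m) ^ 2 := by
      rw [← e1]; ring
    rw [e1, e2] at h1
    refine le_trans (le_of_eq ?_) h1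
    have hms : m = Real.sqrt m * Real.sqrt m := (Real.mul_self_sqrt hmpos.le).symm
    set t := Real.sqrt m
    rw [hms]
    field_simp
  have h3 := av_mono hpt
  rw [av_sub, av_const_mul, av_const_mul, hE1] at h3
  have hs : 0 < Real.sqrt m := Real.sqrt_pos.2 hmpos
  have h4 : (1 / (2 * m * Real.sqrt m)) * av (fun κ : Fin N → Fin K => (∑ n, u n (κ n)) ^ 2)
      ≤ (1 / (2 * m * Real.sqrt m)) * (2 * m ^ 2) :=
    mul_le_mul_of_nonneg_left hE2 (by positivity)
  have hms : Real.sqrt m * Real.sqrt m = m := Real.mul_self_sqrt hmpos.le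
  have e6 : (1 / (2 * m * Real.sqrt m)) * (2 * m ^ 2) = Real.sqrt m := by
    have : (1 / (2 * m * Real.sqrt m)) * (2 * m ^ 2) = m / Real.sqrt m := by
      field_simp
    rw [this, div_eq_iff hs.ne', hms]
  have e7 : (3 / (2 * Real.sqrt m)) * m = 3 / 2 * Real.sqrt m := by
    nth_rewrite 2 [← hms]
    field_simp
  rw [e6] at h4
  rw [e7] at h3
  have h5 : Real.sqrt m / 2 ≤ av (fun κ : Fin N → Fin K => Real.sqrt (∑ n, u n (κ n))) := by
    linarith
  have h6 : Real.sqrt α2 = Real.sqrt K * Real.sqrt m := by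
    rw [← Real.sqrt_mul hK'.le, hm]
    congr 1
    field_simp
  have h7 : 0 ≤ Real.sqrt ε * Real.sqrt L := by positivity
  have h8 : 0 ≤ Real.sqrt (K:ℝ) := Real.sqrt_nonneg _
  rw [h6]
  nlinarith

variable {S : Type*} [MeasurableSpace S]

theorem core5 {ρ : (S → ℝ) → ℝ≥0∞} (hρ : FN ρ) {p M : ℝ} (hp1 : 1 ≤ p) (hp2 : p < 2)
    (hcp : LConc ρ p M) (hc2 : LConc ρ 2 M) {N K : ℕ} (hK : 0 < K)
    (a : Fin N → Fin K → S → ℝ) (ha : ∀ n k, Measurable (a n k)) {η ε : ℝ} (hη : 0 < η)
    (hε : 0 < ε) (hηε : K * η ≤ ε) :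
    ∑ n, ρ (fun s => Real.sqrt (∑ k, a n k s ^ 2))
      ≤ ENNReal.ofReal (M * (N:ℝ) ^ (1 - 1 / (2:ℝ))) *
          (ENNReal.ofReal (2 * Real.sqrt K) *
            (ENNReal.ofReal ((Fintype.card (Fin N → Fin K) : ℝ)⁻¹) *
              ∑ κ : Fin N → Fin K, ρ (fun s => Real.sqrt (∑ n, a n (κ n) s ^ 2)))
            + ENNReal.ofReal (Real.sqrt ε) * ρ (fun s => Real.sqrt (∑ n, ∑ k, a n k s ^ 2)))
        + ENNReal.ofReal (M * (N:ℝ) ^ (1 - 1 / p)) *
          (ENNReal.ofReal (η ^ (1 / 2 - 1 / p)) * ρ (fun s => Real.sqrt (∑ n, ∑ k, a n k s ^ 2))) := by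
  classical
  have hp0 : 0 < p := by linarith
  set m : Fin N → S → ℝ := fun n s => ∑ k, a n k s ^ 2 with hm
  set L : S → ℝ := fun s => ∑ n, m n s with hL
  have hmm : ∀ n, Measurable (m n) := fun n =>
    Finset.measurable_sum _ (fun k _ => (ha n k).pow_const 2)
  have hLm : Measurable L := Finset.measurable_sum _ (fun n _ => hmm n)
  have hm0 : ∀ n s, 0 ≤ m n s := fun n s => Finset.sum_nonneg (fun k _ => sq_nonneg _)
  have hL0 : ∀ s, 0 ≤ L s := fun s => Finset.sum_nonneg (fun n _ => hm0 n s)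
  have hset : ∀ n, MeasurableSet {s | m n s ≤ η * L s} := fun n =>
    measurableSet_le (hmm n) (hLm.const_mul _)
  set R1 : Fin N → S → ℝ := fun n s => if m n s ≤ η * L s then Real.sqrt (m n s) else 0 with hR1
  set R2 : Fin N → S → ℝ := fun n s => if m n s ≤ η * L s then 0 else Real.sqrt (m n s) with hR2
  have hR1m : ∀ n, Measurable (R1 n) := fun n =>
    Measurable.ite (hset n) (hmm n).sqrt measurable_const
  have hR2m : ∀ n, Measurable (R2 n) := fun n =>
    Measurable.ite (hset n) measurable_const (hmm n).sqrt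
  have hR10 : ∀ n s, 0 ≤ R1 n s := by
    intro n s; simp only [hR1]; split_ifs; exacts [Real.sqrt_nonneg _, le_rfl]
  have hR20 : ∀ n s, 0 ≤ R2 n s := by
    intro n s; simp only [hR2]; split_ifs; exacts [le_rfl, Real.sqrt_nonneg _]
  have hΛm : Measurable (fun s => Real.sqrt (L s)) := hLm.sqrt
  have hΛ0 : ∀ s, 0 ≤ Real.sqrt (L s) := fun s => Real.sqrt_nonneg _
  -- splitting
  have hsplit : ∑ n, ρ (fun s => Real.sqrt (m n s)) ≤ ∑ n, ρ (R1 n) + ∑ n, ρ (R2 n) := by
    rw [← Finset.sum_add_distrib]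
    refine Finset.sum_le_sum (fun n _ => ?_)
    refine le_trans (le_of_eq ?_) (hρ.add (R1 n) (R2 n) (hR1m n) (hR2m n) (hR10 n) (hR20 n))
    congr 1
    funext s
    simp only [hR1, hR2]
    split_ifs <;> simp
  refine hsplit.trans (add_le_add ?_ ?_)
  · -- the small rows
    refine (hc2 N R1 hR1m hR10).trans ?_
    gcongr
    have hdm : ∀ κ : Fin N → Fin K, Measurable (fun s => Real.sqrt (∑ n, a n (κ n) s ^ 2)) :=
      fun κ => (Finset.measurable_sum _ (fun n _ => (ha n _).pow_const 2)).sqrt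
    have hd0 : ∀ (κ : Fin N → Fin K) s, 0 ≤ Real.sqrt (∑ n, a n (κ n) s ^ 2) :=
      fun κ s => Real.sqrt_nonneg _
    have hDm : Measurable (fun s => av (fun κ : Fin N → Fin K =>
        Real.sqrt (∑ n, a n (κ n) s ^ 2))) :=
      (Finset.measurable_sum _ (fun κ _ => hdm κ)).const_mul _
    have hD0 : ∀ s, 0 ≤ av (fun κ : Fin N → Fin K => Real.sqrt (∑ n, a n (κ n) s ^ 2)) :=
      fun s => av_nonneg (fun κ => hd0 κ s)
    have h1 : ρ (fun s => (∑ n, R1 n s ^ (2:ℝ)) ^ (1 / (2:ℝ)))
        ≤ ρ (fun s => 2 * Real.sqrt K * av (fun κ : Fin N → Fin K =>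
            Real.sqrt (∑ n, a n (κ n) s ^ 2)) + Real.sqrt ε * Real.sqrt (L s)) := by
      refine hρ.mono _ _ ?_ ((hDm.const_mul _).add (hΛm.const_mul _)) ?_ ?_
      · exact (Finset.measurable_sum _ (fun n _ => (hR1m n).pow_const _)).pow_const _
      · exact fun s => Real.rpow_nonneg (Finset.sum_nonneg
          (fun n _ => Real.rpow_nonneg (hR10 n s) _)) _
      · intro s
        set u : Fin N → Fin K → ℝ := fun n k => if m n s ≤ η * L s then a n k s ^ 2 else 0 with hu
        have hu0 : ∀ n k, 0 ≤ u n k := by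
          intro n k; simp only [hu]; split_ifs; exacts [sq_nonneg _, le_rfl]
        have hsm : ∀ n, ∑ k, u n k ≤ η * L s := by
          intro n
          simp only [hu]
          split_ifs with h
          · exact h
          · simp only [Finset.sum_const_zero]
            have := hL0 s
            positivity
        have h2 := pl5 hK u hu0 hε hηε (L s) (hL0 s) hsm
        have e1 : (∑ n, R1 n s ^ (2:ℝ)) ^ (1 / (2:ℝ)) = Real.sqrt (∑ n, ∑ k, u n k) := by
          rw [Real.sqrt_eq_rpow]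
          congr 1
          refine Finset.sum_congr rfl (fun n _ => ?_)
          simp only [hR1, hu]
          split_ifs with h
          · rw [Real.rpow_two, Real.sq_sqrt (hm0 n s)]
          · simp
        rw [e1]
        refine h2.trans ?_
        gcongr
        refine av_mono (fun κ => Real.sqrt_le_sqrt (Finset.sum_le_sum (fun n _ => ?_)))
        simp only [hu]
        split_ifs; exacts [le_rfl, sq_nonneg _]
    refine h1.trans ((hρ.add _ _ (hDm.const_mul _) (hΛm.const_mul _)
      (fun s => mul_nonneg (by positivity) (hD0 s))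
      (fun s => mul_nonneg (Real.sqrt_nonneg _) (hΛ0 s))).trans ?_)
    refine add_le_add ?_ ?_
    · rw [hρ.smul _ _ (by positivity) hDm hD0]
      gcongr
      exact hρ.av (fun (κ : Fin N → Fin K) s => Real.sqrt (∑ n, a n (κ n) s ^ 2)) hdm hd0
    · rw [hρ.smul _ _ (Real.sqrt_nonneg _) hΛm hΛ0]
  · -- the big rows
    refine (hcp N R2 hR2m hR20).trans ?_
    gcongr
    rw [← hρ.smul _ _ (Real.rpow_nonneg hη.le _) hΛm hΛ0]
    refine hρ.mono _ _ ?_ (hΛm.const_mul _) ?_ ?_
    · exact (Finset.measurable_sum _ (fun n _ => (hR2m n).pow_const _)).pow_const _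
    · exact fun s => Real.rpow_nonneg (Finset.sum_nonneg
        (fun n _ => Real.rpow_nonneg (hR20 n s) _)) _
    · intro s
      rcases (hL0 s).eq_or_lt with hz | hz
      · have hmz : ∀ n, m n s = 0 := by
          intro n
          have := Finset.single_le_sum (f := fun n => m n s) (fun n _ => hm0 n s)
            (Finset.mem_univ n)
          have h2 : m n s ≤ L s := this
          rw [← hz] at h2
          exact le_antisymm h2 (hm0 n s)
        have : ∀ n, R2 n s = 0 := by
          intro n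
          simp only [hR2, hmz, ← hz]
          simp
        simp only [this, ← hz]
        rw [Real.zero_rpow hp0.ne', Finset.sum_const_zero, Real.zero_rpow (by positivity)]
        simp
      · have hηL : 0 < η * L s := by positivity
        have h1 : ∀ n, R2 n s ^ p ≤ m n s * (η * L s) ^ ((p - 2) / 2) := by
          intro n
          simp only [hR2]
          split_ifs with h
          · rw [Real.zero_rpow hp0.ne']
            exact mul_nonneg (hm0 n s) (Real.rpow_nonneg hηL.le _)
          · push Not at h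
            have hmp : 0 < m n s := hηL.trans h
            have e1 : Real.sqrt (m n s) ^ p = m n s * m n s ^ ((p - 2) / 2) := by
              rw [Real.sqrt_eq_rpow, ← Real.rpow_mul hmp.le]
              nth_rewrite 2 [← Real.rpow_one (m n s)]
              rw [← Real.rpow_add hmp]
              congr 1
              ring
            rw [e1]
            refine mul_le_mul_of_nonneg_left ?_ hmp.le
            exact Real.rpow_le_rpow_of_nonpos hηL h.le (by linarith)
        have h2 : ∑ n, R2 n s ^ p ≤ L s * (η * L s) ^ ((p - 2) / 2) := by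
          refine (Finset.sum_le_sum (fun n _ => h1 n)).trans (le_of_eq ?_)
          rw [← Finset.sum_mul]
        have h3 := Real.rpow_le_rpow (Finset.sum_nonneg
          (fun n _ => Real.rpow_nonneg (hR20 n s) _)) h2 (by positivity : (0:ℝ) ≤ 1 / p)
        refine h3.trans (le_of_eq ?_)
        rw [Real.mul_rpow hη.le hz.le, Real.mul_rpow hz.le (mul_nonneg (Real.rpow_nonneg hη.le _)
          (Real.rpow_nonneg hz.le _)), Real.mul_rpow (Real.rpow_nonneg hη.le _)
          (Real.rpow_nonneg hz.le _), ← Real.rpow_mul hη.le, ← Real.rpow_mul hz.le,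
          Real.sqrt_eq_rpow]
        have e2 : (p - 2) / 2 * (1 / p) = 1 / 2 - 1 / p := by field_simp
        rw [e2, mul_left_comm, ← Real.rpow_add hz]
        congr 2
        ring

end Pool.Agent.Lib.MP_cdd7b4_an.H80
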