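import Pool.Agent.Lib.MP_cdd7b4_an.H80.Point6

set_option autoImplicit false
set_option linter.unusedSectionVars false

namespace Pool.Agent.Lib.MP_cdd7b4_an.H80

open MeasureTheory
open scoped BigOperators ENNReal

variable {S : Type*} [MeasurableSpace S] {N : ℕ} {I : Type*} [Fintype I] [Nonempty I] {N' : ℕ}
  [NeZero N']

lemma lq_le_l1 {ι : Type*} [Fintype ι] {q : ℝ} (hq : 1 ≤ q) (x : ι → ℝ) (hx : ∀ i, 0 ≤ x i) :
    (∑ i, x i ^ q) ^ (1 / q) ≤ ∑ i, x i := by
  classical
  have hq0 : 0 < q := by linarith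
  set s := ∑ i, x i with hs
  have hs0 : 0 ≤ s := Finset.sum_nonneg (fun i _ => hx i)
  have h1 : ∑ i, x i ^ q ≤ s ^ q := by
    rcases hs0.eq_or_lt with h | h
    · have hz : ∀ i, x i = 0 := by
        intro i
        have h3 : ∑ i, x i = 0 := by rw [← hs]; exact h.symm
        exact (Finset.sum_eq_zero_iff_of_nonneg (fun i _ => hx i)).1 h3 i (Finset.mem_univ i)
      simp [hz, Real.zero_rpow hq0.ne', ← h]
    · have h2 : ∀ i, x i ^ q ≤ x i * s ^ (q - 1) := by
        intro i
        rcases (hx i).eq_or_lt with h3 | h3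
        · rw [← h3, Real.zero_rpow hq0.ne', zero_mul]
        · have e : x i ^ q = x i * x i ^ (q - 1) := by
            nth_rewrite 2 [← Real.rpow_one (x i)]
            rw [← Real.rpow_add h3]
            congr 1
            ring
          rw [e]
          refine mul_le_mul_of_nonneg_left ?_ h3.le
          exact Real.rpow_le_rpow h3.le (Finset.single_le_sum (fun j _ => hx j)
            (Finset.mem_univ i)) (by linarith)
      refine (Finset.sum_le_sum (fun i _ => h2 i)).trans (le_of_eq ?_)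
      rw [← Finset.sum_mul, ← hs]
      nth_rewrite 1 [← Real.rpow_one s]
      rw [← Real.rpow_add h]
      congr 1
      ring
  have h4 := Real.rpow_le_rpow (Finset.sum_nonneg (fun i _ => Real.rpow_nonneg (hx i) _)) h1
    (by positivity : (0:ℝ) ≤ 1 / q)
  rwa [← Real.rpow_mul hs0, mul_one_div_cancel hq0.ne', Real.rpow_one] at h4

theorem core6 {ρ : (S → ℝ) → ℝ≥0∞} (hρ : FN ρ) {p q M : ℝ} (hp1 : 1 ≤ p) (hq : 1 ≤ q)
    (hcp : LConc ρ p M) (hcq : LConc ρ q M) (hN : 4 * N ≤ N')
    (a : Fin N → I → S → ℝ) (ha : ∀ n i, Measurable (a n i)) (h0 : ∀ n i s, 0 ≤ a n i s)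
    (G : (Fin N → I × Fin N') → S → ℝ) (hGm : ∀ κ, Measurable (G κ)) (hG0 : ∀ κ s, 0 ≤ G κ s)
    (hG : ∀ κ n s, wt N' q (κ n).2 * a n (κ n).1 s ≤ G κ s) :
    ∑ n, ρ (fun s => (∑ i, a n i s ^ q) ^ (1 / q))
      ≤ (ENNReal.ofReal (M * (N:ℝ) ^ (1 - 1 / q)) *
            ENNReal.ofReal ((Fintype.card I : ℝ) ^ (1 / q) * 4)
          + ENNReal.ofReal (M * (N:ℝ) ^ (1 - 1 / p)) * ENNReal.ofReal (2 * Fintype.card I)) *
        (ENNReal.ofReal ((Fintype.card (Fin N → I × Fin N') : ℝ)⁻¹) * ∑ κ, ρ (G κ)) := by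
  classical
  have hq0 : 0 < q := by linarith
  have hp0 : 0 < p := by linarith
  have hK : (0:ℝ) < Fintype.card I := by exact_mod_cast Fintype.card_pos
  set D : S → ℝ := fun s => av (fun κ => G κ s) with hD
  have hDm : Measurable D := (Finset.measurable_sum _ (fun κ _ => hGm κ)).const_mul _
  have hD0 : ∀ s, 0 ≤ D s := fun s => av_nonneg (fun κ => hG0 κ s)
  have hset : ∀ n i, MeasurableSet {s | a n i s ≤ 4 * D s} := fun n i =>
    measurableSet_le (ha n i) (hDm.const_mul _)
  set r1 : Fin N → I → S → ℝ := fun n i s => if a n i s ≤ 4 * D s then a n i s else 0 with hr1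
  set r2 : Fin N → I → S → ℝ := fun n i s => if a n i s ≤ 4 * D s then 0 else a n i s with hr2
  have hr1m : ∀ n i, Measurable (r1 n i) := fun n i =>
    Measurable.ite (hset n i) (ha n i) measurable_const
  have hr2m : ∀ n i, Measurable (r2 n i) := fun n i =>
    Measurable.ite (hset n i) measurable_const (ha n i)
  have hr10 : ∀ n i s, 0 ≤ r1 n i s := by
    intro n i s; simp only [hr1]; split_ifs; exacts [h0 _ _ _, le_rfl]
  have hr20 : ∀ n i s, 0 ≤ r2 n i s := by
    intro n i s; simp only [hr2]; split_ifs; exacts [le_rfl, h0 _ _ _]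
  set R1 : Fin N → S → ℝ := fun n s => (∑ i, r1 n i s ^ q) ^ (1 / q) with hR1
  set R2 : Fin N → S → ℝ := fun n s => ∑ i, r2 n i s with hR2
  have hR1m : ∀ n, Measurable (R1 n) := fun n =>
    (Finset.measurable_sum _ (fun i _ => (hr1m n i).pow_const _)).pow_const _
  have hR2m : ∀ n, Measurable (R2 n) := fun n => Finset.measurable_sum _ (fun i _ => hr2m n i)
  have hR10 : ∀ n s, 0 ≤ R1 n s := fun n s =>
    Real.rpow_nonneg (Finset.sum_nonneg (fun i _ => Real.rpow_nonneg (hr10 n i s) _)) _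
  have hR20 : ∀ n s, 0 ≤ R2 n s := fun n s => Finset.sum_nonneg (fun i _ => hr20 n i s)
  have hpl : ∀ s, _ := fun s => pl6 hq0 hN (fun n i => a n i s) (fun n i => h0 n i s)
    (fun κ => G κ s) (fun κ => hG0 κ s) (fun κ n => hG κ n s)
  have hsplit : ∑ n, ρ (fun s => (∑ i, a n i s ^ q) ^ (1 / q)) ≤ ∑ n, ρ (R1 n) + ∑ n, ρ (R2 n) := by
    rw [← Finset.sum_add_distrib]
    refine Finset.sum_le_sum (fun n _ => ?_)
    refine le_trans (hρ.mono _ (fun s => R1 n s + R2 n s) ?_ ((hR1m n).add (hR2m n)) ?_ ?_)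
      (hρ.add (R1 n) (R2 n) (hR1m n) (hR2m n) (hR10 n) (hR20 n))
    · exact (Finset.measurable_sum _ (fun i _ => (ha n i).pow_const _)).pow_const _
    · exact fun s => Real.rpow_nonneg
        (Finset.sum_nonneg (fun i _ => Real.rpow_nonneg (h0 n i s) _)) _
    · intro s
      have e1 : ∀ i, a n i s = r1 n i s + r2 n i s := by
        intro i; simp only [hr1, hr2]; split_ifs <;> simp
      have h1 := Real.Lp_add_le_of_nonneg (s := (Finset.univ : Finset I)) (p := q) hq
        (f := fun i => r1 n i s) (g := fun i => r2 n i s) (fun i _ => hr10 n i s)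
        (fun i _ => hr20 n i s)
      simp only [← e1] at h1
      refine h1.trans (add_le_add le_rfl ?_)
      exact lq_le_l1 hq _ (fun i => hr20 n i s)
  refine hsplit.trans ?_
  rw [add_mul]
  have hDρ : ρ D ≤ ENNReal.ofReal ((Fintype.card (Fin N → I × Fin N') : ℝ)⁻¹) * ∑ κ, ρ (G κ) :=
    hρ.av G hGm hG0
  refine add_le_add ?_ ?_
  · refine (hcq N R1 hR1m hR10).trans ?_
    rw [mul_assoc]
    gcongr
    refine le_trans ?_ (mul_le_mul_right hDρ _)
    rw [← hρ.smul _ _ (by positivity) hDm hD0]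
    refine hρ.mono _ _ ?_ (hDm.const_mul _) ?_ ?_
    · exact (Finset.measurable_sum _ (fun n _ => (hR1m n).pow_const _)).pow_const _
    · exact fun s => Real.rpow_nonneg
        (Finset.sum_nonneg (fun n _ => Real.rpow_nonneg (hR10 n s) _)) _
    · intro s
      have e1 : ∀ n, R1 n s ^ q = ∑ i, r1 n i s ^ q := by
        intro n
        simp only [hR1]
        rw [← Real.rpow_mul (Finset.sum_nonneg (fun i _ => Real.rpow_nonneg (hr10 n i s) _)),
          one_div_mul_cancel hq0.ne', Real.rpow_one]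
      simp only [e1]
      have h1 := (hpl s).1
      have h2 := Real.rpow_le_rpow (Finset.sum_nonneg (fun n _ => Finset.sum_nonneg
        (fun i _ => Real.rpow_nonneg (hr10 n i s) _))) h1 (by positivity : (0:ℝ) ≤ 1 / q)
      refine h2.trans (le_of_eq ?_)
      rw [Real.mul_rpow hK.le (Real.rpow_nonneg (by have := hD0 s; simp only [hD] at this; positivity) _),
        ← Real.rpow_mul (by have := hD0 s; simp only [hD] at this; positivity),
        mul_one_div_cancel hq0.ne', Real.rpow_one]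
      ring
  · refine (hcp N R2 hR2m hR20).trans ?_
    rw [mul_assoc]
    gcongr
    refine le_trans ?_ (mul_le_mul_right hDρ _)
    rw [← hρ.smul _ _ (by positivity) hDm hD0]
    refine hρ.mono _ _ ?_ (hDm.const_mul _) ?_ ?_
    · exact (Finset.measurable_sum _ (fun n _ => (hR2m n).pow_const _)).pow_const _
    · exact fun s => Real.rpow_nonneg
        (Finset.sum_nonneg (fun n _ => Real.rpow_nonneg (hR20 n s) _)) _
    · intro s
      refine (lq_le_l1 hp1 _ (fun n => hR20 n s)).trans ?_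
      exact (hpl s).2

end Pool.Agent.Lib.MP_cdd7b4_an.H80
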