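import Mathlib

set_option autoImplicit false

namespace Pool.Agent.Lib.MP_cdd7b4_an.H80

open MeasureTheory
open scoped BigOperators ENNReal

/-- A function norm on a measure space `(S, μ)` (used on nonnegative measurable functions):
monotone for the almost everywhere order, positively homogeneous, subadditive, with values in
`[0, ∞]`. The associated Banach function space consists of the measurable functions `f` whose
absolute value has finite norm. -/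
structure FunctionNorm {S : Type*} [MeasurableSpace S] (μ : Measure S) where
  /-- the norm of a nonnegative function -/
  toFun : (S → ℝ) → ℝ≥0∞
  mono' : ∀ f g : S → ℝ, Measurable f → Measurable g → (∀ᵐ s ∂μ, 0 ≤ f s ∧ f s ≤ g s) →
    toFun f ≤ toFun g
  smul' : ∀ (c : ℝ) (f : S → ℝ), 0 ≤ c → Measurable f → (∀ s, 0 ≤ f s) →
    toFun (fun s => c * f s) = ENNReal.ofReal c * toFun f
  add' : ∀ f g : S → ℝ, Measurable f → Measurable g → (∀ s, 0 ≤ f s) → (∀ s, 0 ≤ g s) →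
    toFun (fun s => f s + g s) ≤ toFun f + toFun g

/-- `p`-concavity of a function norm:
`(∑ ‖f i‖ ^ p) ^ (1/p) ≤ M ‖(∑ |f i| ^ p) ^ (1/p)‖` for all finite families. -/
def FunctionNorm.IsConcave {S : Type*} [MeasurableSpace S] {μ : Measure S} (ρ : FunctionNorm μ)
    (p : ℝ) : Prop :=
  ∃ M : ℝ, ∀ (n : ℕ) (f : Fin n → S → ℝ), (∀ i, Measurable (f i)) → (∀ i s, 0 ≤ f i s) →
    (∑ i, ρ.toFun (f i) ^ p) ^ (1 / p)
      ≤ ENNReal.ofReal M * ρ.toFun (fun s => (∑ i, f i s ^ p) ^ (1 / p))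

/-- `X` is isomorphic to a subspace of the space `E(Y)` of (classes of) measurable functions
`f : S → Y` for which `‖f‖` lies in the Banach function space `E` of `ρ`: there is a linear map
`J : X → L⁰(μ, Y)` with `c ‖x‖ ≤ ρ(‖J x‖) ≤ C ‖x‖`, `c > 0`. -/
def EmbedsIn (𝕜 : Type*) [RCLike 𝕜] {S : Type*} [MeasurableSpace S] {μ : Measure S}
    (ρ : FunctionNorm μ) (Y : Type*) [NormedAddCommGroup Y] [NormedSpace 𝕜 Y]
    (X : Type*) [NormedAddCommGroup X] [NormedSpace 𝕜 X] : Prop :=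
  ∃ J : X →ₗ[𝕜] (S →ₘ[μ] Y), ∃ c C : ℝ, 0 < c ∧ ∀ x : X,
    ENNReal.ofReal (c * ‖x‖) ≤ ρ.toFun (fun s => ‖(J x : S → Y) s‖) ∧
      ρ.toFun (fun s => ‖(J x : S → Y) s‖) ≤ ENNReal.ofReal (C * ‖x‖)

/-- Rademacher type `t`: `(E ‖∑ ± x i‖²)^(1/2) ≤ C (∑ ‖x i‖^t)^(1/t)`, the average being over all
choices of signs. -/
def HasType (X : Type*) [NormedAddCommGroup X] (t : ℝ) : Prop :=
  ∃ C : ℝ, ∀ (n : ℕ) (x : Fin n → X),
    Real.sqrt ((2 ^ n : ℝ)⁻¹ * ∑ e : Fin n → Bool, ‖∑ i, (if e i then x i else - x i)‖ ^ 2)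
      ≤ C * (∑ i, ‖x i‖ ^ t) ^ (1 / t)

/-- `W` contains the spaces `ℓ₂^N(X)`, `N = 1, 2, …`, uniformly: with constants `c > 0` and `b`
independent of `N` there are linear maps `T : X^N → W` with
`c (∑ ‖z n‖²)^(1/2) ≤ ‖T z‖ ≤ b (∑ ‖z n‖²)^(1/2)`. -/
def ContainsUniformly (𝕜 : Type*) [RCLike 𝕜] (W : Type*) [NormedAddCommGroup W]
    [NormedSpace 𝕜 W] (X : Type*) [NormedAddCommGroup X] [NormedSpace 𝕜 X] : Prop :=
  ∃ c b : ℝ, 0 < c ∧ ∀ N : ℕ, ∃ T : (Fin N → X) →ₗ[𝕜] W, ∀ z : Fin N → X,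
    c * Real.sqrt (∑ n, ‖z n‖ ^ 2) ≤ ‖T z‖ ∧ ‖T z‖ ≤ b * Real.sqrt (∑ n, ‖z n‖ ^ 2)

end Pool.Agent.Lib.MP_cdd7b4_an.H80
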