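import Pool.Agent.Lib.MP_cdd7b4_an.H80.Avg

set_option autoImplicit false
set_option linter.unusedSectionVars false

namespace Pool.Agent.Lib.MP_cdd7b4_an.H80

open scoped BigOperators

/-- The sign attached to a Boolean, as a scalar. -/
def sg (𝕜 : Type*) [RCLike 𝕜] (b : Bool) : 𝕜 := if b then 1 else -1

lemma sg_not (𝕜 : Type*) [RCLike 𝕜] (b : Bool) : sg 𝕜 (!b) = - sg 𝕜 b := by
  cases b <;> simp [sg]

lemma norm_sg (𝕜 : Type*) [RCLike 𝕜] (b : Bool) : ‖sg 𝕜 b‖ = 1 := by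
  cases b <;> simp [sg]

section
variable {𝕜 : Type*} [RCLike 𝕜] {ι : Type*} [Fintype ι] [DecidableEq ι]

/-- flip one sign. -/
def fl (i : ι) (e : ι → Bool) : ι → Bool := Function.update e i (!(e i))

lemma fl_inv (i : ι) : Function.Involutive (fl i) := by
  intro e
  funext j
  by_cases h : j = i
  · subst h; simp [fl]
  · simp [fl, h]

lemma fl_same (i : ι) (e : ι → Bool) : fl i e i = !(e i) := by simp [fl]
lemma fl_ne {i j : ι} (h : j ≠ i) (e : ι → Bool) : fl i e j = e j := by simp [fl, h]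

variable {E : Type*} [NormedAddCommGroup E] [NormedSpace 𝕜 E]

/-- partial Rademacher sum -/
def rs (𝕜 : Type*) [RCLike 𝕜] [NormedSpace 𝕜 E] (s : Finset ι) (a : ι → E) (e : ι → Bool) : E :=
  ∑ i ∈ s, sg 𝕜 (e i) • a i

lemma rs_fl {s : Finset ι} {i : ι} (hi : i ∉ s) (a : ι → E) (e : ι → Bool) :
    rs 𝕜 s a (fl i e) = rs 𝕜 s a e := by
  refine Finset.sum_congr rfl (fun j hj => ?_)
  rw [fl_ne (fun h : j = i => hi (h ▸ hj)) e]

lemma rs_insert {s : Finset ι} {i : ι} (hi : i ∉ s) (a : ι → E) (F : E → ℝ) :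
    av (fun e => F (rs 𝕜 (insert i s) a e))
      = av (fun e => (F (rs 𝕜 s a e + a i) + F (rs 𝕜 s a e - a i)) * 2⁻¹) := by
  have h1 : ∀ e, rs 𝕜 (insert i s) a e = rs 𝕜 s a e + sg 𝕜 (e i) • a i := by
    intro e
    rw [rs, Finset.sum_insert hi, add_comm]; rfl
  have h2 : ∀ e, rs 𝕜 (insert i s) a (fl i e) = rs 𝕜 s a e - sg 𝕜 (e i) • a i := by
    intro e
    rw [h1, rs_fl hi, fl_same, sg_not, neg_smul, sub_eq_add_neg]
  have h3 := av_inv (fl_inv (ι := ι) i) (fun e => F (rs 𝕜 (insert i s) a e))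
  have h4 : av (fun e => F (rs 𝕜 (insert i s) a e))
      = av (fun e => (F (rs 𝕜 (insert i s) a e) + F (rs 𝕜 (insert i s) a (fl i e))) * 2⁻¹) := by
    rw [av_mul_const, av_add, h3]; ring
  rw [h4]
  congr 1
  funext e
  rw [h2, h1]
  cases e i
  · simp only [sg, Bool.false_eq_true, if_false, neg_smul, one_smul]
    rw [sub_neg_eq_add, ← sub_eq_add_neg, add_comm (F _) (F _)]
  · simp only [sg, if_true, one_smul]

lemma rs_full_le (a : ι → E) (i : ι) :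
    ‖a i‖ ≤ av (fun e : ι → Bool => ‖∑ j, sg 𝕜 (e j) • a j‖) := by
  classical
  have h := rs_insert (𝕜 := 𝕜) (s := Finset.univ.erase i) (Finset.notMem_erase i _) a
    (fun v => ‖v‖)
  rw [Finset.insert_erase (Finset.mem_univ i)] at h
  have e1 : av (fun e : ι → Bool => ‖∑ j, sg 𝕜 (e j) • a j‖)
      = av (fun e => ‖rs 𝕜 Finset.univ a e‖) := rfl
  rw [e1, h]
  have h2 : ∀ e : ι → Bool, ‖a i‖ ≤ (‖rs 𝕜 (Finset.univ.erase i) a e + a i‖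
      + ‖rs 𝕜 (Finset.univ.erase i) a e - a i‖) * 2⁻¹ := by
    intro e
    set v := rs 𝕜 (Finset.univ.erase i) a e
    have h3 : ‖(v + a i) - (v - a i)‖ ≤ ‖v + a i‖ + ‖v - a i‖ := norm_sub_le _ _
    have h4 : (v + a i) - (v - a i) = (2:ℕ) • a i := by rw [two_nsmul]; abel
    have h5 : ‖(2:ℕ) • a i‖ = 2 * ‖a i‖ := by
      have : (2:ℕ) • a i = (2:𝕜) • a i := by rw [two_nsmul, two_smul]
      rw [this, norm_smul]
      simp
    rw [h4, h5] at h3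
    linarith
  have := av_mono h2
  rwa [av_const] at this

end

section inner
variable {𝕜 : Type*} [RCLike 𝕜] {ι : Type*} [Fintype ι] [DecidableEq ι]
  {E : Type*} [NormedAddCommGroup E] [InnerProductSpace 𝕜 E]

lemma rs_two (s : Finset ι) (a : ι → E) :
    av (fun e => ‖rs 𝕜 s a e‖ ^ 2) = ∑ i ∈ s, ‖a i‖ ^ 2 := by
  induction s using Finset.induction_on with
  | empty => simp [rs, av_const]
  | insert i s hi ih =>
    rw [rs_insert hi a (fun v => ‖v‖ ^ 2), Finset.sum_insert hi, ← ih]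
    have : ∀ e, (‖rs 𝕜 s a e + a i‖ ^ 2 + ‖rs 𝕜 s a e - a i‖ ^ 2) * 2⁻¹
        = ‖a i‖ ^ 2 + ‖rs 𝕜 s a e‖ ^ 2 := by
      intro e
      have := parallelogram_law_with_norm 𝕜 (rs 𝕜 s a e) (a i)
      rw [this]; ring
    simp only [this]
    rw [av_add, av_const]

lemma rs_four (s : Finset ι) (a : ι → E) :
    av (fun e => ‖rs 𝕜 s a e‖ ^ 4) ≤ 3 * (∑ i ∈ s, ‖a i‖ ^ 2) ^ 2 := by
  induction s using Finset.induction_on with
  | empty => simp [rs, av_const]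
  | insert i s hi ih =>
    rw [rs_insert hi a (fun v => ‖v‖ ^ 4), Finset.sum_insert hi]
    have h1 : ∀ e, (‖rs 𝕜 s a e + a i‖ ^ 4 + ‖rs 𝕜 s a e - a i‖ ^ 4) * 2⁻¹
        ≤ (‖rs 𝕜 s a e‖ ^ 4 + (6 * ‖a i‖ ^ 2) * ‖rs 𝕜 s a e‖ ^ 2) + ‖a i‖ ^ 4 := by
      intro e
      set v := rs 𝕜 s a e
      have h2 : ‖v + a i‖ ^ 2 = ‖v‖ ^ 2 + 2 * RCLike.re (inner 𝕜 v (a i)) + ‖a i‖ ^ 2 :=
        norm_add_sq v (a i)
      have h3 : ‖v - a i‖ ^ 2 = ‖v‖ ^ 2 - 2 * RCLike.re (inner 𝕜 v (a i)) + ‖a i‖ ^ 2 :=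
        norm_sub_sq v (a i)
      have h4 : |RCLike.re (inner 𝕜 v (a i))| ≤ ‖v‖ * ‖a i‖ :=
        (RCLike.abs_re_le_norm _).trans (norm_inner_le_norm _ _)
      have h5 : RCLike.re (inner 𝕜 v (a i)) ^ 2 ≤ (‖v‖ * ‖a i‖) ^ 2 := by
        rw [← sq_abs]
        exact pow_le_pow_left₀ (abs_nonneg _) h4 2
      have e1 : ‖v + a i‖ ^ 4 = (‖v + a i‖ ^ 2) ^ 2 := by ring
      have e2 : ‖v - a i‖ ^ 4 = (‖v - a i‖ ^ 2) ^ 2 := by ring
      rw [e1, e2, h2, h3]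
      nlinarith
    refine (av_mono h1).trans ?_
    rw [av_add, av_const, av_add, av_const_mul, rs_two]
    have h0 : 0 ≤ ∑ i ∈ s, ‖a i‖ ^ 2 := Finset.sum_nonneg (fun _ _ => sq_nonneg _)
    nlinarith [sq_nonneg (‖a i‖)]

lemma quart {v l : ℝ} (hv : 0 ≤ v) (hl : 0 < l) :
    (3 * (v / l) ^ 2 - (v / l) ^ 4) / 2 * l ≤ v := by
  set w := v / l with hw
  have hw0 : 0 ≤ w := div_nonneg hv hl.le
  have e : v = w * l := by rw [hw]; field_simp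
  rw [e]
  refine mul_le_mul_of_nonneg_right ?_ hl.le
  nlinarith [mul_nonneg hw0 (mul_nonneg (sq_nonneg (w - 1)) (by linarith : 0 ≤ w + 2))]

/-- Khinchine's inequality (lower bound of the first moment). -/
lemma khin (a : ι → E) :
    Real.sqrt (∑ i, ‖a i‖ ^ 2) ≤ 2 * av (fun e : ι → Bool => ‖∑ j, sg 𝕜 (e j) • a j‖) := by
  set σ := Real.sqrt (∑ i, ‖a i‖ ^ 2) with hσ
  have hS : 0 ≤ ∑ i, ‖a i‖ ^ 2 := Finset.sum_nonneg (fun _ _ => sq_nonneg _)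
  have hσ2 : σ ^ 2 = ∑ i, ‖a i‖ ^ 2 := Real.sq_sqrt hS
  rcases (Real.sqrt_nonneg (∑ i, ‖a i‖ ^ 2)).eq_or_lt with h0 | h0
  · rw [← hσ] at h0
    rw [← h0]
    exact mul_nonneg (by norm_num) (av_nonneg (fun _ => norm_nonneg _))
  rw [← hσ] at h0
  have h1 : ∀ e : ι → Bool, (3 * (‖rs 𝕜 Finset.univ a e‖ / (2 * σ)) ^ 2
      - (‖rs 𝕜 Finset.univ a e‖ / (2 * σ)) ^ 4) / 2 * (2 * σ) ≤ ‖rs 𝕜 Finset.univ a e‖ :=
    fun e => quart (norm_nonneg _) (by positivity)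
  have h2 : ∀ e : ι → Bool, (3 * (‖rs 𝕜 Finset.univ a e‖ / (2 * σ)) ^ 2
      - (‖rs 𝕜 Finset.univ a e‖ / (2 * σ)) ^ 4) / 2 * (2 * σ)
      = (3 / (4 * σ)) * ‖rs 𝕜 Finset.univ a e‖ ^ 2
        - (1 / (16 * σ ^ 3)) * ‖rs 𝕜 Finset.univ a e‖ ^ 4 := by
    intro e
    field_simp
    ring
  simp only [h2] at h1
  have h3 := av_mono h1
  rw [av_sub, av_const_mul, av_const_mul, rs_two, ← hσ2] at h3
  have h4 := rs_four (𝕜 := 𝕜) Finset.univ a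
  rw [← hσ2] at h4
  have h5 : (1 / (16 * σ ^ 3)) * av (fun e : ι → Bool => ‖rs 𝕜 Finset.univ a e‖ ^ 4)
      ≤ (1 / (16 * σ ^ 3)) * (3 * (σ ^ 2) ^ 2) :=
    mul_le_mul_of_nonneg_left h4 (by positivity)
  have h6 : (1 / (16 * σ ^ 3)) * (3 * (σ ^ 2) ^ 2) = 3 / 16 * σ := by
    field_simp
  have h7 : (3 / (4 * σ)) * σ ^ 2 = 3 / 4 * σ := by
    field_simp
  have h8 : av (fun e : ι → Bool => ‖rs 𝕜 Finset.univ a e‖)
      = av (fun e : ι → Bool => ‖∑ j, sg 𝕜 (e j) • a j‖) := rfl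
  rw [← h8]
  rw [h7] at h3
  rw [h6] at h5
  linarith

lemma av_norm_sq (a : ι → E) :
    av (fun e : ι → Bool => ‖∑ j, sg 𝕜 (e j) • a j‖ ^ 2) = ∑ i, ‖a i‖ ^ 2 :=
  rs_two (𝕜 := 𝕜) Finset.univ a

end inner

end Pool.Agent.Lib.MP_cdd7b4_an.H80
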