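import Pool.Agent.Lib.MP_cdd7b4_an.H80.Defs
import Pool.Agent.Lib.MP_cdd7b4_an.H80.Rad

set_option autoImplicit false
set_option linter.unusedSectionVars false

namespace Pool.Agent.Lib.MP_cdd7b4_an.H80

open MeasureTheory
open scoped BigOperators ENNReal

variable {S : Type*} [MeasurableSpace S]

/-- everywhere version of a function norm -/
structure FN (ρ : (S → ℝ) → ℝ≥0∞) : Prop where
  mono : ∀ f g : S → ℝ, Measurable f → Measurable g → (∀ s, 0 ≤ f s) → (∀ s, f s ≤ g s) →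
    ρ f ≤ ρ g
  smul : ∀ (c : ℝ) (f : S → ℝ), 0 ≤ c → Measurable f → (∀ s, 0 ≤ f s) →
    ρ (fun s => c * f s) = ENNReal.ofReal c * ρ f
  add : ∀ f g : S → ℝ, Measurable f → Measurable g → (∀ s, 0 ≤ f s) → (∀ s, 0 ≤ g s) →
    ρ (fun s => f s + g s) ≤ ρ f + ρ g

lemma FunctionNorm.fn {μ : Measure S} (ρ : FunctionNorm μ) : FN ρ.toFun where
  mono := fun f g hf hg h0 h => ρ.mono' f g hf hg (Filter.Eventually.of_forall fun s => ⟨h0 s, h s⟩)
  smul := ρ.smul'
  add := ρ.add'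

variable {ρ : (S → ℝ) → ℝ≥0∞}

lemma FN.zero (h : FN ρ) : ρ (fun _ => 0) = 0 := by
  have := h.smul 0 (fun _ => 0) le_rfl measurable_const (fun _ => le_rfl)
  simpa using this

lemma FN.sum (h : FN ρ) {ι : Type*} (t : Finset ι) (f : ι → S → ℝ) (hf : ∀ i, Measurable (f i))
    (h0 : ∀ i s, 0 ≤ f i s) : ρ (fun s => ∑ i ∈ t, f i s) ≤ ∑ i ∈ t, ρ (f i) := by
  classical
  induction t using Finset.induction_on with
  | empty => simp [h.zero]
  | insert i t hi ih =>
    simp only [Finset.sum_insert hi]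
    refine (h.add (f i) (fun s => ∑ i ∈ t, f i s) (hf i)
      (Finset.measurable_sum t (fun i _ => hf i)) (h0 i)
      (fun s => Finset.sum_nonneg (fun i _ => h0 i s))).trans ?_
    gcongr

lemma FN.av (h : FN ρ) {α : Type*} [Fintype α] (f : α → S → ℝ) (hf : ∀ i, Measurable (f i))
    (h0 : ∀ i s, 0 ≤ f i s) :
    ρ (fun s => av (fun a => f a s))
      ≤ ENNReal.ofReal ((Fintype.card α : ℝ)⁻¹) * ∑ a, ρ (f a) := by
  have hc : (0:ℝ) ≤ (Fintype.card α : ℝ)⁻¹ := by positivity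
  have e : (fun s => H80.av (fun a => f a s))
      = fun s => (Fintype.card α : ℝ)⁻¹ * (fun s => ∑ a, f a s) s := rfl
  rw [e, h.smul _ _ hc (Finset.measurable_sum _ (fun i _ => hf i))
    (fun s => Finset.sum_nonneg (fun i _ => h0 i s))]
  gcongr
  exact h.sum _ _ hf h0

/-- The linear form of concavity with exponent `q`. -/
def LConc (ρ : (S → ℝ) → ℝ≥0∞) (q M : ℝ) : Prop :=
  ∀ (n : ℕ) (f : Fin n → S → ℝ), (∀ i, Measurable (f i)) → (∀ i s, 0 ≤ f i s) →
    ∑ i, ρ (f i) ≤ ENNReal.ofReal (M * (n:ℝ) ^ (1 - 1 / q))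
      * ρ (fun s => (∑ i, f i s ^ q) ^ (1 / q))

lemma ennreal_sum_le {n : ℕ} {p : ℝ} (hp : 1 ≤ p) (x : Fin n → ℝ≥0∞) :
    ∑ i, x i ≤ ENNReal.ofReal ((n:ℝ) ^ (1 - 1 / p)) * (∑ i, x i ^ p) ^ (1 / p) := by
  have hp0 : 0 < p := by linarith
  rcases Nat.eq_zero_or_pos n with rfl | hn
  · simp
  have hn' : (0:ℝ) < n := by exact_mod_cast hn
  have h1 := ENNReal.rpow_sum_le_const_mul_sum_rpow (Finset.univ : Finset (Fin n)) x hp
  rw [Finset.card_univ, Fintype.card_fin] at h1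
  have h2 := ENNReal.rpow_le_rpow h1 (by positivity : (0:ℝ) ≤ 1 / p)
  rw [← ENNReal.rpow_mul, mul_one_div_cancel hp0.ne', ENNReal.rpow_one,
    ENNReal.mul_rpow_of_nonneg _ _ (by positivity)] at h2
  refine h2.trans (le_of_eq ?_)
  congr 1
  rw [← ENNReal.rpow_mul, ← ENNReal.ofReal_natCast, ENNReal.ofReal_rpow_of_pos hn']
  congr 2
  field_simp

lemma real_pow_mean {n : ℕ} {p q : ℝ} (hp : 1 ≤ p) (hpq : p ≤ q) (x : Fin n → ℝ)
    (hx : ∀ i, 0 ≤ x i) :
    (∑ i, x i ^ p) ^ (1 / p) ≤ (n:ℝ) ^ (1 / p - 1 / q) * (∑ i, x i ^ q) ^ (1 / q) := by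
  have hp0 : 0 < p := by linarith
  have hq0 : 0 < q := by linarith
  rcases Nat.eq_zero_or_pos n with rfl | hn
  · simp only [Finset.univ_eq_empty, Finset.sum_empty]
    rw [Real.zero_rpow (by positivity : (1:ℝ) / p ≠ 0), Real.zero_rpow (by positivity : (1:ℝ) / q ≠ 0)]
    simp
  have hn' : (0:ℝ) < n := by exact_mod_cast hn
  have hS : 0 ≤ ∑ i, x i ^ p := Finset.sum_nonneg (fun i _ => Real.rpow_nonneg (hx i) _)
  have hT : 0 ≤ ∑ i, x i ^ q := Finset.sum_nonneg (fun i _ => Real.rpow_nonneg (hx i) _)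
  have h1 := Real.rpow_sum_le_const_mul_sum_rpow_of_nonneg (s := (Finset.univ : Finset (Fin n)))
    (f := fun i => x i ^ p) (p := q / p) (by rw [le_div_iff₀ hp0]; linarith)
    (fun i _ => Real.rpow_nonneg (hx i) _)
  rw [Finset.card_univ, Fintype.card_fin] at h1
  have e1 : ∀ i, (x i ^ p) ^ (q / p) = x i ^ q := by
    intro i
    rw [← Real.rpow_mul (hx i)]
    congr 1
    field_simp
  simp only [e1] at h1
  have h2 := Real.rpow_le_rpow (Real.rpow_nonneg hS _) h1 (by positivity : (0:ℝ) ≤ 1 / q)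
  rw [← Real.rpow_mul hS, Real.mul_rpow (Real.rpow_nonneg hn'.le _) hT, ← Real.rpow_mul hn'.le] at h2
  have e2 : q / p * (1 / q) = 1 / p := by field_simp
  have e3 : (q / p - 1) * (1 / q) = 1 / p - 1 / q := by field_simp
  rwa [e2, e3] at h2

lemma lconc_of_concave {μ : Measure S} {r : FunctionNorm μ} {p q M : ℝ} (hp : 1 ≤ p) (hpq : p ≤ q)
    (hM : ∀ (n : ℕ) (f : Fin n → S → ℝ), (∀ i, Measurable (f i)) → (∀ i s, 0 ≤ f i s) →
    (∑ i, r.toFun (f i) ^ p) ^ (1 / p)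
      ≤ ENNReal.ofReal M * r.toFun (fun s => (∑ i, f i s ^ p) ^ (1 / p))) :
    LConc r.toFun q M := by
  intro n f hf h0
  have hp0 : 0 < p := by linarith
  rcases Nat.eq_zero_or_pos n with rfl | hn
  · simp
  have hn' : (0:ℝ) < n := by exact_mod_cast hn
  have hme : ∀ t : ℝ, Measurable (fun s => (∑ i, f i s ^ t) ^ (1 / t)) := by
    intro t
    exact (Finset.measurable_sum _ (fun i _ => (hf i).pow_const t)).pow_const _
  have hnn : ∀ t : ℝ, ∀ s, 0 ≤ (∑ i, f i s ^ t) ^ (1 / t) := fun t s =>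
    Real.rpow_nonneg (Finset.sum_nonneg (fun i _ => Real.rpow_nonneg (h0 i s) _)) _
  have h1 := ennreal_sum_le hp (fun i => r.toFun (f i))
  have h2 := hM n f hf h0
  have h3 : r.toFun (fun s => (∑ i, f i s ^ p) ^ (1 / p))
      ≤ ENNReal.ofReal ((n:ℝ) ^ (1 / p - 1 / q)) * r.toFun (fun s => (∑ i, f i s ^ q) ^ (1 / q)) := by
    rw [← r.fn.smul _ _ (by positivity) (hme q) (hnn q)]
    exact r.fn.mono _ _ (hme p) ((hme q).const_mul _) (hnn p)
      (fun s => real_pow_mean hp hpq _ (fun i => h0 i s))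
  calc ∑ i, r.toFun (f i)
      ≤ ENNReal.ofReal ((n:ℝ) ^ (1 - 1 / p)) * (∑ i, r.toFun (f i) ^ p) ^ (1 / p) := h1
    _ ≤ ENNReal.ofReal ((n:ℝ) ^ (1 - 1 / p)) * (ENNReal.ofReal M *
        (ENNReal.ofReal ((n:ℝ) ^ (1 / p - 1 / q))
          * r.toFun (fun s => (∑ i, f i s ^ q) ^ (1 / q)))) := by
        gcongr
        exact h2.trans (by gcongr)
    _ = ENNReal.ofReal (M * (n:ℝ) ^ (1 - 1 / q)) * r.toFun (fun s => (∑ i, f i s ^ q) ^ (1 / q)) := by
        rw [← mul_assoc, ← mul_assoc]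
        congr 1
        rw [mul_comm (ENNReal.ofReal ((n:ℝ) ^ (1 - 1 / p))) (ENNReal.ofReal M), mul_assoc,
          ← ENNReal.ofReal_mul (by positivity), ← ENNReal.ofReal_mul' (by positivity)]
        congr 2
        rw [← Real.rpow_add hn']
        congr 1
        ring

/-- Concavity with exponent two in the form used at the end. -/
lemma two_concave {μ : Measure S} {r : FunctionNorm μ} {p M : ℝ} (hp : 1 ≤ p) (hp2 : p < 2)
    (hM0 : 0 ≤ M)
    (hM : ∀ (n : ℕ) (f : Fin n → S → ℝ), (∀ i, Measurable (f i)) → (∀ i s, 0 ≤ f i s) →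
    (∑ i, r.toFun (f i) ^ p) ^ (1 / p)
      ≤ ENNReal.ofReal M * r.toFun (fun s => (∑ i, f i s ^ p) ^ (1 / p)))
    {n : ℕ} (f : Fin n → S → ℝ) (hf : ∀ i, Measurable (f i)) (h0 : ∀ i s, 0 ≤ f i s)
    (x : Fin n → ℝ) (hx : ∀ i, 0 ≤ x i) (hxf : ∀ i, ENNReal.ofReal (x i) ≤ r.toFun (f i))
    {B : ℝ} (hB : 0 ≤ B) (hfB : r.toFun (fun s => Real.sqrt (∑ i, f i s ^ 2)) ≤ ENNReal.ofReal B) :
    Real.sqrt (∑ i, x i ^ 2) ≤ M * B := by
  have hp0 : 0 < p := by linarith
  have h2p : 0 < 2 - p := by linarith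
  set R := Real.sqrt (∑ i, x i ^ 2) with hR
  have hS : 0 ≤ ∑ i, x i ^ 2 := Finset.sum_nonneg (fun i _ => sq_nonneg _)
  have hR2 : R ^ 2 = ∑ i, x i ^ 2 := Real.sq_sqrt hS
  rcases (Real.sqrt_nonneg (∑ i, x i ^ 2)).eq_or_lt with hz | hz
  · rw [← hR] at hz
    rw [← hz]; positivity
  rw [← hR] at hz
  set a : Fin n → ℝ := fun i => x i ^ ((2 - p) / p) with ha
  have ha0 : ∀ i, 0 ≤ a i := fun i => Real.rpow_nonneg (hx i) _
  have hap : ∀ i, a i ^ p = x i ^ (2 - p) := by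
    intro i
    rw [ha]
    simp only
    rw [← Real.rpow_mul (hx i)]
    congr 1
    field_simp
  have h1 := hM n (fun i s => a i * f i s) (fun i => (hf i).const_mul _)
    (fun i s => mul_nonneg (ha0 i) (h0 i s))
  -- the left side
  have h2 : ENNReal.ofReal (R ^ (2 / p)) ≤ (∑ i, r.toFun (fun s => a i * f i s) ^ p) ^ (1 / p) := by
    have e1 : ENNReal.ofReal (R ^ (2 / p)) = (∑ i, ENNReal.ofReal (a i * x i) ^ p) ^ (1 / p) := by
      have e2 : ∀ i, ENNReal.ofReal (a i * x i) ^ p = ENNReal.ofReal (x i ^ 2) := by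
        intro i
        rw [ENNReal.ofReal_rpow_of_nonneg (mul_nonneg (ha0 i) (hx i)) hp0.le]
        congr 1
        rw [Real.mul_rpow (ha0 i) (hx i), hap i]
        rcases (hx i).eq_or_lt with h | h
        · rw [← h, Real.zero_rpow hp0.ne']; simp
        · rw [← Real.rpow_add h, sub_add_cancel, Real.rpow_two]
      rw [Finset.sum_congr rfl (fun i _ => e2 i),
        ← ENNReal.ofReal_sum_of_nonneg (fun i _ => sq_nonneg _), ← hR2,
        ENNReal.ofReal_rpow_of_nonneg (sq_nonneg _) (by positivity)]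
      congr 1
      rw [← Real.rpow_two, ← Real.rpow_mul hz.le]
      congr 1
      field_simp
    rw [e1]
    refine ENNReal.rpow_le_rpow (Finset.sum_le_sum (fun i _ => ENNReal.rpow_le_rpow ?_ hp0.le))
      (by positivity)
    rw [r.fn.smul _ _ (ha0 i) (hf i) (h0 i), ENNReal.ofReal_mul (ha0 i)]
    gcongr
    exact hxf i
  -- the right side
  have h3 : r.toFun (fun s => (∑ i, (a i * f i s) ^ p) ^ (1 / p))
      ≤ ENNReal.ofReal (R ^ ((2 - p) / p) * B) := by
    rw [ENNReal.ofReal_mul (Real.rpow_nonneg hz.le _)]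
    have hm2 : Measurable (fun s => Real.sqrt (∑ i, f i s ^ 2)) :=
      (Finset.measurable_sum _ (fun i _ => (hf i).pow_const 2)).sqrt
    refine le_trans (r.fn.mono _ (fun s => R ^ ((2 - p) / p) * Real.sqrt (∑ i, f i s ^ 2)) ?_ ?_ ?_
      ?_) (le_trans (le_of_eq (r.fn.smul _ _ (Real.rpow_nonneg hz.le _) hm2
        (fun s => Real.sqrt_nonneg _))) (by gcongr))
    · exact (Finset.measurable_sum _ (fun i _ => ((hf i).const_mul _).pow_const p)).pow_const _
    · exact hm2.const_mul _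
    · exact fun s => Real.rpow_nonneg
        (Finset.sum_nonneg (fun i _ => Real.rpow_nonneg (mul_nonneg (ha0 i) (h0 i s)) _)) _
    · intro s
      have hF : 0 ≤ ∑ i, f i s ^ 2 := Finset.sum_nonneg (fun i _ => sq_nonneg _)
      have hol := Real.inner_le_Lp_mul_Lq_of_nonneg (Finset.univ : Finset (Fin n))
        (p := 2 / (2 - p)) (q := 2 / p) (f := fun i => x i ^ (2 - p)) (g := fun i => f i s ^ p)
        (by
          rw [Real.holderConjugate_iff]
          refine ⟨by rw [lt_div_iff₀ h2p]; linarith, ?_⟩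
          field_simp
          ring)
        (fun i _ => Real.rpow_nonneg (hx i) _) (fun i _ => Real.rpow_nonneg (h0 i s) _)
      have e1 : ∀ i, (x i ^ (2 - p)) ^ (2 / (2 - p)) = x i ^ 2 := by
        intro i
        rw [← Real.rpow_mul (hx i), mul_div_cancel₀ _ h2p.ne', Real.rpow_two]
      have e2 : ∀ i, (f i s ^ p) ^ (2 / p) = f i s ^ 2 := by
        intro i
        rw [← Real.rpow_mul (h0 i s), mul_div_cancel₀ _ hp0.ne', Real.rpow_two]
      simp only [e1, e2] at hol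
      have e3 : ∀ i, (a i * f i s) ^ p = x i ^ (2 - p) * f i s ^ p := by
        intro i
        rw [Real.mul_rpow (ha0 i) (h0 i s), hap]
      simp only [e3]
      have h4 := Real.rpow_le_rpow (Finset.sum_nonneg (fun i _ => mul_nonneg
        (Real.rpow_nonneg (hx i) _) (Real.rpow_nonneg (h0 i s) _))) hol
        (by positivity : (0:ℝ) ≤ 1 / p)
      refine h4.trans (le_of_eq ?_)
      rw [Real.mul_rpow (Real.rpow_nonneg hS _) (Real.rpow_nonneg hF _), ← Real.rpow_mul hS,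
        ← Real.rpow_mul hF, ← hR2, ← Real.rpow_two, ← Real.rpow_mul hz.le, Real.sqrt_eq_rpow]
      congr 2
      · field_simp
      · field_simp
  have h5 : ENNReal.ofReal (R ^ (2 / p)) ≤ ENNReal.ofReal (M * (R ^ ((2 - p) / p) * B)) := by
    rw [ENNReal.ofReal_mul hM0]
    exact h2.trans (h1.trans (by gcongr))
  have h6 := (ENNReal.ofReal_le_ofReal_iff
    (mul_nonneg hM0 (mul_nonneg (Real.rpow_nonneg hz.le _) hB))).1 h5
  have h7 : R ^ (2 / p) = R ^ ((2 - p) / p) * R := by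
    nth_rewrite 3 [← Real.rpow_one R]
    rw [← Real.rpow_add hz]
    congr 1
    field_simp
    ring
  rw [h7] at h6
  have hpos : 0 < R ^ ((2 - p) / p) := Real.rpow_pos_of_pos hz _
  have h8 : R ^ ((2 - p) / p) * R ≤ R ^ ((2 - p) / p) * (M * B) := by linarith
  exact le_of_mul_le_mul_left h8 hpos

end Pool.Agent.Lib.MP_cdd7b4_an.H80
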