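import Pool.Agent.Lib.MP_cdd7b4_an.H80.Defs
import Pool.Agent.Lib.MP_cdd7b4_an.H85.Defs

set_option autoImplicit false

namespace Pool.Agent.Lib.MP_cdd7b4_an.H80

open MeasureTheory
open scoped BigOperators ENNReal

/-- The function norm of `L^p(μ)`. -/
noncomputable def lpFN {S : Type*} [MeasurableSpace S] (μ : Measure S) (p : ℝ) (hp : 1 ≤ p) :
    FunctionNorm μ where
  toFun f := (∫⁻ s, ENNReal.ofReal (f s) ^ p ∂μ) ^ (1 / p)
  mono' f g _ _ h := by
    refine ENNReal.rpow_le_rpow (lintegral_mono_ae ?_) (by positivity)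
    filter_upwards [h] with s hs
    exact ENNReal.rpow_le_rpow (ENNReal.ofReal_le_ofReal hs.2) (by linarith)
  smul' c f hc hf h0 := by
    have hp0 : 0 < p := by linarith
    have h1 : ∀ s, ENNReal.ofReal (c * f s) ^ p = ENNReal.ofReal c ^ p * ENNReal.ofReal (f s) ^ p := by
      intro s
      rw [ENNReal.ofReal_mul hc, ENNReal.mul_rpow_of_nonneg _ _ hp0.le]
    simp only [h1]
    rw [lintegral_const_mul _ ((hf.ennreal_ofReal).pow_const p),
      ENNReal.mul_rpow_of_nonneg _ _ (by positivity), ← ENNReal.rpow_mul, mul_one_div_cancel hp0.ne',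
      ENNReal.rpow_one]
  add' f g hf hg h0 h1 := by
    have h2 : ∀ s, ENNReal.ofReal (f s + g s) = ENNReal.ofReal (f s) + ENNReal.ofReal (g s) :=
      fun s => ENNReal.ofReal_add (h0 s) (h1 s)
    simp only [h2]
    exact ENNReal.lintegral_Lp_add_le (f := fun s => ENNReal.ofReal (f s))
      (g := fun s => ENNReal.ofReal (g s)) hf.ennreal_ofReal.aemeasurable
      hg.ennreal_ofReal.aemeasurable hp

lemma ofReal_rpow' {x p : ℝ} (hx : 0 ≤ x) (hp : 0 ≤ p) :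
    ENNReal.ofReal (x ^ p) = ENNReal.ofReal x ^ p := (ENNReal.ofReal_rpow_of_nonneg hx hp).symm

/-- `L^p(μ)` is `p`-concave. -/
lemma lpFN_concave {S : Type*} [MeasurableSpace S] (μ : Measure S) (p : ℝ) (hp : 1 ≤ p) :
    (lpFN μ p hp).IsConcave p := by
  have hp0 : 0 < p := by linarith
  refine ⟨1, fun n f hf h0 => ?_⟩
  simp only [ENNReal.ofReal_one, one_mul, lpFN]
  refine ENNReal.rpow_le_rpow ?_ (by positivity)
  have h1 : ∀ s, ENNReal.ofReal ((∑ i, f i s ^ p) ^ (1 / p)) ^ p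
      = ∑ i, ENNReal.ofReal (f i s) ^ p := by
    intro s
    have hs : 0 ≤ ∑ i, f i s ^ p := Finset.sum_nonneg (fun i _ => Real.rpow_nonneg (h0 i s) _)
    rw [ofReal_rpow' hs (by positivity), ← ENNReal.rpow_mul, one_div_mul_cancel hp0.ne',
      ENNReal.rpow_one, ENNReal.ofReal_sum_of_nonneg (fun i _ => Real.rpow_nonneg (h0 i s) _)]
    exact Finset.sum_congr rfl (fun i _ => ofReal_rpow' (h0 i s) hp0.le)
  simp only [h1]
  rw [lintegral_finsetSum _ (fun i _ => ((hf i).ennreal_ofReal).pow_const p)]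
  refine Finset.sum_le_sum (fun i _ => le_of_eq ?_)
  rw [← ENNReal.rpow_mul, one_div_mul_cancel hp0.ne', ENNReal.rpow_one]

/-- A Banach space with a copy in `L^p(μ, Y)` embeds in `E(Y)`, `E = L^p(μ)`. -/
lemma embedsIn_Lp {𝕜 : Type*} [RCLike 𝕜] {X : Type*} [NormedAddCommGroup X] [NormedSpace 𝕜 X]
    {Y : Type*} [NormedAddCommGroup Y] [NormedSpace 𝕜 Y]
    {S : Type*} [MeasurableSpace S] (μ : Measure S) {p : ℝ} (hp : 1 ≤ p)
    [Fact ((1:ℝ≥0∞) ≤ ENNReal.ofReal p)]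
    (h : H85.ContainsCopy 𝕜 (Lp Y (ENNReal.ofReal p) μ) X) : EmbedsIn 𝕜 (lpFN μ p hp) Y X := by
  have hp0 : 0 < p := by linarith
  obtain ⟨T, c, hc, hT⟩ := h
  have hcoe : ∀ f : Lp Y (ENNReal.ofReal p) μ,
      (lpFN μ p hp).toFun (fun s => ‖(f : S → Y) s‖) = ENNReal.ofReal ‖f‖ := by
    intro f
    have h1 : (ENNReal.ofReal p) ≠ 0 := by simpa using hp0
    rw [Lp.norm_def, ENNReal.ofReal_toReal (Lp.eLpNorm_ne_top f),
      eLpNorm_eq_lintegral_rpow_enorm_toReal h1 ENNReal.ofReal_ne_top, ENNReal.toReal_ofReal hp0.le]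
    simp only [lpFN, ofReal_norm]
  let J : X →ₗ[𝕜] (S →ₘ[μ] Y) :=
    { toFun := fun x => (T x : S →ₘ[μ] Y)
      map_add' := fun x y => by rw [map_add]; rfl
      map_smul' := fun a x => by rw [map_smul]; rfl }
  refine ⟨J, c, ‖T‖, hc, fun x => ?_⟩
  have e : (lpFN μ p hp).toFun (fun s => ‖(J x : S → Y) s‖) = ENNReal.ofReal ‖T x‖ := hcoe (T x)
  rw [e]
  exact ⟨ENNReal.ofReal_le_ofReal (hT x), ENNReal.ofReal_le_ofReal (T.le_opNorm x)⟩

end Pool.Agent.Lib.MP_cdd7b4_an.H80
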