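import Pool.Agent.Lib.MP_cdd7b4_an.H80.Rad

set_option autoImplicit false
set_option linter.unusedSectionVars false

namespace Pool.Agent.Lib.MP_cdd7b4_an.H80

open scoped BigOperators

section
variable {𝕜 : Type*} [RCLike 𝕜] {ι : Type*} [Fintype ι] [DecidableEq ι]

lemma rs_exp (ξ : 𝕜 →ₗ[ℝ] ℝ) (hξ : ∀ x, |ξ x| ≤ ‖x‖) (s : Finset ι) (a : ι → 𝕜) :
    av (fun e => Real.exp (ξ (rs 𝕜 s a e))) ≤ Real.exp ((∑ i ∈ s, ‖a i‖ ^ 2) / 2) := by
  induction s using Finset.induction_on with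
  | empty => simp [rs, av_const]
  | insert i s hi ih =>
    rw [rs_insert hi a (fun v => Real.exp (ξ v)), Finset.sum_insert hi]
    have h1 : ∀ e, (Real.exp (ξ (rs 𝕜 s a e + a i)) + Real.exp (ξ (rs 𝕜 s a e - a i))) * 2⁻¹
        = Real.exp (ξ (rs 𝕜 s a e)) * Real.cosh (ξ (a i)) := by
      intro e
      rw [map_add, map_sub, Real.exp_add, Real.exp_sub, Real.cosh_eq, Real.exp_neg]
      ring
    simp only [h1]
    rw [av_mul_const]
    have h2 : Real.cosh (ξ (a i)) ≤ Real.exp (‖a i‖ ^ 2 / 2) := by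
      refine (Real.cosh_le_exp_half_sq _).trans (Real.exp_le_exp.2 ?_)
      have : ξ (a i) ^ 2 ≤ ‖a i‖ ^ 2 := by
        rw [← sq_abs]
        exact pow_le_pow_left₀ (abs_nonneg _) (hξ _) 2
      linarith
    calc av (fun e => Real.exp (ξ (rs 𝕜 s a e))) * Real.cosh (ξ (a i))
        ≤ Real.exp ((∑ i ∈ s, ‖a i‖ ^ 2) / 2) * Real.exp (‖a i‖ ^ 2 / 2) :=
          mul_le_mul ih h2 (Real.cosh_pos _).le (Real.exp_pos _).le
      _ = _ := by rw [← Real.exp_add]; congr 1; ring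

lemma rpow_le_exp {q x : ℝ} (hq : 0 < q) (hx : 0 ≤ x) : x ^ q ≤ q ^ q * Real.exp x := by
  have h1 : x / q ≤ Real.exp (x / q) := by linarith [Real.add_one_le_exp (x / q)]
  have h2 := Real.rpow_le_rpow (by positivity) h1 hq.le
  rw [← Real.exp_mul, div_mul_cancel₀ _ hq.ne', Real.div_rpow hx hq.le,
    div_le_iff₀ (by positivity)] at h2
  linarith

/-- Khinchine's inequality, upper bound of the moment of order `q`. -/
lemma khin_up {q : ℝ} (hq : 0 < q) (a : ι → 𝕜) :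
    av (fun e : ι → Bool => ‖∑ j, sg 𝕜 (e j) • a j‖ ^ q)
      ≤ ((2 * q) ^ q * (4 * Real.exp (1 / 2))) * Real.sqrt (∑ i, ‖a i‖ ^ 2) ^ q := by
  set σ := Real.sqrt (∑ i, ‖a i‖ ^ 2) with hσ
  have hS : 0 ≤ ∑ i, ‖a i‖ ^ 2 := Finset.sum_nonneg (fun _ _ => sq_nonneg _)
  have hσ2 : σ ^ 2 = ∑ i, ‖a i‖ ^ 2 := Real.sq_sqrt hS
  rcases (Real.sqrt_nonneg (∑ i, ‖a i‖ ^ 2)).eq_or_lt with h0 | h0
  · rw [← hσ] at h0
    have hz : ∀ i, a i = 0 := by
      intro i
      have h3 : ∑ i, ‖a i‖ ^ 2 = 0 := by rw [← hσ2, ← h0]; norm_num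
      have h4 := (Finset.sum_eq_zero_iff_of_nonneg (fun i _ => sq_nonneg ‖a i‖)).1 h3 i
        (Finset.mem_univ i)
      simpa using h4
    simp [hz, Real.zero_rpow hq.ne', av]
    positivity
  rw [← hσ] at h0
  set b : ι → 𝕜 := fun i => ((σ⁻¹ : ℝ) : 𝕜) * a i with hb
  have hbn : ∑ i, ‖b i‖ ^ 2 = 1 := by
    simp only [hb, norm_mul, RCLike.norm_ofReal, mul_pow, sq_abs]
    rw [← Finset.mul_sum, ← hσ2, inv_pow, inv_mul_cancel₀ (by positivity)]
  have hsc : ∀ e : ι → Bool, ‖∑ j, sg 𝕜 (e j) • a j‖ = σ * ‖rs 𝕜 Finset.univ b e‖ := by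
    intro e
    have e1 : rs 𝕜 Finset.univ b e = ((σ⁻¹ : ℝ) : 𝕜) * ∑ j, sg 𝕜 (e j) • a j := by
      simp only [rs, hb, Finset.mul_sum, smul_eq_mul]
      exact Finset.sum_congr rfl (fun i _ => by ring)
    rw [e1, norm_mul, RCLike.norm_ofReal, abs_of_pos (inv_pos.2 h0), ← mul_assoc,
      mul_inv_cancel₀ h0.ne', one_mul]
  simp only [hsc]
  have h1 : ∀ e : ι → Bool, (σ * ‖rs 𝕜 Finset.univ b e‖) ^ q
      = σ ^ q * ‖rs 𝕜 Finset.univ b e‖ ^ q := fun e => Real.mul_rpow h0.le (norm_nonneg _)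
  simp only [h1]
  rw [av_const_mul, mul_comm]
  refine mul_le_mul_of_nonneg_right ?_ (Real.rpow_nonneg h0.le _)
  let reL : 𝕜 →ₗ[ℝ] ℝ := (RCLike.reLm : 𝕜 →ₗ[ℝ] ℝ)
  let imL : 𝕜 →ₗ[ℝ] ℝ := (RCLike.imLm : 𝕜 →ₗ[ℝ] ℝ)
  have hre : ∀ x : 𝕜, |reL x| ≤ ‖x‖ := fun x => RCLike.abs_re_le_norm x
  have him : ∀ x : 𝕜, |imL x| ≤ ‖x‖ := fun x => RCLike.abs_im_le_norm x
  have hpt : ∀ v : 𝕜, ‖v‖ ^ q ≤ (2 * q) ^ q * (((Real.exp (reL v) + Real.exp ((-reL) v))
      + Real.exp (imL v)) + Real.exp ((-imL) v)) := by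
    intro v
    have h2 : ‖v‖ ≤ 2 * max |reL v| |imL v| := by
      have h3 : ‖v‖ ≤ |RCLike.re v| + |RCLike.im v| := by
        have h30 : ‖v‖ ^ 2 = RCLike.re v ^ 2 + RCLike.im v ^ 2 := by
          rw [← RCLike.normSq_eq_def', RCLike.normSq_apply]; ring
        refine abs_le_of_sq_le_sq' ?_ (by positivity) |>.2
        rw [h30]
        have a1 := sq_abs (RCLike.re v)
        have a2 := sq_abs (RCLike.im v)
        have a3 := mul_nonneg (abs_nonneg (RCLike.re v)) (abs_nonneg (RCLike.im v))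
        nlinarith
      have h4 : |RCLike.re v| ≤ max |reL v| |imL v| := le_max_left _ _
      have h5 : |RCLike.im v| ≤ max |reL v| |imL v| := le_max_right _ _
      linarith
    have h6 : 0 ≤ max |reL v| |imL v| := le_max_of_le_left (abs_nonneg _)
    have h7 := Real.rpow_le_rpow (norm_nonneg _) h2 hq.le
    have h8 := rpow_le_exp hq h6
    rw [Real.mul_rpow (by norm_num) h6] at h7
    have h9 : Real.exp (max |reL v| |imL v|) ≤ (((Real.exp (reL v) + Real.exp ((-reL) v))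
      + Real.exp (imL v)) + Real.exp ((-imL) v)) := by
      have p1 := Real.exp_pos (reL v)
      have p2 := Real.exp_pos ((-reL) v)
      have p3 := Real.exp_pos (imL v)
      have p4 := Real.exp_pos ((-imL) v)
      have n1 : (-reL) v = - reL v := rfl
      have n2 : (-imL) v = - imL v := rfl
      rcases le_total |reL v| |imL v| with h | h
      · rw [max_eq_right h]
        rcases abs_cases (imL v) with h' | h'
        · rw [h'.1]; linarith
        · rw [h'.1, ← n2]; linarith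
      · rw [max_eq_left h]
        rcases abs_cases (reL v) with h' | h'
        · rw [h'.1]; linarith
        · rw [h'.1, ← n1]; linarith
    have h10 : 0 < (2:ℝ) ^ q := by positivity
    have h11 : 0 < q ^ q := by positivity
    calc ‖v‖ ^ q ≤ 2 ^ q * (max |reL v| |imL v|) ^ q := h7
      _ ≤ 2 ^ q * (q ^ q * Real.exp (max |reL v| |imL v|)) :=
        mul_le_mul_of_nonneg_left h8 h10.le
      _ ≤ 2 ^ q * (q ^ q * (((Real.exp (reL v) + Real.exp ((-reL) v))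
          + Real.exp (imL v)) + Real.exp ((-imL) v))) :=
        mul_le_mul_of_nonneg_left (mul_le_mul_of_nonneg_left h9 h11.le) h10.le
      _ = _ := by rw [Real.mul_rpow (by norm_num) hq.le]; ring
  refine (av_mono (fun e => hpt (rs 𝕜 Finset.univ b e))).trans ?_
  rw [av_const_mul, av_add, av_add, av_add]
  have hn1 : ∀ x : 𝕜, |(-reL) x| ≤ ‖x‖ := fun x => by
    have : (-reL) x = - reL x := rfl
    rw [this, abs_neg]; exact hre x
  have hn2 : ∀ x : 𝕜, |(-imL) x| ≤ ‖x‖ := fun x => by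
    have : (-imL) x = - imL x := rfl
    rw [this, abs_neg]; exact him x
  have g1 := rs_exp reL hre Finset.univ b
  have g2 := rs_exp (-reL) hn1 Finset.univ b
  have g3 := rs_exp imL him Finset.univ b
  have g4 := rs_exp (-imL) hn2 Finset.univ b
  rw [hbn] at g1 g2 g3 g4
  refine mul_le_mul_of_nonneg_left ?_ (by positivity)
  linarith

end

end Pool.Agent.Lib.MP_cdd7b4_an.H80
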