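import Pool.Agent.Lib.MP_cdd7b4_an.H80.InstLp
import Pool.Agent.Lib.MP_cdd7b4_an.H80.KhinUp
import Pool.Agent.Lib.MP_cdd7b4_an.H80.Bound6

set_option autoImplicit false
set_option linter.unusedSectionVars false

namespace Pool.Agent.Lib.MP_cdd7b4_an.H80

open MeasureTheory
open scoped BigOperators ENNReal

section norm
variable {Y : Type*} [NormedAddCommGroup Y]

lemma toReal_pos' {p : ℝ≥0∞} [hp1 : Fact (1 ≤ p)] (hp : p ≠ ⊤) : 1 ≤ p.toReal := by
  have := ENNReal.toReal_mono hp hp1.out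
  simpa using this

/-- the norm of `ℓ^p(Y)` in terms of the function norm of `ℓ^p`. -/
lemma ofReal_lp_norm {p : ℝ≥0∞} [Fact (1 ≤ p)] (hp : p ≠ ⊤) (x : lp (fun _ : ℕ => Y) p) :
    (∫⁻ i, ENNReal.ofReal ‖x i‖ ^ p.toReal ∂(Measure.count : Measure ℕ)) ^ (1 / p.toReal)
      = ENNReal.ofReal ‖x‖ := by
  have hp0 : 0 < p.toReal := by linarith [toReal_pos' (p := p) hp]
  have h1 : Summable (fun i => ‖x i‖ ^ p.toReal) := (lp.memℓp x).summable hp0
  have h2 : ∀ i, ENNReal.ofReal ‖x i‖ ^ p.toReal = ENNReal.ofReal (‖x i‖ ^ p.toReal) :=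
    fun i => ENNReal.ofReal_rpow_of_nonneg (norm_nonneg _) hp0.le
  simp only [h2]
  rw [lintegral_count, ← ENNReal.ofReal_tsum_of_nonneg
    (fun i => Real.rpow_nonneg (norm_nonneg _) _) h1, lp.norm_eq_tsum_rpow hp0,
    ENNReal.ofReal_rpow_of_nonneg (tsum_nonneg (fun i => Real.rpow_nonneg (norm_nonneg _) _))
      (by positivity)]

end norm

section type
variable {𝕜 : Type*} [RCLike 𝕜]

lemma hasType_mono {X : Type*} [NormedAddCommGroup X] {t : ℝ} (ht1 : 1 ≤ t) (ht : t ≤ 2)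
    (h : HasType X 2) : HasType X t := by
  obtain ⟨C, hC⟩ := h
  refine ⟨max C 0, fun n x => (hC n x).trans ?_⟩
  have ht0 : 0 < t := by linarith
  have hs : 0 ≤ ∑ i, ‖x i‖ ^ t := Finset.sum_nonneg (fun i _ => Real.rpow_nonneg (norm_nonneg _) _)
  have hs2 : 0 ≤ ∑ i, ‖x i‖ ^ (2:ℝ) :=
    Finset.sum_nonneg (fun i _ => Real.rpow_nonneg (norm_nonneg _) _)
  refine mul_le_mul (le_max_left _ _) ?_ (Real.rpow_nonneg hs2 _) (le_max_right _ _)
  have h1 : ∑ i, ‖x i‖ ^ (2:ℝ) ≤ (∑ i, ‖x i‖ ^ t) ^ (2 / t) := by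
    have hq : 1 ≤ 2 / t := by rw [le_div_iff₀ ht0]; linarith
    have h2 := lq_le_l1 hq (fun i => ‖x i‖ ^ t) (fun i => Real.rpow_nonneg (norm_nonneg _) _)
    have h3 := Real.rpow_le_rpow (Real.rpow_nonneg (Finset.sum_nonneg
      (fun i _ => Real.rpow_nonneg (Real.rpow_nonneg (norm_nonneg _) _) _)) _) h2
      (by positivity : (0:ℝ) ≤ 2 / t)
    rw [← Real.rpow_mul (Finset.sum_nonneg
      (fun i _ => Real.rpow_nonneg (Real.rpow_nonneg (norm_nonneg _) _) _)),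
      one_div_mul_cancel (by positivity), Real.rpow_one] at h3
    refine le_trans (le_of_eq (Finset.sum_congr rfl (fun i _ => ?_))) h3
    rw [← Real.rpow_mul (norm_nonneg _)]
    congr 1
    field_simp
  have h4 := Real.rpow_le_rpow hs2 h1 (by norm_num : (0:ℝ) ≤ 1 / 2)
  refine h4.trans (le_of_eq ?_)
  rw [← Real.rpow_mul hs]
  congr 1
  field_simp

/-- power means of finite averages -/
lemma av_pow_mean {α : Type*} [Fintype α] [Nonempty α] {q : ℝ} (hq : 2 ≤ q) (f : α → ℝ)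
    (hf : ∀ a, 0 ≤ f a) : Real.sqrt (av (fun a => f a ^ 2)) ≤ (av (fun a => f a ^ q)) ^ (1 / q) := by
  have hcard : (0:ℝ) < Fintype.card α := by exact_mod_cast Fintype.card_pos
  have hq0 : 0 < q := by linarith
  have h1 := Real.rpow_arith_mean_le_arith_mean_rpow (Finset.univ : Finset α)
    (fun _ => (Fintype.card α : ℝ)⁻¹) (fun a => f a ^ 2) (fun _ _ => by positivity)
    (by simp [Finset.sum_const, Finset.card_univ]) (fun a _ => by positivity) (p := q / 2)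
    (by linarith)
  have h2 : ∀ a, (f a ^ 2) ^ (q / 2) = f a ^ q := by
    intro a
    rw [← Real.rpow_natCast, ← Real.rpow_mul (hf a)]
    congr 1
    push_cast
    ring
  simp only [h2, ← Finset.mul_sum] at h1
  have h0 : 0 ≤ av (fun a => f a ^ 2) := av_nonneg (fun a => sq_nonneg _)
  have h3 := Real.rpow_le_rpow (Real.rpow_nonneg h0 _) h1 (by positivity : (0:ℝ) ≤ 1 / q)
  have h4 : (av (fun a => f a ^ 2) ^ (q / 2)) ^ (1 / q) = Real.sqrt (av (fun a => f a ^ 2)) := by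
    rw [← Real.rpow_mul h0, Real.sqrt_eq_rpow]
    congr 1
    field_simp
  rw [h4] at h3
  exact h3

/-- `ℓ^q` has type 2 for `2 ≤ q < ∞`. -/
lemma hasType_lq {q : ℝ≥0∞} [Fact (1 ≤ q)] (hq : q ≠ ⊤) (hq2 : 2 ≤ q.toReal) :
    HasType (lp (fun _ : ℕ => 𝕜) q) 2 := by
  set r := q.toReal with hr
  have hr0 : 0 < r := by linarith
  set B := ((2 * r) ^ r * (4 * Real.exp (1 / 2))) with hB
  have hB0 : 0 ≤ B := by positivity
  refine ⟨B ^ (1 / r), fun n x => ?_⟩
  rw [← r2_eq (𝕜 := 𝕜)]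
  refine (av_pow_mean hq2 (fun e : Fin n → Bool => ‖∑ i, sg 𝕜 (e i) • x i‖)
    (fun e => norm_nonneg _)).trans ?_
  have hS : 0 ≤ ∑ i, ‖x i‖ ^ (2:ℝ) :=
    Finset.sum_nonneg (fun i _ => Real.rpow_nonneg (norm_nonneg _) _)
  set S := ∑ i, ‖x i‖ ^ (2:ℝ) with hSdef
  have hr2 : 1 ≤ r / 2 := by linarith
  have key : ENNReal.ofReal (av (fun e : Fin n → Bool => ‖∑ i, sg 𝕜 (e i) • x i‖ ^ r))
      ≤ ENNReal.ofReal (B * S ^ (r / 2)) := by
    have hcard : (0:ℝ) < Fintype.card (Fin n → Bool) := by exact_mod_cast Fintype.card_pos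
    have h1 : ∀ e : Fin n → Bool, ENNReal.ofReal (‖∑ i, sg 𝕜 (e i) • x i‖ ^ r)
        = ∫⁻ j, ENNReal.ofReal (‖∑ i, sg 𝕜 (e i) • (x i : ℕ → 𝕜) j‖ ^ r)
          ∂(Measure.count : Measure ℕ) := by
      intro e
      have h2 := ofReal_lp_norm (Y := 𝕜) hq (∑ i, sg 𝕜 (e i) • x i)
      have h3 : (∫⁻ i_1, ENNReal.ofReal ‖(∑ i, sg 𝕜 (e i) • x i : lp (fun _ : ℕ => 𝕜) q) i_1‖
          ^ q.toReal ∂(Measure.count : Measure ℕ))
          = ENNReal.ofReal ‖∑ i, sg 𝕜 (e i) • x i‖ ^ r := by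
        rw [← h2, ← ENNReal.rpow_mul, one_div_mul_cancel hr0.ne', ENNReal.rpow_one]
      rw [← ENNReal.ofReal_rpow_of_nonneg (norm_nonneg _) hr0.le, ← h3]
      refine lintegral_congr (fun j => ?_)
      rw [ENNReal.ofReal_rpow_of_nonneg (norm_nonneg _) hr0.le]
      congr 3
      rw [lp.coeFn_sum, Finset.sum_apply]
      rfl
    have h4 : ENNReal.ofReal (av (fun e : Fin n → Bool => ‖∑ i, sg 𝕜 (e i) • x i‖ ^ r))
        = ∫⁻ j, ENNReal.ofReal (av (fun e : Fin n → Bool =>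
          ‖∑ i, sg 𝕜 (e i) • (x i : ℕ → 𝕜) j‖ ^ r)) ∂(Measure.count : Measure ℕ) := by
      have h5 : ∀ j : ℕ, ENNReal.ofReal (av (fun e : Fin n → Bool =>
          ‖∑ i, sg 𝕜 (e i) • (x i : ℕ → 𝕜) j‖ ^ r)) = ENNReal.ofReal (Fintype.card (Fin n → Bool) : ℝ)⁻¹
          * ∑ e : Fin n → Bool, ENNReal.ofReal (‖∑ i, sg 𝕜 (e i) • (x i : ℕ → 𝕜) j‖ ^ r) := by
        intro j
        simp only [av]
        rw [ENNReal.ofReal_mul (by positivity), ENNReal.ofReal_sum_of_nonneg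
          (fun e _ => Real.rpow_nonneg (norm_nonneg _) _)]
      simp only [h5]
      rw [lintegral_const_mul _ measurable_from_top, lintegral_finsetSum _
        (fun e _ => measurable_from_top)]
      simp only [← h1]
      simp only [av]
      rw [ENNReal.ofReal_mul (by positivity), ENNReal.ofReal_sum_of_nonneg
          (fun e _ => Real.rpow_nonneg (norm_nonneg _) _)]
    rw [h4]
    have h6 : ∀ j : ℕ, ENNReal.ofReal (av (fun e : Fin n → Bool =>
          ‖∑ i, sg 𝕜 (e i) • (x i : ℕ → 𝕜) j‖ ^ r))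
        ≤ ENNReal.ofReal B * ENNReal.ofReal (∑ i, ‖(x i : ℕ → 𝕜) j‖ ^ 2) ^ (r / 2) := by
      intro j
      have hs0 : 0 ≤ ∑ i, ‖(x i : ℕ → 𝕜) j‖ ^ 2 := Finset.sum_nonneg (fun i _ => sq_nonneg _)
      refine (ENNReal.ofReal_le_ofReal (khin_up hr0 (fun i => (x i : ℕ → 𝕜) j))).trans
        (le_of_eq ?_)
      rw [ENNReal.ofReal_mul hB0, ENNReal.ofReal_rpow_of_nonneg hs0 (by positivity),
        Real.sqrt_eq_rpow, ← Real.rpow_mul hs0]
      congr 3
      ring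
    refine (lintegral_mono h6).trans ?_
    rw [lintegral_const_mul _ measurable_from_top, ENNReal.ofReal_mul hB0]
    gcongr
    -- Minkowski in `ℓ^(r/2)`
    have hρ := (lpFN (Measure.count : Measure ℕ) (r / 2) hr2).fn
    have h7 := hρ.sum Finset.univ (fun i j => ‖(x i : ℕ → 𝕜) j‖ ^ 2)
      (fun i => measurable_from_top) (fun i j => sq_nonneg _)
    have h8 : ∀ i, (lpFN (Measure.count : Measure ℕ) (r / 2) hr2).toFun
        (fun j => ‖(x i : ℕ → 𝕜) j‖ ^ 2) = ENNReal.ofReal (‖x i‖ ^ (2:ℝ)) := by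
      intro i
      have h9 := ofReal_lp_norm (Y := 𝕜) hq (x i)
      simp only [lpFN]
      have h10 : ∀ j : ℕ, ENNReal.ofReal (‖(x i : ℕ → 𝕜) j‖ ^ 2) ^ (r / 2)
          = ENNReal.ofReal ‖(x i : ℕ → 𝕜) j‖ ^ r := by
        intro j
        rw [ENNReal.ofReal_pow (norm_nonneg _), ← ENNReal.rpow_natCast, ← ENNReal.rpow_mul]
        congr 1
        push_cast
        ring
      simp only [h10]
      rw [← ENNReal.ofReal_rpow_of_nonneg (norm_nonneg _) (by norm_num), ← h9, ← ENNReal.rpow_mul,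
        ← hr]
      congr 1
      field_simp
    simp only [h8] at h7
    rw [← ENNReal.ofReal_sum_of_nonneg (fun i _ => Real.rpow_nonneg (norm_nonneg _) _), ← hSdef] at h7
    have h11 := ENNReal.rpow_le_rpow h7 (by positivity : 0 ≤ r / 2)
    rw [ENNReal.ofReal_rpow_of_nonneg hS (by positivity)] at h11
    refine le_trans (le_of_eq ?_) h11
    simp only [lpFN]
    rw [← ENNReal.rpow_mul, one_div_mul_cancel (by positivity), ENNReal.rpow_one]
  have key2 := (ENNReal.ofReal_le_ofReal_iff (by positivity)).1 key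
  have h12 := Real.rpow_le_rpow (av_nonneg (fun e => Real.rpow_nonneg (norm_nonneg _) _)) key2
    (by positivity : (0:ℝ) ≤ 1 / r)
  refine h12.trans (le_of_eq ?_)
  rw [Real.mul_rpow hB0 (by positivity), ← Real.rpow_mul hS]
  congr 2
  field_simp

end type

end Pool.Agent.Lib.MP_cdd7b4_an.H80
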