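import Pool.Agent.Lib.MP_cdd7b4_an.H80.Bound5
import Pool.Agent.Lib.MP_cdd7b4_an.H85.Hilb
import Pool.Agent.Lib.MP_cdd7b4_an.H85.Rade
import Pool.Agent.Lib.MP_cdd7b4_an.H85.Defs

set_option autoImplicit false
set_option linter.unusedSectionVars false

namespace Pool.Agent.Lib.MP_cdd7b4_an.H80

open MeasureTheory Filter Topology
open scoped BigOperators ENNReal

variable {𝕜 : Type*} [RCLike 𝕜] {X : Type*} [NormedAddCommGroup X] [NormedSpace 𝕜 X]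
  {S : Type*} [MeasurableSpace S] {Ω : Type*} [MeasurableSpace Ω] {ν : Measure Ω}
  {H : Type*} [NormedAddCommGroup H] [InnerProductSpace 𝕜 H]

theorem bound5 {ρ : (S → ℝ) → ℝ≥0∞} (hρ : FN ρ) {p M : ℝ} (hp1 : 1 ≤ p) (hp2 : p < 2)
    (hM0 : 0 ≤ M) (hcp : LConc ρ p M) (hc2 : LConc ρ 2 M)
    {ev : S → (X →ₗ[𝕜] H)} {c C : ℝ} (he : Emb ρ ev c C)
    {c' b : ℝ} (hb : 0 ≤ b) (hT : ∀ N, ∃ T : (Fin N → X) →ₗ[𝕜] Lp X 1 ν, Cop T c' b)
    {K : ℕ} (hK : 0 < K) (y : Fin K → X) (hy : ∀ k, ‖y k‖ ≤ 1) :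
    c * c' * av (fun e : Fin K → Bool => ‖∑ k, sg 𝕜 (e k) • y k‖)
      ≤ 6 * M ^ 2 * C * (b + 1) * Real.sqrt K := by
  set r := av (fun e : Fin K → Bool => ‖∑ k, sg 𝕜 (e k) • y k‖) with hr
  have hK' : (0:ℝ) < K := by exact_mod_cast hK
  have hp0 : 0 < p := by linarith
  set D := M ^ 2 * (((K:ℝ) ^ 2)⁻¹ ^ (1 / 2 - 1 / p) * (2 * C * ((b + 1) * K))) with hD
  have key : ∀ N : ℕ, 0 < N → c * c' * r
      ≤ (c * K) * (N:ℝ)⁻¹ + 6 * M ^ 2 * C * (b + 1) * Real.sqrt K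
        + D * (N:ℝ) ^ (-(1 / p - 1 / 2)) := by
    intro N hN
    have hN' : (0:ℝ) < N := by exact_mod_cast hN
    obtain ⟨T, hTc⟩ := hT N
    have h := bound5N hρ hp1 hp2 hM0 hcp hc2 he hb hTc hN hK y hy
    have e1 : (N:ℝ) ^ (1 - 1 / (2:ℝ)) = Real.sqrt N := by
      rw [Real.sqrt_eq_rpow]; norm_num
    have e2 : Real.sqrt (K:ℝ)⁻¹ * K = Real.sqrt K := by
      rw [Real.sqrt_inv]
      have := Real.mul_self_sqrt hK'.le
      have h0 : Real.sqrt (K:ℝ) ≠ 0 := (Real.sqrt_pos.2 hK').ne'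
      field_simp
      rw [sq, this]
    have e3 : (N:ℝ) ^ (1 - 1 / p) * Real.sqrt N = N * (N:ℝ) ^ (-(1 / p - 1 / 2)) := by
      nth_rewrite 3 [← Real.rpow_one (N:ℝ)]
      rw [Real.sqrt_eq_rpow, ← Real.rpow_add hN', ← Real.rpow_add hN']
      congr 1
      ring
    have e4 : Real.sqrt N * Real.sqrt N = N := Real.mul_self_sqrt hN'.le
    have e5 : (N:ℝ) * (c * (c' * r - (N:ℝ)⁻¹ * K)) = N * (c * c' * r - (c * K) * (N:ℝ)⁻¹) := by
      field_simp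
    have e6 : M * (M * (N:ℝ) ^ (1 - 1 / (2:ℝ)) * (2 * Real.sqrt K * (2 * C * ((b + 1)
          * Real.sqrt N)) + Real.sqrt (K:ℝ)⁻¹ * (2 * C * ((b + 1) * (Real.sqrt N * K))))
        + M * (N:ℝ) ^ (1 - 1 / p) * (((K:ℝ) ^ 2)⁻¹ ^ (1 / 2 - 1 / p)
          * (2 * C * ((b + 1) * (Real.sqrt N * K)))))
        = N * (6 * M ^ 2 * C * (b + 1) * Real.sqrt K + D * (N:ℝ) ^ (-(1 / p - 1 / 2))) := by
      rw [e1, hD]
      calc _ = M ^ 2 * (2 * C * (b + 1)) * ((Real.sqrt N * Real.sqrt N)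
            * (2 * Real.sqrt K + Real.sqrt (K:ℝ)⁻¹ * K))
          + M ^ 2 * ((N:ℝ) ^ (1 - 1 / p) * Real.sqrt N) * (((K:ℝ) ^ 2)⁻¹ ^ (1 / 2 - 1 / p)
            * (2 * C * ((b + 1) * K))) := by ring
        _ = _ := by rw [e2, e3, e4]; ring
    rw [e5, e6] at h
    have h2 := le_of_mul_le_mul_left h hN'
    linarith
  have t1 : Tendsto (fun N : ℕ => (c * K) * (N:ℝ)⁻¹ + 6 * M ^ 2 * C * (b + 1) * Real.sqrt K
        + D * (N:ℝ) ^ (-(1 / p - 1 / 2))) atTop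
      (𝓝 ((c * K) * 0 + 6 * M ^ 2 * C * (b + 1) * Real.sqrt K + D * 0)) := by
    refine Tendsto.add (Tendsto.add (tendsto_const_nhds.mul tendsto_inv_atTop_nhds_zero_nat)
      tendsto_const_nhds) (tendsto_const_nhds.mul ?_)
    have hpos : 0 < 1 / p - 1 / 2 := by
      rw [sub_pos]
      exact one_div_lt_one_div_of_lt hp0 hp2
    exact (tendsto_rpow_neg_atTop hpos).comp tendsto_natCast_atTop_atTop
  have h3 := ge_of_tendsto t1 (by
    filter_upwards [eventually_gt_atTop 0] with N hN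
    exact key N hN)
  linarith

/-- The square function bound for vectors of norm at most one. -/
theorem sq_unit {ρ : (S → ℝ) → ℝ≥0∞} (hρ : FN ρ) {p M : ℝ} (hp1 : 1 ≤ p) (hp2 : p < 2)
    (hM0 : 0 ≤ M) (hcp : LConc ρ p M) (hc2 : LConc ρ 2 M)
    {ev : S → (X →ₗ[𝕜] H)} {c C : ℝ} (he : Emb ρ ev c C)
    {c' b : ℝ} (hb : 0 ≤ b) (hc' : 0 < c')
    (hT : ∀ N, ∃ T : (Fin N → X) →ₗ[𝕜] Lp X 1 ν, Cop T c' b)
    {ι : Type*} [Fintype ι] (y : ι → X) (hy : ∀ k, ‖y k‖ ≤ 1) :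
    ρ (fun s => Real.sqrt (∑ i, ‖ev s (y i)‖ ^ 2))
      ≤ ENNReal.ofReal (12 * M ^ 2 * C ^ 2 * (b + 1) / (c * c')
          * Real.sqrt (Fintype.card ι)) := by
  classical
  have hc := he.hc
  have hC := he.hC
  set K := Fintype.card ι with hKdef
  rcases Nat.eq_zero_or_pos K with h0 | hK
  · have : IsEmpty ι := Fintype.card_eq_zero_iff.1 h0
    simp only [Finset.univ_eq_empty, Finset.sum_empty, Real.sqrt_zero]
    rw [hρ.zero]
    exact zero_le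
  · let e := Fintype.equivFin ι
    have h1 := bound5 hρ hp1 hp2 hM0 hcp hc2 he hb hT hK (fun k => y (e.symm k)) (fun k => hy _)
    have h2 := khinP hρ he (ι := Fin K) (m := 1) (fun _ => 1) (fun _ => zero_le_one)
      (fun k _ => y (e.symm k))
    simp only [Finset.univ_unique, Finset.sum_singleton, ENNReal.ofReal_one, one_mul] at h2
    have e1 : (fun s => Real.sqrt (∑ i, ‖ev s (y i)‖ ^ 2))
        = fun s => Real.sqrt (∑ k : Fin K, ‖ev s (y (e.symm k))‖ ^ 2) := by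
      funext s
      rw [Equiv.sum_comp e.symm (fun i => ‖ev s (y i)‖ ^ 2)]
    rw [e1]
    refine h2.trans (ENNReal.ofReal_le_ofReal ?_)
    have hcc : 0 < c * c' := mul_pos hc hc'
    have h3 : av (fun e' : Fin K → Bool => ‖∑ k, sg 𝕜 (e' k) • y (e.symm k)‖)
        ≤ 6 * M ^ 2 * C * (b + 1) * Real.sqrt K / (c * c') := by
      rw [le_div_iff₀ hcc, mul_comm]; exact h1
    calc 2 * C * av (fun e' : Fin K → Bool => ‖∑ k, sg 𝕜 (e' k) • y (e.symm k)‖)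
        ≤ 2 * C * (6 * M ^ 2 * C * (b + 1) * Real.sqrt K / (c * c')) :=
          mul_le_mul_of_nonneg_left h3 (by positivity)
      _ = _ := by ring

/-- The square function bound for arbitrary vectors. -/
theorem sq_general {ρ : (S → ℝ) → ℝ≥0∞} (hρ : FN ρ) {p M : ℝ} (hp1 : 1 ≤ p) (hp2 : p < 2)
    (hM0 : 0 ≤ M) (hcp : LConc ρ p M) (hc2 : LConc ρ 2 M)
    {ev : S → (X →ₗ[𝕜] H)} {c C : ℝ} (he : Emb ρ ev c C)
    {c' b : ℝ} (hb : 0 ≤ b) (hc' : 0 < c')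
    (hT : ∀ N, ∃ T : (Fin N → X) →ₗ[𝕜] Lp X 1 ν, Cop T c' b)
    {n : ℕ} (y : Fin n → X) :
    ρ (fun s => Real.sqrt (∑ i, ‖ev s (y i)‖ ^ 2))
      ≤ ENNReal.ofReal (12 * M ^ 2 * C ^ 2 * (b + 1) / (c * c')
          * Real.sqrt (∑ i, ‖y i‖ ^ 2)) := by
  classical
  have hc := he.hc
  have hC := he.hC
  set D := 12 * M ^ 2 * C ^ 2 * (b + 1) / (c * c') with hD
  have hD0 : 0 ≤ D := by positivity
  have hsm : Measurable (fun s => Real.sqrt (∑ i, ‖ev s (y i)‖ ^ 2)) :=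
    (Finset.measurable_sum _ (fun i _ => (he.meas _).pow_const 2)).sqrt
  have key : ∀ L : ℕ, 0 < L → ρ (fun s => Real.sqrt (∑ i, ‖ev s (y i)‖ ^ 2))
      ≤ ENNReal.ofReal (D * Real.sqrt (∑ i, ‖y i‖ ^ 2 + 2 * n * (L:ℝ)⁻¹)) := by
    intro L hL
    have hL' : (0:ℝ) < L := by exact_mod_cast hL
    set mm : Fin n → ℕ := fun j => ⌈(L:ℝ) * ‖y j‖ ^ 2⌉₊ + 1 with hmm
    have hmp : ∀ j, (0:ℝ) < mm j := fun j => by
      have : 0 < mm j := Nat.succ_pos _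
      exact_mod_cast this
    set z : (Σ j : Fin n, Fin (mm j)) → X := fun i =>
      ((Real.sqrt (L / mm i.1) : ℝ) : 𝕜) • y i.1 with hz
    have hnz : ∀ i, ‖z i‖ ≤ 1 := by
      intro i
      have h1 : ‖z i‖ ^ 2 ≤ 1 := by
        simp only [hz]
        rw [norm_smul, RCLike.norm_ofReal, abs_of_nonneg (Real.sqrt_nonneg _), mul_pow,
          Real.sq_sqrt (by positivity), div_mul_eq_mul_div, div_le_one (hmp _)]
        simp only [hmm]
        push_cast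
        linarith [Nat.le_ceil ((L:ℝ) * ‖y i.1‖ ^ 2)]
      exact (sq_le_one_iff₀ (norm_nonneg _)).1 h1
    have h2 := sq_unit hρ hp1 hp2 hM0 hcp hc2 he hb hc' hT z hnz
    have e1 : (fun s => Real.sqrt (∑ i, ‖ev s (z i)‖ ^ 2))
        = fun s => Real.sqrt L * Real.sqrt (∑ i, ‖ev s (y i)‖ ^ 2) := by
      funext s
      rw [← Real.sqrt_mul hL'.le]
      congr 1
      rw [Fintype.sum_sigma, Finset.mul_sum]
      refine Finset.sum_congr rfl (fun j _ => ?_)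
      simp only [hz, map_smul, norm_smul, RCLike.norm_ofReal, abs_of_nonneg (Real.sqrt_nonneg _),
        mul_pow, Finset.sum_const, Finset.card_univ, Fintype.card_fin, nsmul_eq_mul]
      rw [Real.sq_sqrt (by positivity)]
      have := (hmp j).ne'
      field_simp
    rw [e1, hρ.smul _ _ (Real.sqrt_nonneg _) hsm (fun s => Real.sqrt_nonneg _)] at h2
    have hcard : (Fintype.card (Σ j : Fin n, Fin (mm j)) : ℝ) ≤ L * (∑ i, ‖y i‖ ^ 2
        + 2 * n * (L:ℝ)⁻¹) := by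
      rw [Fintype.card_sigma]
      push_cast
      simp only [Fintype.card_fin]
      have h3 : ∀ j, (mm j : ℝ) ≤ L * ‖y j‖ ^ 2 + 2 := by
        intro j
        simp only [hmm]
        push_cast
        linarith [Nat.ceil_lt_add_one (by positivity : 0 ≤ (L:ℝ) * ‖y j‖ ^ 2)]
      refine (Finset.sum_le_sum (fun j _ => h3 j)).trans (le_of_eq ?_)
      rw [Finset.sum_add_distrib, ← Finset.mul_sum]
      simp only [Finset.sum_const, Finset.card_univ, Fintype.card_fin, nsmul_eq_mul]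
      field_simp
    have h4 : ENNReal.ofReal (Real.sqrt L) * ρ (fun s => Real.sqrt (∑ i, ‖ev s (y i)‖ ^ 2))
        ≤ ENNReal.ofReal (Real.sqrt L) * ENNReal.ofReal (D * Real.sqrt (∑ i, ‖y i‖ ^ 2
          + 2 * n * (L:ℝ)⁻¹)) := by
      refine h2.trans ?_
      rw [← ENNReal.ofReal_mul (Real.sqrt_nonneg _)]
      refine ENNReal.ofReal_le_ofReal ?_
      have h5 := Real.sqrt_le_sqrt hcard
      rw [Real.sqrt_mul hL'.le] at h5
      calc D * Real.sqrt (Fintype.card (Σ j : Fin n, Fin (mm j)))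
          ≤ D * (Real.sqrt L * Real.sqrt (∑ i, ‖y i‖ ^ 2 + 2 * n * (L:ℝ)⁻¹)) :=
            mul_le_mul_of_nonneg_left h5 hD0
        _ = _ := by ring
    exact (ENNReal.mul_le_mul_iff_right (by simpa using hL) ENNReal.ofReal_ne_top).1 h4
  have t1 : Tendsto (fun L : ℕ => ENNReal.ofReal (D * Real.sqrt (∑ i, ‖y i‖ ^ 2
      + 2 * n * (L:ℝ)⁻¹))) atTop
      (𝓝 (ENNReal.ofReal (D * Real.sqrt (∑ i, ‖y i‖ ^ 2 + 2 * n * 0)))) := by
    refine ENNReal.tendsto_ofReal (tendsto_const_nhds.mul ?_)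
    refine (Real.continuous_sqrt.tendsto _).comp ?_
    exact tendsto_const_nhds.add (tendsto_const_nhds.mul tendsto_inv_atTop_nhds_zero_nat)
  have h := ge_of_tendsto t1 (by
    filter_upwards [eventually_gt_atTop 0] with L hL
    exact key L hL)
  simpa using h

universe u

/-- Parseval: domination of all scalar functionals gives domination in a Hilbert space. -/
lemma hilbert_dom {X : Type*} [NormedAddCommGroup X] [NormedSpace 𝕜 X] (L : X →ₗ[𝕜] H) {m m' : ℕ}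
    (x : Fin m → X) (y : Fin m' → X)
    (hxy : ∀ ξ : X →ₗ[𝕜] 𝕜, ∑ i, ‖ξ (x i)‖ ^ 2 ≤ ∑ j, ‖ξ (y j)‖ ^ 2) :
    ∑ i, ‖L (x i)‖ ^ 2 ≤ ∑ j, ‖L (y j)‖ ^ 2 := by
  classical
  let V : Submodule 𝕜 H := Submodule.span 𝕜
    ((Set.range fun i => L (x i)) ∪ (Set.range fun j => L (y j)))
  have hfin : FiniteDimensional 𝕜 V := by
    apply FiniteDimensional.span_of_finite
    exact (Set.finite_range _).union (Set.finite_range _)
  have hx : ∀ i, L (x i) ∈ V := fun i => Submodule.subset_span (Or.inl ⟨i, rfl⟩)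
  have hy : ∀ j, L (y j) ∈ V := fun j => Submodule.subset_span (Or.inr ⟨j, rfl⟩)
  let B := stdOrthonormalBasis 𝕜 V
  have key : ∀ v : H, ∀ hv : v ∈ V, ‖v‖ ^ 2 = ∑ b, ‖inner 𝕜 ((B b : V) : H) v‖ ^ 2 := by
    intro v hv
    exact (B.sum_sq_norm_inner_right ⟨v, hv⟩).symm
  have e1 : ∑ i, ‖L (x i)‖ ^ 2 = ∑ b, ∑ i, ‖inner 𝕜 ((B b : V) : H) (L (x i))‖ ^ 2 := by
    rw [Finset.sum_comm]
    exact Finset.sum_congr rfl (fun i _ => key _ (hx i))
  have e2 : ∑ j, ‖L (y j)‖ ^ 2 = ∑ b, ∑ j, ‖inner 𝕜 ((B b : V) : H) (L (y j))‖ ^ 2 := by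
    rw [Finset.sum_comm]
    exact Finset.sum_congr rfl (fun j _ => key _ (hy j))
  rw [e1, e2]
  refine Finset.sum_le_sum (fun b _ => ?_)
  exact hxy ((innerSL 𝕜 ((B b : V) : H)).toLinearMap.comp L)

/-- Necessity: if `X` embeds in `E(H)`, `E` a `p`-concave Banach function space, `1 ≤ p < 2`, `H` a
Hilbert space, and `L¹(ν, X)` contains the `ℓ₂^N(X)` uniformly, then `X` is isomorphic to a
Hilbert space. -/
theorem main5 {X : Type u} [NormedAddCommGroup X] [NormedSpace 𝕜 X] [CompleteSpace X]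
    {μ : Measure S} (ρ : FunctionNorm μ) {p : ℝ} (hp1 : 1 ≤ p) (hp2 : p < 2)
    (hρ : ρ.IsConcave p) (hX : EmbedsIn 𝕜 ρ H X)
    (h : ContainsUniformly 𝕜 (Lp X 1 ν) X) :
    H85.IsHilbertian 𝕜 X := by
  obtain ⟨M0, hM0⟩ := hρ
  set M := max M0 0 with hMdef
  have hMn : 0 ≤ M := le_max_right _ _
  have hM : ∀ (n : ℕ) (f : Fin n → S → ℝ), (∀ i, Measurable (f i)) → (∀ i s, 0 ≤ f i s) →
      (∑ i, ρ.toFun (f i) ^ p) ^ (1 / p)
        ≤ ENNReal.ofReal M * ρ.toFun (fun s => (∑ i, f i s ^ p) ^ (1 / p)) := by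
    intro n f hf h0
    refine (hM0 n f hf h0).trans ?_
    gcongr
    exact le_max_left _ _
  obtain ⟨ev, c, C, he⟩ := emb_of_embedsIn hX
  obtain ⟨c', b0, hc', hT0⟩ := h
  set b := max b0 0 with hbdef
  have hb : 0 ≤ b := le_max_right _ _
  have hT : ∀ N, ∃ T : (Fin N → X) →ₗ[𝕜] Lp X 1 ν, Cop T c' b := by
    intro N
    obtain ⟨T, hT1⟩ := hT0 N
    refine ⟨T, ⟨fun z => (hT1 z).1, fun z => (hT1 z).2.trans ?_⟩⟩
    exact mul_le_mul_of_nonneg_right (le_max_left _ _) (Real.sqrt_nonneg _)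
  have hcp : LConc ρ.toFun p M := lconc_of_concave hp1 le_rfl hM
  have hc2 : LConc ρ.toFun 2 M := lconc_of_concave hp1 hp2.le hM
  set D := 12 * M ^ 2 * C ^ 2 * (b + 1) / (c * c') with hD
  have hc := he.hc
  have hC := he.hC
  have hD0 : 0 ≤ D := by positivity
  refine H85.hilbert_of_sums (𝕜 := 𝕜) (K := (M * D / c) ^ 2) (fun m m' x y hxy => ?_)
  have hym : Measurable (fun s => Real.sqrt (∑ i, ‖ev s (y i)‖ ^ 2)) :=
    (Finset.measurable_sum _ (fun i _ => (he.meas _).pow_const 2)).sqrt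
  have hxm : Measurable (fun s => Real.sqrt (∑ i, ‖ev s (x i)‖ ^ 2)) :=
    (Finset.measurable_sum _ (fun i _ => (he.meas _).pow_const 2)).sqrt
  have h1 : ρ.toFun (fun s => Real.sqrt (∑ i, ‖ev s (x i)‖ ^ 2))
      ≤ ENNReal.ofReal (D * Real.sqrt (∑ i, ‖y i‖ ^ 2)) := by
    refine (ρ.fn.mono _ _ hxm hym (fun s => Real.sqrt_nonneg _)
      (fun s => Real.sqrt_le_sqrt (hilbert_dom (ev s) x y hxy))).trans ?_
    exact sq_general ρ.fn hp1 hp2 hMn hcp hc2 he hb hc' hT y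
  have h2 := two_concave hp1 hp2 hMn hM (fun i s => ‖ev s (x i)‖) (fun i => he.meas _)
    (fun i s => norm_nonneg _) (fun i => c * ‖x i‖) (fun i => by positivity)
    (fun i => he.low _) (by positivity) h1
  have h3 : ∑ i, (c * ‖x i‖) ^ 2 ≤ (M * (D * Real.sqrt (∑ i, ‖y i‖ ^ 2))) ^ 2 :=
    (Real.sqrt_le_left (by positivity)).1 h2
  have h4 : ∑ i, (c * ‖x i‖) ^ 2 = c ^ 2 * ∑ i, ‖x i‖ ^ 2 := by
    rw [Finset.mul_sum]
    exact Finset.sum_congr rfl (fun i _ => by ring)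
  have h5 : (M * (D * Real.sqrt (∑ i, ‖y i‖ ^ 2))) ^ 2 = M ^ 2 * D ^ 2 * ∑ i, ‖y i‖ ^ 2 := by
    have : Real.sqrt (∑ i, ‖y i‖ ^ 2) ^ 2 = ∑ i, ‖y i‖ ^ 2 :=
      Real.sq_sqrt (Finset.sum_nonneg (fun _ _ => sq_nonneg _))
    calc _ = M ^ 2 * D ^ 2 * Real.sqrt (∑ i, ‖y i‖ ^ 2) ^ 2 := by ring
      _ = _ := by rw [this]
  rw [h4, h5] at h3
  have h6 : (M * D / c) ^ 2 * ∑ j, ‖y j‖ ^ 2 = (M ^ 2 * D ^ 2 * ∑ j, ‖y j‖ ^ 2) / c ^ 2 := by
    field_simp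
  rw [h6, le_div_iff₀ (by positivity), mul_comm]
  exact h3

section lpsum
variable {X : Type*} [NormedAddCommGroup X] [NormedSpace 𝕜 X]

/-- `X^N` inside `ℓ²(X)`. -/
noncomputable def SvL (𝕜 : Type*) [RCLike 𝕜] (X : Type*) [NormedAddCommGroup X]
    [NormedSpace 𝕜 X] (N : ℕ) : (Fin N → X) →ₗ[𝕜] lp (fun _ : ℕ => X) 2 :=
  ∑ n : Fin N, (lp.lsingle (𝕜 := 𝕜) (E := fun _ : ℕ => X) 2 (n:ℕ)).comp (LinearMap.proj n)

lemma norm_SvL {N : ℕ} (z : Fin N → X) : ‖SvL 𝕜 X N z‖ = Real.sqrt (∑ n, ‖z n‖ ^ 2) := by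
  have e1 : SvL 𝕜 X N z = ∑ n : Fin N, lp.single (E := fun _ : ℕ => X) 2 (n:ℕ) (z n) := by
    simp only [SvL, LinearMap.sum_apply, LinearMap.comp_apply, LinearMap.proj_apply]
    rfl
  have e2 : SvL 𝕜 X N z = ∑ i ∈ Finset.range N, lp.single (E := fun _ : ℕ => X) 2 i
      (if h : i < N then z ⟨i, h⟩ else 0) := by
    rw [Finset.sum_range, e1]
    refine Finset.sum_congr rfl (fun n _ => ?_)
    simp
  have e3 := lp.norm_sum_single (E := fun _ : ℕ => X) (p := 2) (by norm_num)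
    (fun i => if h : i < N then z ⟨i, h⟩ else 0) (Finset.range N)
  rw [← e2, Finset.sum_range] at e3
  simp only [ENNReal.toReal_ofNat, Real.rpow_ofNat, Fin.is_lt, dite_true, Fin.eta] at e3
  rw [← e3, Real.sqrt_sq (norm_nonneg _)]

lemma uniform_of_copy {W : Type*} [NormedAddCommGroup W] [NormedSpace 𝕜 W]
    (h : H85.ContainsCopy 𝕜 W (lp (fun _ : ℕ => X) 2)) : ContainsUniformly 𝕜 W X := by
  obtain ⟨T, c, hc, hT⟩ := h
  refine ⟨c, ‖T‖, hc, fun N => ⟨T.toLinearMap.comp (SvL 𝕜 X N), fun z => ?_⟩⟩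
  have h1 := hT (SvL 𝕜 X N z)
  have h2 := T.le_opNorm (SvL 𝕜 X N z)
  rw [norm_SvL] at h1 h2
  exact ⟨h1, h2⟩

end lpsum

end Pool.Agent.Lib.MP_cdd7b4_an.H80
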