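import Pool.Agent.Lib.MP_cdd7b4_an.H80.Bound6

set_option autoImplicit false
set_option linter.unusedSectionVars false

namespace Pool.Agent.Lib.MP_cdd7b4_an.H80

open MeasureTheory Filter Topology
open scoped BigOperators ENNReal

variable {𝕜 : Type*} [RCLike 𝕜] {X : Type*} [NormedAddCommGroup X] [NormedSpace 𝕜 X]
  {S : Type*} [MeasurableSpace S] {Ω : Type*} [MeasurableSpace Ω] {ν : Measure Ω}
  {Y : Type*} [NormedAddCommGroup Y] [NormedSpace 𝕜 Y]

theorem bound6N {μ : Measure S} {r : FunctionNorm μ} {p q M : ℝ} (hp : 1 ≤ p) (hpq : p ≤ q)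
    (hq2 : q < 2) (hM0 : 0 < M)
    (hM : ∀ (n : ℕ) (f : Fin n → S → ℝ), (∀ i, Measurable (f i)) → (∀ i s, 0 ≤ f i s) →
    (∑ i, r.toFun (f i) ^ p) ^ (1 / p)
      ≤ ENNReal.ofReal M * r.toFun (fun s => (∑ i, f i s ^ p) ^ (1 / p)))
    {ev : S → (X →ₗ[𝕜] Y)} {c C : ℝ} (he : Emb r.toFun ev c C) {t Ty : ℝ} (hTy0 : 0 ≤ Ty)
    (hTy : ∀ (n : ℕ) (x : Fin n → Y), r2 𝕜 x ≤ Ty * (∑ i, ‖x i‖ ^ t) ^ (1 / t))
    {N K : ℕ} (hN : 0 < N) {T : (Fin N → X) →ₗ[𝕜] Lp X 1 ν} {c' b : ℝ} (hc' : 0 ≤ c')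
    (hb : 0 ≤ b) (hT : Cop T c' b) (y : Fin K → X) {I : Type*} [Fintype I] [Nonempty I]
    (π : I → Fin K) (β : I → ℝ) (hβ0 : ∀ i, 0 ≤ β i) (hβ : ∀ i, β i * ‖y (π i)‖ ≤ 1)
    {βm : ℝ} (hβm0 : 0 < βm) (hβm : ∀ i, β i ≤ βm) {H : ℝ} (hH0 : 0 ≤ H)
    (hH : ∀ u : Fin K → ℝ, (∀ k, 0 ≤ u k) →
      (∑ k, u k ^ t) ^ (1 / t) ≤ H * (∑ i, (β i * u (π i)) ^ q) ^ (1 / q)) :
    N * (c * (c' * r2 𝕜 y - (N * (βm * (4 * N)) : ℝ)⁻¹ * K))
      ≤ M * Ty * (H * ((M * (N:ℝ) ^ (1 - 1 / q) * ((Fintype.card I : ℝ) ^ (1 / q) * 4)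
          + M * (N:ℝ) ^ (1 - 1 / p) * (2 * Fintype.card I)) *
        (C * (b * Real.sqrt (Zq q) + 1) * (4 * N : ℝ) ^ (1 / q)))) := by
  classical
  have hp0 : 0 < p := by linarith
  have hq1 : 1 ≤ q := hp.trans hpq
  have hq0 : 0 < q := by linarith
  have hp2 : p < 2 := by linarith
  have hN' : (0:ℝ) < N := by exact_mod_cast hN
  have hNZ : NeZero (4 * N) := ⟨by omega⟩
  have hC := he.hC
  have hc := he.hc
  have hρ := r.fn
  have hcp : LConc r.toFun p M := lconc_of_concave hp le_rfl hM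
  have hcq : LConc r.toFun q M := lconc_of_concave hp hpq hM
  set δ : ℝ := (N * (βm * (4 * N)) : ℝ)⁻¹ with hδ
  have hδpos : 0 < δ := by positivity
  obtain ⟨m, w, v, hw, hv⟩ := exists_array hT K y hδpos
  have hcastN : ((4 * N : ℕ) : ℝ) = 4 * N := by push_cast; ring
  -- diagonals
  have hdiag := diag6 hρ hq1 hq2 he (N := N) (K := K) (N' := 4 * N) (by omega) y π β hβ0 hβ hβm w v hw
    hb hδpos.le (by
      rw [hcastN, hδ]
      exact (inv_mul_cancel₀ (by positivity)).le) (fun α => (hv α).1)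
  rw [hcastN] at hdiag
  -- rows
  have hr : ∀ n0 : Fin N, ENNReal.ofReal (c * (c' * r2 𝕜 y - δ * K))
      ≤ ENNReal.ofReal (M * Ty) * ∑ θ, ENNReal.ofReal (w θ)
        * r.toFun (fun s => (∑ k, ‖ev s (v n0 k θ)‖ ^ t) ^ (1 / t)) := by
    intro n0
    refine row_low6 hp hp2 hM0 hM he hTy0 hTy w hw (fun k θ => v n0 k θ) y hc' (by positivity)
      (fun e => ?_)
    have h2 := (hv (fun n k => if n = n0 then sg 𝕜 (e k) else 0)).2
    have e1 : ∀ (n : Fin N), ∑ k, (if n = n0 then sg 𝕜 (e k) else (0:𝕜)) • y k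
        = if n = n0 then ∑ k, sg 𝕜 (e k) • y k else 0 := by
      intro n; split_ifs <;> simp
    have e2 : ∀ (θ : Fin m) (n : Fin N), ∑ k, (if n = n0 then sg 𝕜 (e k) else (0:𝕜)) • v n k θ
        = if n = n0 then ∑ k, sg 𝕜 (e k) • v n k θ else 0 := by
      intro θ n; split_ifs <;> simp
    have e3 : ∀ (n : Fin N), ∑ k : Fin K, ‖(if n = n0 then sg 𝕜 (e k) else (0:𝕜))‖
        = if n = n0 then (K:ℝ) else 0 := by
      intro n; split_ifs <;> simp [norm_sg]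
    simp only [e1, e2, e3, Finset.sum_ite_eq', Finset.mem_univ, if_true] at h2
    have e4 : ∑ n : Fin N, ‖(if n = n0 then ∑ k, sg 𝕜 (e k) • y k else 0)‖ ^ 2
        = ‖∑ k, sg 𝕜 (e k) • y k‖ ^ 2 := by
      have : ∀ n : Fin N, ‖(if n = n0 then ∑ k, sg 𝕜 (e k) • y k else 0)‖ ^ 2
          = if n = n0 then ‖∑ k, sg 𝕜 (e k) • y k‖ ^ 2 else 0 := by
        intro n; split_ifs <;> simp
      simp only [this, Finset.sum_ite_eq', Finset.mem_univ, if_true]
    rw [e4, Real.sqrt_sq (norm_nonneg _)] at h2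
    exact h2
  -- passage to the columns `I`
  have hcol : ∀ (n : Fin N) (θ : Fin m), r.toFun (fun s => (∑ k, ‖ev s (v n k θ)‖ ^ t) ^ (1 / t))
      ≤ ENNReal.ofReal H * r.toFun (fun s =>
        (∑ i, (β i * ‖ev s (v n (π i) θ)‖) ^ q) ^ (1 / q)) := by
    intro n θ
    have hm1 : Measurable (fun s => (∑ i, (β i * ‖ev s (v n (π i) θ)‖) ^ q) ^ (1 / q)) :=
      (Finset.measurable_sum _ (fun i _ => ((he.meas _).const_mul _).pow_const _)).pow_const _
    have hm0 : ∀ s, 0 ≤ (∑ i, (β i * ‖ev s (v n (π i) θ)‖) ^ q) ^ (1 / q) := fun s =>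
      Real.rpow_nonneg (Finset.sum_nonneg (fun i _ => Real.rpow_nonneg
        (mul_nonneg (hβ0 i) (norm_nonneg _)) _)) _
    rw [← hρ.smul _ _ hH0 hm1 hm0]
    refine hρ.mono _ _ ?_ (hm1.const_mul _) ?_ ?_
    · exact (Finset.measurable_sum _ (fun i _ => (he.meas _).pow_const _)).pow_const _
    · exact fun s => Real.rpow_nonneg
        (Finset.sum_nonneg (fun i _ => Real.rpow_nonneg (norm_nonneg _) _)) _
    · intro s
      exact hH (fun k => ‖ev s (v n k θ)‖) (fun k => norm_nonneg _)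
  -- core
  have hcore : ∀ θ, _ := fun θ => core6 (N' := 4 * N) hρ hp hq1 hcp hcq le_rfl
    (fun (n : Fin N) (i : I) s => β i * ‖ev s (v n (π i) θ)‖)
    (fun n i => (he.meas _).const_mul _) (fun n i s => mul_nonneg (hβ0 i) (norm_nonneg _))
    (fun κ s => av (fun e : Fin N → Bool =>
        ‖ev s (∑ n, sg 𝕜 (e n) • (((β (κ n).1 * wt (4 * N) q (κ n).2 : ℝ) : 𝕜)
          • v n (π (κ n).1) θ))‖))
    (fun κ => (Finset.measurable_sum _ (fun e _ => he.meas _)).const_mul _)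
    (fun κ s => av_nonneg (fun _ => norm_nonneg _))
    (fun κ n s => by
      have h1 := rs_full_le (𝕜 := 𝕜) (fun n' : Fin N => ev s (((β (κ n').1
        * wt (4 * N) q (κ n').2 : ℝ) : 𝕜) • v n' (π (κ n').1) θ)) n
      have e1 : ∀ e : Fin N → Bool, ev s (∑ n', sg 𝕜 (e n') • (((β (κ n').1
          * wt (4 * N) q (κ n').2 : ℝ) : 𝕜) • v n' (π (κ n').1) θ))
          = ∑ n', sg 𝕜 (e n') • ev s (((β (κ n').1
          * wt (4 * N) q (κ n').2 : ℝ) : 𝕜) • v n' (π (κ n').1) θ) := by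
        intro e
        rw [map_sum]
        exact Finset.sum_congr rfl (fun n' _ => map_smul _ _ _)
      simp only [e1]
      refine le_trans (le_of_eq ?_) h1
      rw [map_smul, norm_smul, RCLike.norm_ofReal,
        abs_of_nonneg (mul_nonneg (hβ0 _) (wt_pos hq0 _).le)]
      ring)
  set E1 := ENNReal.ofReal (M * (N:ℝ) ^ (1 - 1 / q)) *
            ENNReal.ofReal ((Fintype.card I : ℝ) ^ (1 / q) * 4)
          + ENNReal.ofReal (M * (N:ℝ) ^ (1 - 1 / p)) * ENNReal.ofReal (2 * Fintype.card I) with hE1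
  have hlow : ENNReal.ofReal (N * (c * (c' * r2 𝕜 y - δ * K)))
      ≤ ENNReal.ofReal (M * Ty) * (ENNReal.ofReal H * (E1 *
        ENNReal.ofReal (C * (b * Real.sqrt (Zq q) + 1) * (4 * N : ℝ) ^ (1 / q)))) := by
    rw [ENNReal.ofReal_mul hN'.le, ENNReal.ofReal_natCast]
    have h1 := Finset.sum_le_sum (s := Finset.univ) (fun n (_ : n ∈ Finset.univ) => hr n)
    rw [Finset.sum_const, Finset.card_univ, Fintype.card_fin, nsmul_eq_mul, ← Finset.mul_sum,
      Finset.sum_comm] at h1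
    refine h1.trans ?_
    gcongr
    calc ∑ θ, ∑ n, ENNReal.ofReal (w θ)
          * r.toFun (fun s => (∑ k, ‖ev s (v n k θ)‖ ^ t) ^ (1 / t))
        ≤ ∑ θ, ENNReal.ofReal (w θ) * (ENNReal.ofReal H * ∑ n, r.toFun (fun s =>
            (∑ i, (β i * ‖ev s (v n (π i) θ)‖) ^ q) ^ (1 / q))) := by
          refine Finset.sum_le_sum (fun θ _ => ?_)
          rw [← Finset.mul_sum, Finset.mul_sum (a := ENNReal.ofReal H)]
          gcongr with n _
          exact hcol n θ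
      _ ≤ ∑ θ, ENNReal.ofReal (w θ) * (ENNReal.ofReal H * (E1 *
          (ENNReal.ofReal ((Fintype.card (Fin N → I × Fin (4 * N)) : ℝ)⁻¹)
            * ∑ κ : Fin N → I × Fin (4 * N), r.toFun (fun s => av (fun e : Fin N → Bool =>
              ‖ev s (∑ n, sg 𝕜 (e n) • (((β (κ n).1 * wt (4 * N) q (κ n).2 : ℝ) : 𝕜)
              • v n (π (κ n).1) θ))‖))))) := by
          refine Finset.sum_le_sum (fun θ _ => ?_)
          gcongr
          exact hcore θ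
      _ = ENNReal.ofReal H * (E1 * (ENNReal.ofReal
          ((Fintype.card (Fin N → I × Fin (4 * N)) : ℝ)⁻¹) * ∑ κ : Fin N → I × Fin (4 * N), ∑ θ,
            ENNReal.ofReal (w θ) * r.toFun (fun s => av (fun e : Fin N → Bool =>
              ‖ev s (∑ n, sg 𝕜 (e n) • (((β (κ n).1 * wt (4 * N) q (κ n).2 : ℝ) : 𝕜)
              • v n (π (κ n).1) θ))‖)))) := by
          rw [Finset.sum_comm]
          simp only [Finset.mul_sum]
          refine Finset.sum_congr rfl (fun θ _ => Finset.sum_congr rfl (fun κ _ => ?_))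
          ring
      _ ≤ _ := by gcongr
  have hKI : (0:ℝ) < Fintype.card I := by exact_mod_cast Fintype.card_pos
  have hZ := Zq_nonneg q
  have hfin : ENNReal.ofReal (N * (c * (c' * r2 𝕜 y - δ * K)))
      ≤ ENNReal.ofReal (M * Ty * (H * ((M * (N:ℝ) ^ (1 - 1 / q) * ((Fintype.card I : ℝ) ^ (1 / q) * 4)
          + M * (N:ℝ) ^ (1 - 1 / p) * (2 * Fintype.card I)) *
        (C * (b * Real.sqrt (Zq q) + 1) * (4 * N : ℝ) ^ (1 / q))))) := by
    refine hlow.trans (le_of_eq ?_)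
    rw [ENNReal.ofReal_mul (p := M * Ty) (by positivity), ENNReal.ofReal_mul (p := H) hH0,
      ENNReal.ofReal_mul (p := M * (N:ℝ) ^ (1 - 1 / q) * ((Fintype.card I : ℝ) ^ (1 / q) * 4)
          + M * (N:ℝ) ^ (1 - 1 / p) * (2 * Fintype.card I)) (by positivity),
      ENNReal.ofReal_add (by positivity) (by positivity),
      ENNReal.ofReal_mul (p := M * (N:ℝ) ^ (1 - 1 / q)) (by positivity),
      ENNReal.ofReal_mul (p := M * (N:ℝ) ^ (1 - 1 / p)) (by positivity)]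
  exact (ENNReal.ofReal_le_ofReal_iff (by positivity)).1 hfin

theorem bound6 {μ : Measure S} {r : FunctionNorm μ} {p q M : ℝ} (hp : 1 ≤ p) (hpq : p < q)
    (hq2 : q < 2) (hM0 : 0 < M)
    (hM : ∀ (n : ℕ) (f : Fin n → S → ℝ), (∀ i, Measurable (f i)) → (∀ i s, 0 ≤ f i s) →
    (∑ i, r.toFun (f i) ^ p) ^ (1 / p)
      ≤ ENNReal.ofReal M * r.toFun (fun s => (∑ i, f i s ^ p) ^ (1 / p)))
    {ev : S → (X →ₗ[𝕜] Y)} {c C : ℝ} (he : Emb r.toFun ev c C) {t Ty : ℝ} (hTy0 : 0 ≤ Ty)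
    (hTy : ∀ (n : ℕ) (x : Fin n → Y), r2 𝕜 x ≤ Ty * (∑ i, ‖x i‖ ^ t) ^ (1 / t))
    {K : ℕ} {c' b : ℝ} (hc' : 0 ≤ c') (hb : 0 ≤ b)
    (hT : ∀ N, ∃ T : (Fin N → X) →ₗ[𝕜] Lp X 1 ν, Cop T c' b)
    (y : Fin K → X) {I : Type*} [Fintype I] [Nonempty I]
    (π : I → Fin K) (β : I → ℝ) (hβ0 : ∀ i, 0 ≤ β i) (hβ : ∀ i, β i * ‖y (π i)‖ ≤ 1)
    {βm : ℝ} (hβm0 : 0 < βm) (hβm : ∀ i, β i ≤ βm) {H : ℝ} (hH0 : 0 ≤ H)
    (hH : ∀ u : Fin K → ℝ, (∀ k, 0 ≤ u k) →
      (∑ k, u k ^ t) ^ (1 / t) ≤ H * (∑ i, (β i * u (π i)) ^ q) ^ (1 / q)) :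
    c * c' * r2 𝕜 y ≤ (4 * M ^ 2 * Ty * C * (b * Real.sqrt (Zq q) + 1) * (4:ℝ) ^ (1 / q))
      * (H * (Fintype.card I : ℝ) ^ (1 / q)) := by
  have hp0 : 0 < p := by linarith
  have hq0 : 0 < q := by linarith
  set F := C * (b * Real.sqrt (Zq q) + 1) * (4:ℝ) ^ (1 / q) with hF
  set A2 := M * Ty * H * M * (2 * Fintype.card I) * F with hA2
  set A1 := (4 * M ^ 2 * Ty * C * (b * Real.sqrt (Zq q) + 1) * (4:ℝ) ^ (1 / q))
      * (H * (Fintype.card I : ℝ) ^ (1 / q)) with hA1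
  have key : ∀ N : ℕ, 0 < N → c * c' * r2 𝕜 y
      ≤ (c * K * (4 * βm)⁻¹) * ((N:ℝ)⁻¹ * (N:ℝ)⁻¹) + A1 + A2 * (N:ℝ) ^ (-(1 / p - 1 / q)) := by
    intro N hN
    have hN' : (0:ℝ) < N := by exact_mod_cast hN
    obtain ⟨T, hTc⟩ := hT N
    have h := bound6N hp hpq.le hq2 hM0 hM he hTy0 hTy hN hc' hb hTc y π β hβ0 hβ hβm0 hβm hH0 hH
    have e0 : (4 * N : ℝ) ^ (1 / q) = (4:ℝ) ^ (1 / q) * (N:ℝ) ^ (1 / q) :=
      Real.mul_rpow (by norm_num) hN'.le
    have e1 : (N:ℝ) ^ (1 - 1 / q) * (N:ℝ) ^ (1 / q) = N := by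
      rw [← Real.rpow_add hN']
      have : 1 - 1 / q + 1 / q = 1 := by ring
      rw [this, Real.rpow_one]
    have e2 : (N:ℝ) ^ (1 - 1 / p) * (N:ℝ) ^ (1 / q) = N * (N:ℝ) ^ (-(1 / p - 1 / q)) := by
      nth_rewrite 3 [← Real.rpow_one (N:ℝ)]
      rw [← Real.rpow_add hN', ← Real.rpow_add hN']
      congr 1
      ring
    have e5 : (N:ℝ) * (c * (c' * r2 𝕜 y - (N * (βm * (4 * N)) : ℝ)⁻¹ * K))
        = N * (c * c' * r2 𝕜 y - (c * K * (4 * βm)⁻¹) * ((N:ℝ)⁻¹ * (N:ℝ)⁻¹)) := by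
      field_simp
    have e6 : M * Ty * (H * ((M * (N:ℝ) ^ (1 - 1 / q) * ((Fintype.card I : ℝ) ^ (1 / q) * 4)
          + M * (N:ℝ) ^ (1 - 1 / p) * (2 * Fintype.card I)) *
        (C * (b * Real.sqrt (Zq q) + 1) * (4 * N : ℝ) ^ (1 / q))))
        = N * (A1 + A2 * (N:ℝ) ^ (-(1 / p - 1 / q))) := by
      rw [e0, hA1, hA2, hF]
      calc _ = M * Ty * H * M * ((Fintype.card I : ℝ) ^ (1 / q) * 4)
            * (C * (b * Real.sqrt (Zq q) + 1) * (4:ℝ) ^ (1 / q))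
              * ((N:ℝ) ^ (1 - 1 / q) * (N:ℝ) ^ (1 / q))
          + M * Ty * H * M * (2 * Fintype.card I)
            * (C * (b * Real.sqrt (Zq q) + 1) * (4:ℝ) ^ (1 / q))
              * ((N:ℝ) ^ (1 - 1 / p) * (N:ℝ) ^ (1 / q)) := by ring
        _ = _ := by rw [e1, e2]; ring
    rw [e5, e6] at h
    have h2 := le_of_mul_le_mul_left h hN'
    linarith
  have t1 : Tendsto (fun N : ℕ => (c * K * (4 * βm)⁻¹) * ((N:ℝ)⁻¹ * (N:ℝ)⁻¹) + A1
        + A2 * (N:ℝ) ^ (-(1 / p - 1 / q))) atTop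
      (𝓝 ((c * K * (4 * βm)⁻¹) * (0 * 0) + A1 + A2 * 0)) := by
    refine Tendsto.add (Tendsto.add (tendsto_const_nhds.mul
      (tendsto_inv_atTop_nhds_zero_nat.mul tendsto_inv_atTop_nhds_zero_nat))
      tendsto_const_nhds) (tendsto_const_nhds.mul ?_)
    have hpos : 0 < 1 / p - 1 / q := by
      rw [sub_pos]
      exact one_div_lt_one_div_of_lt hp0 hpq
    exact (tendsto_rpow_neg_atTop hpos).comp tendsto_natCast_atTop_atTop
  have h3 := ge_of_tendsto t1 (by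
    filter_upwards [eventually_gt_atTop 0] with N hN
    exact key N hN)
  linarith

/-- Hölder's inequality for the replicated family. -/
lemma repl_holder {t q : ℝ} (ht : 1 ≤ t) (htq : t < q) {K : ℕ} (mm : Fin K → ℕ)
    (hmm : ∀ k, 0 < mm k) {L : ℝ} (hL : 0 < L) (u : Fin K → ℝ) (hu : ∀ k, 0 ≤ u k) :
    (∑ k, u k ^ t) ^ (1 / t)
      ≤ ((Fintype.card (Σ k : Fin K, Fin (mm k)) : ℝ) ^ (1 / t - 1 / q) * L ^ (-(1 / t)))
        * (∑ i : (Σ k : Fin K, Fin (mm k)), ((L / mm i.1) ^ (1 / t) * u i.1) ^ q) ^ (1 / q) := by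
  have ht0 : 0 < t := by linarith
  have hq0 : 0 < q := by linarith
  have hqt : 0 < q - t := by linarith
  have hmp : ∀ k, (0:ℝ) < mm k := fun k => by exact_mod_cast hmm k
  set f : Fin K → ℝ := fun k => (mm k : ℝ) ^ (t / q) * (L / mm k) * u k ^ t with hf
  set g : Fin K → ℝ := fun k => (mm k : ℝ) ^ (1 - t / q) * L⁻¹ with hg
  have hf0 : ∀ k, 0 ≤ f k := fun k => by
    have := hmp k
    have := Real.rpow_nonneg (hu k) t
    positivity
  have hg0 : ∀ k, 0 ≤ g k := fun k => by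
    have := hmp k
    positivity
  have hfg : ∀ k, u k ^ t = f k * g k := by
    intro k
    have h1 : (mm k : ℝ) ^ (t / q) * (mm k : ℝ) ^ (1 - t / q) = mm k := by
      rw [← Real.rpow_add (hmp k)]
      have : t / q + (1 - t / q) = 1 := by ring
      rw [this, Real.rpow_one]
    have h2 := (hmp k).ne'
    calc u k ^ t = ((mm k : ℝ) ^ (t / q) * (mm k : ℝ) ^ (1 - t / q)) * (L / mm k) * L⁻¹
          * u k ^ t := by rw [h1]; field_simp
      _ = f k * g k := by simp only [hf, hg]; ring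
  have hol := Real.inner_le_Lp_mul_Lq_of_nonneg (Finset.univ : Finset (Fin K))
    (p := q / t) (q := q / (q - t)) (f := f) (g := g)
    (by
      rw [Real.holderConjugate_iff]
      refine ⟨by rw [lt_div_iff₀ ht0]; linarith, ?_⟩
      field_simp
      ring) (fun i _ => hf0 i) (fun i _ => hg0 i)
  have e1 : ∀ k, f k ^ (q / t) = mm k * ((L / mm k) ^ (1 / t) * u k) ^ q := by
    intro k
    have hm := hmp k
    have hLm : 0 < L / mm k := by positivity
    simp only [hf]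
    rw [Real.mul_rpow (by positivity) (Real.rpow_nonneg (hu k) _),
      Real.mul_rpow (by positivity) hLm.le, ← Real.rpow_mul hm.le, ← Real.rpow_mul (hu k),
      Real.mul_rpow (by positivity) (hu k), ← Real.rpow_mul hLm.le]
    have a1 : t / q * (q / t) = 1 := by field_simp
    have a2 : t * (q / t) = q := by field_simp
    have a3 : 1 / t * q = q / t := by ring
    rw [a1, a2, a3, Real.rpow_one]
    ring
  have e2 : ∀ k, g k ^ (q / (q - t)) = mm k * (L⁻¹) ^ (q / (q - t)) := by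
    intro k
    have hm := hmp k
    simp only [hg]
    rw [Real.mul_rpow (by positivity) (by positivity), ← Real.rpow_mul hm.le]
    have a1 : (1 - t / q) * (q / (q - t)) = 1 := by field_simp
    rw [a1, Real.rpow_one]
  simp only [e1, e2, ← hfg] at hol
  have hS1 : ∑ i : (Σ k : Fin K, Fin (mm k)), ((L / mm i.1) ^ (1 / t) * u i.1) ^ q
      = ∑ k, mm k * ((L / mm k) ^ (1 / t) * u k) ^ q := by
    rw [Fintype.sum_sigma]
    refine Finset.sum_congr rfl (fun k _ => ?_)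
    simp
  have hS2 : (Fintype.card (Σ k : Fin K, Fin (mm k)) : ℝ) = ∑ k, (mm k : ℝ) := by
    rw [Fintype.card_sigma]
    push_cast
    simp
  rw [hS1]
  set Sf := ∑ k, mm k * ((L / mm k) ^ (1 / t) * u k) ^ q with hSf
  have hSf0 : 0 ≤ Sf := Finset.sum_nonneg (fun k _ => by
    have := hmp k
    have h3 : 0 ≤ (L / mm k) ^ (1 / t) * u k := mul_nonneg (by positivity) (hu k)
    exact mul_nonneg this.le (Real.rpow_nonneg h3 _))
  set n := (Fintype.card (Σ k : Fin K, Fin (mm k)) : ℝ) with hn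
  have hn0 : 0 ≤ n := Nat.cast_nonneg _
  have e3 : ∑ k, (mm k : ℝ) * (L⁻¹) ^ (q / (q - t)) = n * (L⁻¹) ^ (q / (q - t)) := by
    rw [← Finset.sum_mul, hS2]
  rw [e3] at hol
  have h4 := Real.rpow_le_rpow (Finset.sum_nonneg (fun k _ => Real.rpow_nonneg (hu k) _)) hol
    (by positivity : (0:ℝ) ≤ 1 / t)
  refine h4.trans (le_of_eq ?_)
  have b1 : 1 / (q / t) = t / q := by field_simp
  have b2 : 1 / (q / (q - t)) = 1 - t / q := by field_simp
  rw [b1, b2, Real.mul_rpow hn0 (by positivity), ← Real.rpow_mul (by positivity : (0:ℝ) ≤ L⁻¹)]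
  have b3 : q / (q - t) * (1 - t / q) = 1 := by field_simp
  rw [b3, Real.rpow_one, Real.mul_rpow (by positivity) (by positivity),
    Real.mul_rpow (by positivity) (by positivity), ← Real.rpow_mul hSf0, ← Real.rpow_mul hn0,
    Real.inv_rpow hL.le, ← Real.rpow_neg hL.le]
  have b4 : t / q * (1 / t) = 1 / q := by field_simp
  have b5 : (1 - t / q) * (1 / t) = 1 / t - 1 / q := by field_simp
  rw [b4, b5]
  ring

/-- Necessity: if `X` embeds in `E(Y)`, `E` a `p`-concave Banach function space, `1 ≤ p < 2`, `Y` of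
type `t`, `1 ≤ t < 2`, and `L¹(ν, X)` contains the `ℓ₂^N(X)` uniformly, then `X` has type `t`. -/
theorem main6 {μ : Measure S} (ρ : FunctionNorm μ) {p t : ℝ} (hp1 : 1 ≤ p) (hp2 : p < 2)
    (ht1 : 1 ≤ t) (ht2 : t < 2)
    (hρ : ρ.IsConcave p) (hY : HasType Y t) (hX : EmbedsIn 𝕜 ρ Y X)
    (h : ContainsUniformly 𝕜 (Lp X 1 ν) X) : HasType X t := by
  obtain ⟨M0, hM0⟩ := hρ
  set M := max M0 1 with hMdef
  have hMn : 0 < M := lt_of_lt_of_le one_pos (le_max_right _ _)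
  have hM : ∀ (n : ℕ) (f : Fin n → S → ℝ), (∀ i, Measurable (f i)) → (∀ i s, 0 ≤ f i s) →
      (∑ i, ρ.toFun (f i) ^ p) ^ (1 / p)
        ≤ ENNReal.ofReal M * ρ.toFun (fun s => (∑ i, f i s ^ p) ^ (1 / p)) := by
    intro n f hf h0
    refine (hM0 n f hf h0).trans ?_
    gcongr
    exact le_max_left _ _
  obtain ⟨ev, c, C, he⟩ := emb_of_embedsIn hX
  obtain ⟨c', b0, hc', hT0⟩ := h
  set b := max b0 0 with hbdef
  have hb : 0 ≤ b := le_max_right _ _
  have hT : ∀ N, ∃ T : (Fin N → X) →ₗ[𝕜] Lp X 1 ν, Cop T c' b := by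
    intro N
    obtain ⟨T, hT1⟩ := hT0 N
    refine ⟨T, ⟨fun z => (hT1 z).1, fun z => (hT1 z).2.trans ?_⟩⟩
    exact mul_le_mul_of_nonneg_right (le_max_left _ _) (Real.sqrt_nonneg _)
  obtain ⟨T0, hT0'⟩ := hY
  set Ty := max T0 0 with hTy
  have hTy0 : 0 ≤ Ty := le_max_right _ _
  have hTyb : ∀ (n : ℕ) (x : Fin n → Y), r2 𝕜 x ≤ Ty * (∑ i, ‖x i‖ ^ t) ^ (1 / t) := by
    intro n x
    rw [r2_eq]
    refine (hT0' n x).trans (mul_le_mul_of_nonneg_right (le_max_left _ _) ?_)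
    exact Real.rpow_nonneg (Finset.sum_nonneg (fun i _ => Real.rpow_nonneg (norm_nonneg _) _)) _
  have hc := he.hc
  have hC := he.hC
  obtain ⟨q, hq1, hq2⟩ := exists_between (max_lt hp2 ht2)
  have hpq : p < q := lt_of_le_of_lt (le_max_left _ _) hq1
  have htq : t < q := lt_of_le_of_lt (le_max_right _ _) hq1
  have ht0 : 0 < t := by linarith
  have hq0 : 0 < q := by linarith
  set A := 4 * M ^ 2 * Ty * C * (b * Real.sqrt (Zq q) + 1) * (4:ℝ) ^ (1 / q) with hA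
  have hA0 : 0 ≤ A := by positivity
  have hcc : 0 < c * c' := mul_pos hc hc'
  refine ⟨A / (c * c'), fun K y => ?_⟩
  rw [← r2_eq (𝕜 := 𝕜)]
  rcases Nat.eq_zero_or_pos K with rfl | hK
  · have : r2 𝕜 y = 0 := by
      simp only [r2, Finset.univ_eq_empty, Finset.sum_empty, norm_zero]
      simp [av]
    rw [this]
    have h0 : 0 ≤ (∑ i, ‖y i‖ ^ t) ^ (1 / t) :=
      Real.rpow_nonneg (Finset.sum_nonneg (fun i _ => Real.rpow_nonneg (norm_nonneg _) _)) _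
    positivity
  have key : ∀ L : ℕ, 0 < L → c * c' * r2 𝕜 y
      ≤ A * (∑ i, ‖y i‖ ^ t + 2 * K * (L:ℝ)⁻¹) ^ (1 / t) := by
    intro L hL
    have hL' : (0:ℝ) < L := by exact_mod_cast hL
    set mm : Fin K → ℕ := fun j => ⌈(L:ℝ) * ‖y j‖ ^ t⌉₊ + 1 with hmm
    have hmp0 : ∀ j, 0 < mm j := fun j => Nat.succ_pos _
    have hmp : ∀ j, (0:ℝ) < mm j := fun j => by exact_mod_cast hmp0 j
    have hne : Nonempty (Σ k : Fin K, Fin (mm k)) := ⟨⟨⟨0, hK⟩, ⟨0, hmp0 _⟩⟩⟩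
    have hyt : ∀ j, 0 ≤ ‖y j‖ ^ t := fun j => Real.rpow_nonneg (norm_nonneg _) _
    have hβ : ∀ i : (Σ k : Fin K, Fin (mm k)), ((L:ℝ) / mm i.1) ^ (1 / t) * ‖y i.1‖ ≤ 1 := by
      intro i
      have h1 : ((L:ℝ) / mm i.1) ^ (1 / t) * ‖y i.1‖
          = ((L:ℝ) / mm i.1 * ‖y i.1‖ ^ t) ^ (1 / t) := by
        rw [Real.mul_rpow (by positivity) (hyt _), ← Real.rpow_mul (norm_nonneg _),
          mul_one_div_cancel ht0.ne', Real.rpow_one]
      rw [h1]
      refine Real.rpow_le_one (mul_nonneg (by positivity) (hyt _)) ?_ (by positivity)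
      rw [div_mul_eq_mul_div, div_le_one (hmp _)]
      simp only [hmm]
      push_cast
      linarith [Nat.le_ceil ((L:ℝ) * ‖y i.1‖ ^ t)]
    have hβm : ∀ i : (Σ k : Fin K, Fin (mm k)), ((L:ℝ) / mm i.1) ^ (1 / t) ≤ (L:ℝ) ^ (1 / t) := by
      intro i
      refine Real.rpow_le_rpow (by positivity) ?_ (by positivity)
      refine div_le_self hL'.le ?_
      exact_mod_cast hmp0 i.1
    have h1 := bound6 (ν := ν) hp1 hpq hq2 hMn hM he hTy0 hTyb hc'.le hb hT y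
      (I := Σ k : Fin K, Fin (mm k)) (fun i => i.1) (fun i => ((L:ℝ) / mm i.1) ^ (1 / t))
      (fun i => by positivity) hβ (βm := (L:ℝ) ^ (1 / t)) (by positivity) hβm
      (H := (Fintype.card (Σ k : Fin K, Fin (mm k)) : ℝ) ^ (1 / t - 1 / q) * (L:ℝ) ^ (-(1 / t)))
      (by positivity) (fun u hu => repl_holder ht1 htq mm hmp0 hL' u hu)
    refine h1.trans ?_
    rw [← hA]
    refine mul_le_mul_of_nonneg_left ?_ hA0
    have hcardpos : (0:ℝ) < Fintype.card (Σ k : Fin K, Fin (mm k)) := by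
      exact_mod_cast Fintype.card_pos
    have e1 : (Fintype.card (Σ k : Fin K, Fin (mm k)) : ℝ) ^ (1 / t - 1 / q) * (L:ℝ) ^ (-(1 / t))
        * (Fintype.card (Σ k : Fin K, Fin (mm k)) : ℝ) ^ (1 / q)
        = ((Fintype.card (Σ k : Fin K, Fin (mm k)) : ℝ) / L) ^ (1 / t) := by
      rw [Real.div_rpow hcardpos.le hL'.le, Real.rpow_neg hL'.le, mul_right_comm,
        ← Real.rpow_add hcardpos]
      have : 1 / t - 1 / q + 1 / q = 1 / t := by ring
      rw [this]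
      exact (div_eq_mul_inv _ _).symm
    rw [e1]
    refine Real.rpow_le_rpow (by positivity) ?_ (by positivity)
    rw [div_le_iff₀ hL', Fintype.card_sigma]
    push_cast
    simp only [Fintype.card_fin]
    have h3 : ∀ j, (mm j : ℝ) ≤ L * ‖y j‖ ^ t + 2 := by
      intro j
      simp only [hmm]
      push_cast
      linarith [Nat.ceil_lt_add_one (mul_nonneg hL'.le (hyt j))]
    refine (Finset.sum_le_sum (fun j _ => h3 j)).trans (le_of_eq ?_)
    rw [Finset.sum_add_distrib, ← Finset.mul_sum]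
    simp only [Finset.sum_const, Finset.card_univ, Fintype.card_fin, nsmul_eq_mul]
    field_simp
  have t1 : Tendsto (fun L : ℕ => A * (∑ i, ‖y i‖ ^ t + 2 * K * (L:ℝ)⁻¹) ^ (1 / t)) atTop
      (𝓝 (A * (∑ i, ‖y i‖ ^ t + 2 * K * 0) ^ (1 / t))) := by
    refine tendsto_const_nhds.mul ?_
    refine Tendsto.rpow_const ?_ (Or.inr (by positivity))
    exact tendsto_const_nhds.add (tendsto_const_nhds.mul tendsto_inv_atTop_nhds_zero_nat)
  have h3 := ge_of_tendsto t1 (by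
    filter_upwards [eventually_gt_atTop 0] with L hL
    exact key L hL)
  rw [mul_zero, add_zero] at h3
  rw [div_mul_eq_mul_div, le_div_iff₀ hcc, mul_comm]
  exact h3

end Pool.Agent.Lib.MP_cdd7b4_an.H80
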