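import Pool.Agent.Lib.MP_cdd7b4_an.H80.MixNorm
import Pool.Agent.Lib.MP_cdd7b4_an.H80.Main5
import Pool.Agent.Lib.MP_cdd7b4_an.H80.Main6

set_option autoImplicit false
set_option linter.unusedSectionVars false

namespace Pool.Agent.Lib.MP_cdd7b4_an.H80

open MeasureTheory Filter Topology
open scoped BigOperators ENNReal

/-- A space isomorphic to a Hilbert space has type 2. -/
lemma hasType_two_of_hilbertian {𝕜 : Type*} [RCLike 𝕜] {X : Type*} [NormedAddCommGroup X]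
    [NormedSpace 𝕜 X] (h : H85.IsHilbertian 𝕜 X) : HasType X 2 := by
  obtain ⟨H, _, _, _, ⟨e⟩⟩ := h
  set A := ‖(e : X →L[𝕜] H)‖ with hA
  set B := ‖(e.symm : H →L[𝕜] X)‖ with hB
  have h1 : ∀ v : X, ‖e v‖ ≤ A * ‖v‖ := fun v => (e : X →L[𝕜] H).le_opNorm v
  have h2 : ∀ w : H, ‖e.symm w‖ ≤ B * ‖w‖ := fun w => (e.symm : H →L[𝕜] X).le_opNorm w
  have hA0 : 0 ≤ A := norm_nonneg _
  have hB0 : 0 ≤ B := norm_nonneg _
  refine ⟨B * A, fun n x => ?_⟩
  rw [← r2_eq (𝕜 := 𝕜)]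
  have h3 : ∀ s : Fin n → Bool, ‖∑ i, sg 𝕜 (s i) • x i‖ ^ 2
      ≤ B ^ 2 * ‖∑ i, sg 𝕜 (s i) • e (x i)‖ ^ 2 := by
    intro s
    have e1 : ∑ i, sg 𝕜 (s i) • x i = e.symm (∑ i, sg 𝕜 (s i) • e (x i)) := by
      rw [map_sum]
      exact Finset.sum_congr rfl (fun i _ => by rw [map_smul, e.symm_apply_apply])
    rw [e1, ← mul_pow]
    exact pow_le_pow_left₀ (norm_nonneg _) (h2 _) 2
  have h4 := av_mono h3
  rw [av_const_mul, av_norm_sq (𝕜 := 𝕜) (fun i => e (x i))] at h4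
  have h5 : ∑ i, ‖e (x i)‖ ^ 2 ≤ A ^ 2 * ∑ i, ‖x i‖ ^ 2 := by
    rw [Finset.mul_sum]
    refine Finset.sum_le_sum (fun i _ => ?_)
    rw [← mul_pow]
    exact pow_le_pow_left₀ (norm_nonneg _) (h1 _) 2
  have hS : 0 ≤ ∑ i, ‖x i‖ ^ 2 := Finset.sum_nonneg (fun i _ => sq_nonneg _)
  have h6 : r2 𝕜 x ≤ Real.sqrt ((B * A) ^ 2 * ∑ i, ‖x i‖ ^ 2) := by
    refine Real.sqrt_le_sqrt (h4.trans ?_)
    calc B ^ 2 * ∑ i, ‖e (x i)‖ ^ 2 ≤ B ^ 2 * (A ^ 2 * ∑ i, ‖x i‖ ^ 2) :=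
          mul_le_mul_of_nonneg_left h5 (sq_nonneg _)
      _ = _ := by ring
  refine h6.trans (le_of_eq ?_)
  rw [Real.sqrt_mul (sq_nonneg _), Real.sqrt_sq (mul_nonneg hB0 hA0), Real.sqrt_eq_rpow]
  congr 2
  exact Finset.sum_congr rfl (fun i _ => by norm_num)

/-- `ℓ^p(Y)` does not have type `t > p`. -/
lemma not_hasType_lp {𝕜 : Type*} [RCLike 𝕜] {Y : Type*} [NormedAddCommGroup Y] [NormedSpace 𝕜 Y]
    [Nontrivial Y] {p : ℝ≥0∞} [Fact (1 ≤ p)] (hp : p ≠ ⊤) {t : ℝ} (ht : p.toReal < t) :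
    ¬ HasType (lp (fun _ : ℕ => Y) p) t := by
  have hp1 := toReal_pos' (p := p) hp
  have hp0 : 0 < p.toReal := by linarith
  have ht0 : 0 < t := by linarith
  rintro ⟨C, hC⟩
  obtain ⟨y0, hy0⟩ := exists_ne (0 : Y)
  set y : Y := ((‖y0‖⁻¹ : ℝ) : 𝕜) • y0 with hy
  have hyn : ‖y‖ = 1 := by
    rw [hy, norm_smul, RCLike.norm_ofReal, abs_of_pos (inv_pos.2 (norm_pos_iff.2 hy0)),
      inv_mul_cancel₀ (norm_ne_zero_iff.2 hy0)]
  have key : ∀ n : ℕ, (n:ℝ) ^ (1 / p.toReal) ≤ C * (n:ℝ) ^ (1 / t) := by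
    intro n
    have h := hC n (fun i => lp.single (E := fun _ : ℕ => Y) p (i:ℕ) y)
    have h1 : ∀ i : Fin n, ‖lp.single (E := fun _ : ℕ => Y) p (i:ℕ) y‖ = 1 := by
      intro i
      rw [lp.norm_single (by
        have := (Fact.out : (1:ℝ≥0∞) ≤ p)
        exact lt_of_lt_of_le one_pos this)]
      exact hyn
    simp only [h1, Real.one_rpow, Finset.sum_const, Finset.card_univ, Fintype.card_fin,
      nsmul_eq_mul, mul_one] at h
    have h2 : ∀ e : Fin n → Bool, ‖∑ i, (if e i then lp.single (E := fun _ : ℕ => Y) p (i:ℕ) y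
        else - lp.single (E := fun _ : ℕ => Y) p (i:ℕ) y)‖ = (n:ℝ) ^ (1 / p.toReal) := by
      intro e
      have e1 : ∑ i, (if e i then lp.single (E := fun _ : ℕ => Y) p (i:ℕ) y
          else - lp.single (E := fun _ : ℕ => Y) p (i:ℕ) y)
          = ∑ i ∈ Finset.range n, lp.single (E := fun _ : ℕ => Y) p i
            (if h : i < n then (if e ⟨i, h⟩ then y else - y) else 0) := by
        rw [Finset.sum_range]
        refine Finset.sum_congr rfl (fun i _ => ?_)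
        simp only [Fin.is_lt, dite_true, Fin.eta]
        split_ifs
        · rfl
        · rw [← lp.single_neg]
      have e2 := lp.norm_sum_single (E := fun _ : ℕ => Y) hp0
        (fun i => if h : i < n then (if e ⟨i, h⟩ then y else - y) else 0) (Finset.range n)
      rw [← e1] at e2
      have e3 : ∑ i ∈ Finset.range n, ‖(if h : i < n then (if e ⟨i, h⟩ then y else - y) else 0)‖
          ^ p.toReal = n := by
        have : ∀ i ∈ Finset.range n, ‖(if h : i < n then (if e ⟨i, h⟩ then y else - y) else 0)‖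
            ^ p.toReal = 1 := by
          intro i hi
          rw [dif_pos (Finset.mem_range.1 hi)]
          split_ifs
          · rw [hyn, Real.one_rpow]
          · rw [norm_neg, hyn, Real.one_rpow]
        rw [Finset.sum_congr rfl this]
        simp
      rw [e3] at e2
      have e4 := congrArg (fun z : ℝ => z ^ (1 / p.toReal)) e2
      rwa [← Real.rpow_mul (norm_nonneg _), mul_one_div_cancel hp0.ne', Real.rpow_one] at e4
    simp only [h2, Finset.sum_const, Finset.card_univ, nsmul_eq_mul] at h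
    have h3 : (Fintype.card (Fin n → Bool) : ℝ) = 2 ^ n := by
      rw [Fintype.card_pi]; simp
    rw [h3, ← mul_assoc, inv_mul_cancel₀ (by positivity), one_mul,
      Real.sqrt_sq (by positivity)] at h
    exact h
  -- contradiction as `n → ∞`
  have hpos : 0 < 1 / p.toReal - 1 / t := by
    rw [sub_pos]; exact one_div_lt_one_div_of_lt hp0 ht
  have hlim : Tendsto (fun n : ℕ => (n:ℝ) ^ (1 / p.toReal - 1 / t)) atTop atTop :=
    (tendsto_rpow_atTop hpos).comp tendsto_natCast_atTop_atTop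
  obtain ⟨n, hn1, hn2⟩ := ((hlim.eventually_gt_atTop C).and (eventually_gt_atTop 0)).exists
  have hn0 : (0:ℝ) < n := by exact_mod_cast hn2
  have h4 := key n
  have h5 : (n:ℝ) ^ (1 / p.toReal) = (n:ℝ) ^ (1 / p.toReal - 1 / t) * (n:ℝ) ^ (1 / t) := by
    rw [← Real.rpow_add hn0]
    congr 1
    ring
  rw [h5] at h4
  have h6 := le_of_mul_le_mul_right h4 (Real.rpow_pos_of_pos hn0 _)
  linarith

/-- For `p < 2` the space `ℓ^p(ℓ^q)` fails the property. -/
theorem neg_mix {𝕜 : Type*} [RCLike 𝕜] {p q : ℝ≥0∞} [Fact (1 ≤ p)] [Fact (1 ≤ q)]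
    (hp : p ≠ ⊤) (hq : q ≠ ⊤) (hp2 : p.toReal < 2)
    (h : H85.ContainsCopy 𝕜 (H85.L1I (lp (fun _ : ℕ => lp (fun _ : ℕ => 𝕜) q) p))
      (H85.ell2 (lp (fun _ : ℕ => lp (fun _ : ℕ => 𝕜) q) p))) : False := by
  have hp1 := toReal_pos' (p := p) hp
  have hq1 := toReal_pos' (p := q) hq
  have hnt : Nontrivial (lp (fun _ : ℕ => 𝕜) q) := by
    refine ⟨⟨lp.single q 0 (1:𝕜), 0, fun h0 => ?_⟩⟩
    have h1 : ‖lp.single (E := fun _ : ℕ => 𝕜) q 0 (1:𝕜)‖ = 1 := by
      rw [lp.norm_single (by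
        have := (Fact.out : (1:ℝ≥0∞) ≤ q)
        exact lt_of_lt_of_le one_pos this)]
      exact norm_one
    rw [h0, norm_zero] at h1
    exact zero_ne_one h1
  have hu := uniform_of_copy h
  rcases lt_or_ge q.toReal 2 with hq2 | hq2
  · -- everything below 2
    have h1 := main5 (mixFN p.toReal q.toReal hp1 hq1) (p := max p.toReal q.toReal)
      (le_max_of_le_left hp1) (max_lt hp2 hq2)
      (mixFN_concave hp1 hq1 (le_max_left _ _) (le_max_right _ _)) (embedsIn_mix hp hq) hu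
    exact not_hasType_lp (𝕜 := 𝕜) hp (by linarith) (hasType_two_of_hilbertian h1)
  · have ht1 : p.toReal < (p.toReal + 2) / 2 := by linarith
    have ht2 : (p.toReal + 2) / 2 < 2 := by linarith
    have h1 := main6 (lpFN (Measure.count : Measure ℕ) p.toReal hp1) hp1 hp2
      (t := (p.toReal + 2) / 2) (by linarith) ht2 (lpFN_concave _ _ _)
      (hasType_mono (by linarith) ht2.le (hasType_lq (𝕜 := 𝕜) hq hq2)) (embedsIn_lp hp) hu
    exact not_hasType_lp (𝕜 := 𝕜) hp ht1 h1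

end Pool.Agent.Lib.MP_cdd7b4_an.H80
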