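import Pool.Agent.Lib.MP_cdd7b4_an.H80.LpSeq

set_option autoImplicit false
set_option linter.unusedSectionVars false

namespace Pool.Agent.Lib.MP_cdd7b4_an.H80

open MeasureTheory
open scoped BigOperators ENNReal

/-- Minkowski's inequality for the integral of a finite vector of functions. -/
lemma minkowski_fin {A : Type*} [MeasurableSpace A] (μ : Measure A) {n : ℕ} (g : Fin n → A → ℝ≥0∞)
    (hg : ∀ k, Measurable (g k)) {s : ℝ} (hs : 1 ≤ s) :
    (∑ k, (∫⁻ a, g k a ∂μ) ^ s) ^ (1 / s) ≤ ∫⁻ a, (∑ k, g k a ^ s) ^ (1 / s) ∂μ := by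
  have hs0 : 0 < s := by linarith
  set R := ∫⁻ a, (∑ k, g k a ^ s) ^ (1 / s) ∂μ with hR
  have hle : ∀ k, ∫⁻ a, g k a ∂μ ≤ R := by
    intro k
    refine lintegral_mono (fun a => ?_)
    have h1 : g k a ^ s ≤ ∑ k, g k a ^ s :=
      Finset.single_le_sum (f := fun k => g k a ^ s) (fun _ _ => bot_le) (Finset.mem_univ k)
    have h2 := ENNReal.rpow_le_rpow h1 (by positivity : 0 ≤ 1 / s)
    rwa [← ENNReal.rpow_mul, mul_one_div_cancel hs0.ne', ENNReal.rpow_one] at h2
  by_cases hRt : R = ⊤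
  · rw [hRt]; exact le_top
  have hfin : ∀ k, ∫⁻ a, g k a ∂μ ≠ ⊤ := fun k => ne_top_of_le_ne_top hRt (hle k)
  rcases hs.eq_or_lt with h1 | h1
  · rw [hR, ← h1]
    simp only [ENNReal.rpow_one, div_one]
    rw [lintegral_finsetSum _ (fun k _ => hg k)]
  -- `s > 1`
  set T := ∑ k, (∫⁻ a, g k a ∂μ) ^ s with hT
  have hTfin : T ≠ ⊤ := by
    refine (ENNReal.sum_lt_top.2 (fun k _ => ?_)).ne
    exact ENNReal.rpow_lt_top_of_nonneg hs0.le (hfin k)
  by_cases hT0 : T = 0
  · rw [hT0, ENNReal.zero_rpow_of_pos (by positivity)]; exact bot_le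
  have hconj : Real.HolderConjugate (s / (s - 1)) s := by
    rw [Real.holderConjugate_iff]
    have : 0 < s - 1 := by linarith
    refine ⟨by rw [lt_div_iff₀ this]; linarith, ?_⟩
    field_simp
    ring
  have key : T ≤ T ^ (1 / (s / (s - 1))) * R := by
    calc T = ∑ k, ∫⁻ a, (∫⁻ a, g k a ∂μ) ^ (s - 1) * g k a ∂μ := by
          refine Finset.sum_congr rfl (fun k _ => ?_)
          rw [lintegral_const_mul _ (hg k)]
          by_cases hz : ∫⁻ a, g k a ∂μ = 0
          · rw [hz, ENNReal.zero_rpow_of_pos hs0, mul_zero]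
          · nth_rewrite 3 [← ENNReal.rpow_one (∫⁻ a, g k a ∂μ)]
            rw [← ENNReal.rpow_add _ _ hz (hfin k)]
            congr 1
            ring
      _ = ∫⁻ a, ∑ k, (∫⁻ a, g k a ∂μ) ^ (s - 1) * g k a ∂μ := by
          rw [lintegral_finsetSum _ (fun k _ => (hg k).const_mul _)]
      _ ≤ ∫⁻ a, T ^ (1 / (s / (s - 1))) * (∑ k, g k a ^ s) ^ (1 / s) ∂μ := by
          refine lintegral_mono (fun a => ?_)
          refine (ENNReal.inner_le_Lp_mul_Lq Finset.univ
            (fun k => (∫⁻ a, g k a ∂μ) ^ (s - 1)) (fun k => g k a) hconj).trans ?_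
          gcongr
          rw [hT]
          refine Finset.sum_le_sum (fun k _ => le_of_eq ?_)
          rw [← ENNReal.rpow_mul]
          congr 1
          have : s - 1 ≠ 0 := by linarith
          field_simp
      _ = _ := by
          rw [lintegral_const_mul']
          exact (ENNReal.rpow_lt_top_of_nonneg hconj.one_div_nonneg hTfin).ne
  have e : T ^ (1 / (s / (s - 1))) * T ^ (1 / s) = T := by
    rw [← ENNReal.rpow_add _ _ hT0 hTfin]
    have : 1 / (s / (s - 1)) + 1 / s = 1 := by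
      have : s - 1 ≠ 0 := by linarith
      field_simp
      ring
    rw [this, ENNReal.rpow_one]
  have hTp0 : T ^ (1 / (s / (s - 1))) ≠ 0 := by
    intro h
    rcases ENNReal.rpow_eq_zero_iff.1 h with h2 | h2
    · exact hT0 h2.1
    · exact hTfin h2.1
  have hTpt : T ^ (1 / (s / (s - 1))) ≠ ⊤ :=
    (ENNReal.rpow_lt_top_of_nonneg hconj.one_div_nonneg hTfin).ne
  have key' : T ^ (1 / (s / (s - 1))) * T ^ (1 / s) ≤ T ^ (1 / (s / (s - 1))) * R := by
    rw [e]; exact key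
  exact (ENNReal.mul_le_mul_iff_right hTp0 hTpt).1 key'

/-- `L^a(μ)` is `r`-concave for `r ≥ a`, with constant 1. -/
lemma lp_concave_gen {A : Type*} [MeasurableSpace A] (μ : Measure A) {n : ℕ}
    (f : Fin n → A → ℝ≥0∞) (hf : ∀ k, Measurable (f k)) {a r : ℝ} (ha : 0 < a) (har : a ≤ r) :
    (∑ k, ((∫⁻ s, f k s ^ a ∂μ) ^ (1 / a)) ^ r) ^ (1 / r)
      ≤ (∫⁻ s, ((∑ k, f k s ^ r) ^ (1 / r)) ^ a ∂μ) ^ (1 / a) := by
  have hr0 : 0 < r := by linarith
  have hs : 1 ≤ r / a := by rw [le_div_iff₀ ha]; linarith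
  have h := minkowski_fin μ (fun k s => f k s ^ a) (fun k => (hf k).pow_const a) hs
  have h2 := ENNReal.rpow_le_rpow h (by positivity : 0 ≤ 1 / a)
  have e1 : ((∑ k, (∫⁻ s, f k s ^ a ∂μ) ^ (r / a)) ^ (1 / (r / a))) ^ (1 / a)
      = (∑ k, ((∫⁻ s, f k s ^ a ∂μ) ^ (1 / a)) ^ r) ^ (1 / r) := by
    rw [← ENNReal.rpow_mul]
    congr 1
    · refine Finset.sum_congr rfl (fun k _ => ?_)
      rw [← ENNReal.rpow_mul]
      congr 1
      ring
    · field_simp
  rw [e1] at h2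
  refine h2.trans (le_of_eq ?_)
  congr 1
  refine lintegral_congr (fun s => ?_)
  rw [← ENNReal.rpow_mul]
  congr 1
  · refine Finset.sum_congr rfl (fun k _ => ?_)
    rw [← ENNReal.rpow_mul]
    congr 1
    field_simp
  · field_simp

/-- the mixed norm of `ℓ^p(ℓ^q)` on functions on `ℕ × ℕ` -/
noncomputable def mixFN (p q : ℝ) (hp : 1 ≤ p) (hq : 1 ≤ q) :
    FunctionNorm (Measure.count : Measure (ℕ × ℕ)) where
  toFun f := (∫⁻ i, ((∫⁻ j, ENNReal.ofReal (f (i, j)) ^ q ∂(Measure.count : Measure ℕ)) ^ (1 / q)) ^ p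
    ∂(Measure.count : Measure ℕ)) ^ (1 / p)
  mono' f g _ _ h := by
    have hp0 : 0 < p := by linarith
    have hq0 : 0 < q := by linarith
    have h' : ∀ s, 0 ≤ f s ∧ f s ≤ g s := by
      intro s
      have := (ae_iff.1 h)
      by_contra hcon
      have h2 : s ∈ {a | ¬(0 ≤ f a ∧ f a ≤ g a)} := hcon
      have h3 : (Measure.count : Measure (ℕ × ℕ)) {s} = 0 :=
        measure_mono_null (Set.singleton_subset_iff.2 h2) this
      simp at h3
    refine ENNReal.rpow_le_rpow (lintegral_mono (fun i => ?_)) (by positivity)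
    refine ENNReal.rpow_le_rpow (ENNReal.rpow_le_rpow (lintegral_mono (fun j => ?_))
      (by positivity)) hp0.le
    exact ENNReal.rpow_le_rpow (ENNReal.ofReal_le_ofReal (h' _).2) hq0.le
  smul' c f hc hf h0 := by
    have hp0 : 0 < p := by linarith
    have hq0 : 0 < q := by linarith
    have h1 : ∀ i j : ℕ, ENNReal.ofReal (c * f (i, j)) ^ q
        = ENNReal.ofReal c ^ q * ENNReal.ofReal (f (i, j)) ^ q := by
      intro i j
      rw [ENNReal.ofReal_mul hc, ENNReal.mul_rpow_of_nonneg _ _ hq0.le]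
    simp only [h1]
    have h2 : ∀ i : ℕ, ((∫⁻ j, ENNReal.ofReal c ^ q * ENNReal.ofReal (f (i, j)) ^ q
        ∂(Measure.count : Measure ℕ)) ^ (1 / q)) ^ p
        = ENNReal.ofReal c ^ p * ((∫⁻ j, ENNReal.ofReal (f (i, j)) ^ q
        ∂(Measure.count : Measure ℕ)) ^ (1 / q)) ^ p := by
      intro i
      rw [lintegral_const_mul _ measurable_from_top, ENNReal.mul_rpow_of_nonneg _ _ (by positivity),
        ← ENNReal.rpow_mul, mul_one_div_cancel hq0.ne', ENNReal.rpow_one,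
        ENNReal.mul_rpow_of_nonneg _ _ hp0.le]
    simp only [h2]
    rw [lintegral_const_mul _ measurable_from_top, ENNReal.mul_rpow_of_nonneg _ _ (by positivity),
        ← ENNReal.rpow_mul, mul_one_div_cancel hp0.ne', ENNReal.rpow_one]
  add' f g hf hg h0 h1 := by
    have hp0 : 0 < p := by linarith
    have h2 : ∀ i j : ℕ, ENNReal.ofReal (f (i, j) + g (i, j))
        = ENNReal.ofReal (f (i, j)) + ENNReal.ofReal (g (i, j)) :=
      fun i j => ENNReal.ofReal_add (h0 _) (h1 _)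
    simp only [h2]
    refine le_trans (ENNReal.rpow_le_rpow (lintegral_mono (fun i => ENNReal.rpow_le_rpow
      (ENNReal.lintegral_Lp_add_le (μ := (Measure.count : Measure ℕ))
        (f := fun j => ENNReal.ofReal (f (i, j)))
        (g := fun j => ENNReal.ofReal (g (i, j))) measurable_from_top.aemeasurable
        measurable_from_top.aemeasurable hq) hp0.le)) (by positivity)) ?_
    exact ENNReal.lintegral_Lp_add_le (μ := (Measure.count : Measure ℕ))
      (f := fun i => (∫⁻ j, ENNReal.ofReal (f (i, j)) ^ q ∂(Measure.count : Measure ℕ)) ^ (1 / q))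
      (g := fun i => (∫⁻ j, ENNReal.ofReal (g (i, j)) ^ q ∂(Measure.count : Measure ℕ)) ^ (1 / q))
      measurable_from_top.aemeasurable measurable_from_top.aemeasurable hp

lemma mixFN_concave {p q : ℝ} (hp : 1 ≤ p) (hq : 1 ≤ q) {r : ℝ} (hpr : p ≤ r) (hqr : q ≤ r) :
    (mixFN p q hp hq).IsConcave r := by
  have hp0 : 0 < p := by linarith
  have hq0 : 0 < q := by linarith
  have hr0 : 0 < r := by linarith
  refine ⟨1, fun n f hf h0 => ?_⟩
  simp only [ENNReal.ofReal_one, one_mul, mixFN]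
  refine (lp_concave_gen (Measure.count : Measure ℕ)
    (fun k i => (∫⁻ j, ENNReal.ofReal (f k (i, j)) ^ q ∂(Measure.count : Measure ℕ)) ^ (1 / q))
    (fun k => measurable_from_top) hp0 hpr).trans ?_
  refine ENNReal.rpow_le_rpow (lintegral_mono (fun i => ENNReal.rpow_le_rpow ?_ hp0.le))
    (by positivity)
  refine (lp_concave_gen (Measure.count : Measure ℕ)
    (fun k j => ENNReal.ofReal (f k (i, j))) (fun k => measurable_from_top) hq0 hqr).trans
    (le_of_eq ?_)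
  congr 1
  refine lintegral_congr (fun j => ?_)
  have hs : 0 ≤ ∑ k, f k (i, j) ^ r := Finset.sum_nonneg (fun k _ => Real.rpow_nonneg (h0 k _) _)
  rw [ofReal_rpow' hs (by positivity), ENNReal.ofReal_sum_of_nonneg
    (fun k _ => Real.rpow_nonneg (h0 k _) _)]
  congr 2
  exact Finset.sum_congr rfl (fun k _ => (ofReal_rpow' (h0 k _) hr0.le).symm)

/-- `ℓ^p(ℓ^q)` embeds in the function space of the mixed norm. -/
lemma embedsIn_mix {𝕜 : Type*} [RCLike 𝕜] {p q : ℝ≥0∞} [Fact (1 ≤ p)] [Fact (1 ≤ q)]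
    (hp : p ≠ ⊤) (hq : q ≠ ⊤) :
    EmbedsIn 𝕜 (mixFN p.toReal q.toReal (toReal_pos' hp) (toReal_pos' hq)) 𝕜
      (lp (fun _ : ℕ => lp (fun _ : ℕ => 𝕜) q) p) := by
  let J : lp (fun _ : ℕ => lp (fun _ : ℕ => 𝕜) q) p →ₗ[𝕜]
      ((ℕ × ℕ) →ₘ[(Measure.count : Measure (ℕ × ℕ))] 𝕜) :=
    { toFun := fun x => AEEqFun.mk (fun s : ℕ × ℕ => (x s.1 : ℕ → 𝕜) s.2)
        (StronglyMeasurable.of_discrete).aestronglyMeasurable
      map_add' := fun x y => by
        rw [AEEqFun.mk_add_mk]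
        rfl
      map_smul' := fun a x => by
        rw [RingHom.id_apply, AEEqFun.smul_mk]
        rfl }
  have hall : ∀ (x : lp (fun _ : ℕ => lp (fun _ : ℕ => 𝕜) q) p) (s : ℕ × ℕ),
      (J x : ℕ × ℕ → 𝕜) s = (x s.1 : ℕ → 𝕜) s.2 := by
    intro x s
    have h1 := AEEqFun.coeFn_mk (μ := (Measure.count : Measure (ℕ × ℕ)))
      (fun s : ℕ × ℕ => (x s.1 : ℕ → 𝕜) s.2) (StronglyMeasurable.of_discrete).aestronglyMeasurable
    have h2 := (ae_iff.1 h1)
    by_contra hcon
    have h3 : (Measure.count : Measure (ℕ × ℕ)) {s} = 0 :=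
      measure_mono_null (Set.singleton_subset_iff.2 hcon) h2
    simp at h3
  refine ⟨J, 1, 1, one_pos, fun x => ?_⟩
  have e : (mixFN p.toReal q.toReal (toReal_pos' hp) (toReal_pos' hq)).toFun
      (fun s => ‖(J x : ℕ × ℕ → 𝕜) s‖) = ENNReal.ofReal ‖x‖ := by
    simp only [hall, mixFN]
    have h1 : ∀ i : ℕ, (∫⁻ j, ENNReal.ofReal ‖(x i : ℕ → 𝕜) j‖ ^ q.toReal
        ∂(Measure.count : Measure ℕ)) ^ (1 / q.toReal) = ENNReal.ofReal ‖x i‖ :=
      fun i => ofReal_lp_norm hq (x i)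
    simp only [h1]
    exact ofReal_lp_norm hp x
  rw [e, one_mul]
  exact ⟨le_rfl, le_rfl⟩

/-- `ℓ^p(Y)` embeds in `E(Y)`, `E = ℓ^p`. -/
lemma embedsIn_lp {𝕜 : Type*} [RCLike 𝕜] {Y : Type*} [NormedAddCommGroup Y] [NormedSpace 𝕜 Y]
    {p : ℝ≥0∞} [Fact (1 ≤ p)] (hp : p ≠ ⊤) :
    EmbedsIn 𝕜 (lpFN (Measure.count : Measure ℕ) p.toReal (toReal_pos' hp)) Y
      (lp (fun _ : ℕ => Y) p) := by
  let J : lp (fun _ : ℕ => Y) p →ₗ[𝕜] (ℕ →ₘ[(Measure.count : Measure ℕ)] Y) :=
    { toFun := fun x => AEEqFun.mk (fun s : ℕ => x s)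
        (StronglyMeasurable.of_discrete).aestronglyMeasurable
      map_add' := fun x y => by
        rw [AEEqFun.mk_add_mk]
        rfl
      map_smul' := fun a x => by
        rw [RingHom.id_apply, AEEqFun.smul_mk]
        rfl }
  have hall : ∀ (x : lp (fun _ : ℕ => Y) p) (s : ℕ), (J x : ℕ → Y) s = x s := by
    intro x s
    have h1 := AEEqFun.coeFn_mk (μ := (Measure.count : Measure ℕ))
      (fun s : ℕ => x s) (StronglyMeasurable.of_discrete).aestronglyMeasurable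
    have h2 := (ae_iff.1 h1)
    by_contra hcon
    have h3 : (Measure.count : Measure ℕ) {s} = 0 :=
      measure_mono_null (Set.singleton_subset_iff.2 hcon) h2
    simp at h3
  refine ⟨J, 1, 1, one_pos, fun x => ?_⟩
  have e : (lpFN (Measure.count : Measure ℕ) p.toReal (toReal_pos' hp)).toFun
      (fun s => ‖(J x : ℕ → Y) s‖) = ENNReal.ofReal ‖x‖ := by
    simp only [hall, lpFN]
    exact ofReal_lp_norm hp x
  rw [e, one_mul]
  exact ⟨le_rfl, le_rfl⟩

end Pool.Agent.Lib.MP_cdd7b4_an.H80
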