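import Pool.Agent.Lib.MP_cdd7b4_an.H80.LpSeq
import Pool.Agent.Lib.MP_cdd7b4_an.H85.Main2

set_option autoImplicit false
set_option linter.unusedSectionVars false

namespace Pool.Agent.Lib.MP_cdd7b4_an.H80

open MeasureTheory Set
open scoped BigOperators ENNReal

section
variable {𝕜 : Type*} [RCLike 𝕜] {Y : Type*} [NormedAddCommGroup Y] [NormedSpace 𝕜 Y]
  {p : ℝ≥0∞} [Fact (1 ≤ p)]

/-- interlacing finitely many elements of `ℓ^p(Y)` -/
noncomputable def Gfun (x : ℕ →₀ lp (fun _ : ℕ => Y) p) : ℕ → Y :=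
  fun i => (x (Nat.unpair i).1 : ℕ → Y) (Nat.unpair i).2

lemma tsum_Gfun (hp : p ≠ ⊤) (x : ℕ →₀ lp (fun _ : ℕ => Y) p) :
    ∑' i, ENNReal.ofReal ‖Gfun x i‖ ^ p.toReal
      = ∑ n ∈ x.support, ENNReal.ofReal ‖x n‖ ^ p.toReal := by
  have hp0 : 0 < p.toReal := by linarith [toReal_pos' (p := p) hp]
  have h1 : ∀ n, ∑' j, ENNReal.ofReal ‖(x n : ℕ → Y) j‖ ^ p.toReal
      = ENNReal.ofReal ‖x n‖ ^ p.toReal := by
    intro n
    have h2 := ofReal_lp_norm (Y := Y) hp (x n)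
    rw [lintegral_count] at h2
    rw [← h2, ← ENNReal.rpow_mul, one_div_mul_cancel hp0.ne', ENNReal.rpow_one]
  have h3 : ∀ n j : ℕ, Gfun x (Nat.pairEquiv (n, j)) = (x n : ℕ → Y) j := by
    intro n j
    have h4 : Nat.pairEquiv (n, j) = Nat.pair n j := rfl
    rw [h4]
    simp only [Gfun, Nat.unpair_pair]
  rw [← Nat.pairEquiv.tsum_eq, ENNReal.tsum_prod' (f := fun c => ENNReal.ofReal
    ‖Gfun x (Nat.pairEquiv c)‖ ^ p.toReal)]
  simp only [h3, h1]
  refine tsum_eq_sum (fun n hn => ?_)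
  rw [Finsupp.notMem_support_iff] at hn
  rw [hn, norm_zero, ENNReal.ofReal_zero, ENNReal.zero_rpow_of_pos hp0]

lemma mem_Gfun (hp : p ≠ ⊤) (x : ℕ →₀ lp (fun _ : ℕ => Y) p) : Memℓp (Gfun x) p := by
  have hp0 : 0 < p.toReal := by linarith [toReal_pos' (p := p) hp]
  refine memℓp_gen ?_
  have h1 : ∑' i, ENNReal.ofReal ‖Gfun x i‖ ^ p.toReal ≠ ⊤ := by
    rw [tsum_Gfun hp]
    refine (ENNReal.sum_lt_top.2 (fun n _ => ?_)).ne
    exact ENNReal.rpow_lt_top_of_nonneg hp0.le ENNReal.ofReal_ne_top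
  have h2 := ENNReal.summable_toReal h1
  refine h2.congr (fun i => ?_)
  rw [← ENNReal.toReal_rpow, ENNReal.toReal_ofReal (norm_nonneg _)]

/-- interlacing as a linear map -/
noncomputable def Gmap (𝕜 : Type*) [RCLike 𝕜] {Y : Type*} [NormedAddCommGroup Y] [NormedSpace 𝕜 Y]
    {p : ℝ≥0∞} [Fact (1 ≤ p)] (hp : p ≠ ⊤) :
    (ℕ →₀ lp (fun _ : ℕ => Y) p) →ₗ[𝕜] lp (fun _ : ℕ => Y) p where
  toFun x := ⟨Gfun x, mem_Gfun hp x⟩
  map_add' x y := by
    ext i
    rfl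
  map_smul' a x := by
    ext i
    rfl

lemma norm_Gmap (hp : p ≠ ⊤) (x : ℕ →₀ lp (fun _ : ℕ => Y) p) :
    ‖Gmap 𝕜 hp x‖ = (∑ n ∈ x.support, ‖x n‖ ^ p.toReal) ^ (1 / p.toReal) := by
  have hp0 : 0 < p.toReal := by linarith [toReal_pos' (p := p) hp]
  have h1 := ofReal_lp_norm (Y := Y) hp (Gmap 𝕜 hp x)
  have h2 : (fun i => ENNReal.ofReal ‖(Gmap 𝕜 hp x : ℕ → Y) i‖ ^ p.toReal)
      = fun i => ENNReal.ofReal ‖Gfun x i‖ ^ p.toReal := rfl
  rw [h2, lintegral_count, tsum_Gfun hp] at h1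
  have hs : 0 ≤ ∑ n ∈ x.support, ‖x n‖ ^ p.toReal :=
    Finset.sum_nonneg (fun n _ => Real.rpow_nonneg (norm_nonneg _) _)
  have h3 : ∑ n ∈ x.support, ENNReal.ofReal ‖x n‖ ^ p.toReal
      = ENNReal.ofReal (∑ n ∈ x.support, ‖x n‖ ^ p.toReal) := by
    rw [ENNReal.ofReal_sum_of_nonneg (fun n _ => Real.rpow_nonneg (norm_nonneg _) _)]
    exact Finset.sum_congr rfl (fun n _ => ENNReal.ofReal_rpow_of_nonneg (norm_nonneg _) hp0.le)
  rw [h3, ENNReal.ofReal_rpow_of_nonneg hs (by positivity)] at h1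
  exact ((ENNReal.ofReal_eq_ofReal_iff (Real.rpow_nonneg hs _) (norm_nonneg _)).1 h1).symm

/-- the modular majorant -/
noncomputable def hmod (r : ℝ) (s : ℝ) : ℝ := min |s| (|s| ^ r)

lemma hmod_nonneg (r s : ℝ) : 0 ≤ hmod r s := le_min (abs_nonneg _) (Real.rpow_nonneg (abs_nonneg _) _)

lemma hmod_int {r : ℝ} (hr : 2 < r) : IntegrableOn (fun s => hmod r s / s ^ 3) (Ioi 0) := by
  have hm : Measurable (fun s => hmod r s / s ^ 3) := by
    unfold hmod
    exact ((measurable_id.abs).min ((measurable_id.abs).pow_const r)).div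
      (measurable_id.pow_const 3)
  rw [← Ioc_union_Ioi_eq_Ioi (zero_le_one' ℝ)]
  refine IntegrableOn.union ?_ ?_
  · have h1 : IntegrableOn (fun s : ℝ => s ^ (r - 3)) (Ioc 0 1) := by
      have := intervalIntegral.intervalIntegrable_rpow' (a := 0) (b := 1) (r := r - 3) (by linarith)
      rwa [intervalIntegrable_iff_integrableOn_Ioc_of_le zero_le_one] at this
    refine Integrable.mono' h1 hm.aestronglyMeasurable ?_
    filter_upwards [ae_restrict_mem measurableSet_Ioc] with s hs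
    have hs0 : 0 < s := hs.1
    rw [Real.norm_eq_abs, abs_of_nonneg (div_nonneg (hmod_nonneg _ _) (by positivity)),
      div_le_iff₀ (by positivity)]
    refine (min_le_right _ _).trans (le_of_eq ?_)
    rw [abs_of_pos hs0, ← Real.rpow_natCast, ← Real.rpow_add hs0]
    congr 1
    push_cast
    ring
  · have h1 : IntegrableOn (fun s : ℝ => s ^ (-2 : ℝ)) (Ioi 1) :=
      integrableOn_Ioi_rpow_of_lt (by norm_num) one_pos
    refine Integrable.mono' h1 hm.aestronglyMeasurable ?_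
    filter_upwards [ae_restrict_mem measurableSet_Ioi] with s hs
    have hs0 : 0 < s := lt_trans one_pos hs
    rw [Real.norm_eq_abs, abs_of_nonneg (div_nonneg (hmod_nonneg _ _) (by positivity)),
      div_le_iff₀ (by positivity)]
    refine (min_le_left _ _).trans (le_of_eq ?_)
    rw [abs_of_pos hs0, ← Real.rpow_natCast, ← Real.rpow_add hs0]
    norm_num

lemma up_mod {r : ℝ} (hr : 1 ≤ r) (s : Finset ℕ) (a : ℕ → ℝ) (ha : ∀ n, 0 ≤ a n) :
    (∑ n ∈ s, a n ^ r) ^ (1 / r) ≤ 1 + ∑ n ∈ s, hmod r (a n) := by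
  classical
  have hr0 : 0 < r := by linarith
  set f : ℕ → ℝ := fun n => if a n ≤ 1 then a n else 0 with hf
  set g : ℕ → ℝ := fun n => if a n ≤ 1 then 0 else a n with hg
  have hf0 : ∀ n, 0 ≤ f n := fun n => by simp only [hf]; split_ifs; exacts [ha n, le_rfl]
  have hg0 : ∀ n, 0 ≤ g n := fun n => by simp only [hg]; split_ifs; exacts [le_rfl, ha n]
  have hfg : ∀ n, a n = f n + g n := fun n => by simp only [hf, hg]; split_ifs <;> simp
  have h1 := Real.Lp_add_le_of_nonneg (s := s) (p := r) hr (f := f) (g := g)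
    (fun n _ => hf0 n) (fun n _ => hg0 n)
  simp only [← hfg] at h1
  refine h1.trans ?_
  have hF : 0 ≤ ∑ n ∈ s, f n ^ r := Finset.sum_nonneg (fun n _ => Real.rpow_nonneg (hf0 n) _)
  have h2 : (∑ n ∈ s, f n ^ r) ^ (1 / r) ≤ 1 + ∑ n ∈ s, f n ^ r := by
    have h3 : (∑ n ∈ s, f n ^ r) ^ (1 / r) ≤ (1 + ∑ n ∈ s, f n ^ r) ^ (1 / r) :=
      Real.rpow_le_rpow hF (by linarith) (by positivity)
    refine h3.trans ?_
    calc (1 + ∑ n ∈ s, f n ^ r) ^ (1 / r) ≤ (1 + ∑ n ∈ s, f n ^ r) ^ (1:ℝ) :=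
          Real.rpow_le_rpow_of_exponent_le (by linarith) (by rw [div_le_one hr0]; exact hr)
      _ = _ := Real.rpow_one _
  have h4 : (∑ n ∈ s, g n ^ r) ^ (1 / r) ≤ ∑ n ∈ s, g n := by
    have h5 := lq_le_l1 hr (fun n : s => g n) (fun n => hg0 n)
    rw [Finset.sum_coe_sort s (fun n => g n ^ r), Finset.sum_coe_sort s g] at h5
    exact h5
  have h6 : ∑ n ∈ s, f n ^ r + ∑ n ∈ s, g n = ∑ n ∈ s, hmod r (a n) := by
    rw [← Finset.sum_add_distrib]
    refine Finset.sum_congr rfl (fun n _ => ?_)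
    simp only [hf, hg, hmod]
    rw [abs_of_nonneg (ha n)]
    split_ifs with h
    · rw [add_zero, min_eq_right]
      calc a n ^ r ≤ a n ^ (1:ℝ) := Real.rpow_le_rpow_of_exponent_ge' (ha n) h (by norm_num) hr
        _ = a n := Real.rpow_one _
    · rw [Real.zero_rpow hr0.ne', zero_add, min_eq_left]
      have : 1 ≤ a n := (not_le.1 h).le
      calc a n = a n ^ (1:ℝ) := (Real.rpow_one _).symm
        _ ≤ a n ^ r := Real.rpow_le_rpow_of_exponent_le this hr
  linarith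

/-- For `2 ≤ p < ∞` the space `ℓ^p(Y)` has the property. -/
theorem pos_lp [CompleteSpace Y] (hp : p ≠ ⊤) (hp2 : 2 ≤ p.toReal) :
    H85.ContainsCopy 𝕜 (H85.L1I (lp (fun _ : ℕ => Y) p)) (H85.ell2 (lp (fun _ : ℕ => Y) p)) := by
  have hp0 : 0 < p.toReal := by linarith
  set μ := volume.restrict (Icc (0:ℝ) 1) with hμ
  have : IsProbabilityMeasure μ := by
    constructor
    simp [hμ]
  let K : lp (fun _ : ℕ => Y) p →ₗ[𝕜] Lp (lp (fun _ : ℕ => Y) p) 1 μ := Lp.constₗ 1 μ 𝕜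
  have hK : ∀ v, ‖K v‖ = ‖v‖ := by
    intro v
    have h := Lp.norm_const' (μ := μ) (p := 1) (c := v) one_ne_zero ENNReal.one_ne_top
    have h1 : K v = Lp.const 1 μ v := rfl
    rw [h1, h]
    simp
  rcases hp2.eq_or_lt with h2 | h2
  · refine H85.extend_copy (𝕜 := 𝕜) (K.comp (Gmap 𝕜 hp)) (c := 1) (C := 1) one_pos (fun x hx => ?_)
    have h3 : ‖K.comp (Gmap 𝕜 hp) x‖ = 1 := by
      rw [LinearMap.comp_apply, hK, norm_Gmap, ← h2]
      have : ∑ n ∈ x.support, ‖x n‖ ^ (2:ℝ) = 1 := by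
        rw [← hx]
        exact Finset.sum_congr rfl (fun n _ => by norm_num)
      rw [this, Real.one_rpow]
    exact ⟨h3.ge, h3.le⟩
  · have hsum : ∀ x : ℕ →₀ lp (fun _ : ℕ => Y) p,
        x.sum (fun m v => (K.comp ((Gmap 𝕜 hp).comp (Finsupp.lsingle m))) v) = K (Gmap 𝕜 hp x) := by
      intro x
      have h3 : x = x.sum (fun m v => Finsupp.single m v) := (Finsupp.sum_single x).symm
      conv_rhs => rw [h3]
      rw [Finsupp.sum, Finsupp.sum, map_sum, map_sum]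
      rfl
    refine H85.main_two (J := fun m => K.comp ((Gmap 𝕜 hp).comp (Finsupp.lsingle m)))
      (c := 1) (C := 1) (h := hmod p.toReal) ⟨one_pos, hmod_nonneg _, hmod_int h2, fun x n => ?_,
        fun x => ?_⟩
    · rw [hsum, hK, norm_Gmap, one_mul]
      have h4 : ‖x n‖ ^ p.toReal ≤ ∑ n ∈ x.support, ‖x n‖ ^ p.toReal := by
        by_cases hn : n ∈ x.support
        · exact Finset.single_le_sum (f := fun n => ‖x n‖ ^ p.toReal)
            (fun m _ => Real.rpow_nonneg (norm_nonneg _) _) hn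
        · rw [Finsupp.notMem_support_iff] at hn
          rw [hn, norm_zero, Real.zero_rpow hp0.ne']
          exact Finset.sum_nonneg (fun m _ => Real.rpow_nonneg (norm_nonneg _) _)
      have h5 := Real.rpow_le_rpow (Real.rpow_nonneg (norm_nonneg _) _) h4
        (by positivity : (0:ℝ) ≤ 1 / p.toReal)
      rwa [← Real.rpow_mul (norm_nonneg _), mul_one_div_cancel hp0.ne', Real.rpow_one] at h5
    · rw [hsum, hK, norm_Gmap]
      exact up_mod (by linarith) x.support (fun n => ‖x n‖) (fun n => norm_nonneg _)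

end

end Pool.Agent.Lib.MP_cdd7b4_an.H80
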