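import Pool.Agent.Lib.MP_cdd7b4_an.H80.FN

set_option autoImplicit false
set_option linter.unusedSectionVars false

namespace Pool.Agent.Lib.MP_cdd7b4_an.H80

open MeasureTheory
open scoped BigOperators ENNReal

section bilin
variable {ι : Type*} [Fintype ι] [DecidableEq ι] {Q : Type*} [Fintype Q] [Nonempty Q]

lemma av_bilin_le (f h : ι → Q → ℝ) (hf : ∀ i q, 0 ≤ f i q) (hh : ∀ i q, 0 ≤ h i q) :
    av (fun κ : ι → Q => (∑ i, f i (κ i)) * (∑ j, h j (κ j)))
      ≤ (∑ i, av (f i)) * (∑ j, av (h j)) + ∑ i, av (fun q => f i q * h i q) := by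
  have e : ∀ κ : ι → Q, (∑ i, f i (κ i)) * (∑ j, h j (κ j)) = ∑ i, ∑ j, f i (κ i) * h j (κ j) := by
    intro κ
    rw [Finset.sum_mul_sum]
  simp only [e]
  rw [av_sum]
  have e2 : ∀ i, av (fun κ : ι → Q => ∑ j, f i (κ i) * h j (κ j))
      ≤ ∑ j, av (f i) * av (h j) + av (fun q => f i q * h i q) := by
    intro i
    rw [av_sum]
    have e3 : ∀ j, av (fun κ : ι → Q => f i (κ i) * h j (κ j))
        = av (f i) * av (h j)
          + if j = i then av (fun q => f i q * h i q) - av (f i) * av (h i) else 0 := by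
      intro j
      by_cases hij : j = i
      · subst hij
        simp only [if_true]
        rw [av_coord (ι := ι) j (fun q => f j q * h j q)]
        ring
      · rw [if_neg hij, add_zero]
        exact av_coord2 (fun h => hij h.symm) _ _
    rw [Finset.sum_congr rfl (fun j _ => e3 j), Finset.sum_add_distrib, Finset.sum_ite_eq']
    simp only [Finset.mem_univ, if_true]
    have := mul_nonneg (av_nonneg (hf i)) (av_nonneg (hh i))
    linarith
  refine (Finset.sum_le_sum (fun i _ => e2 i)).trans (le_of_eq ?_)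
  rw [Finset.sum_add_distrib, Finset.sum_mul_sum]

lemma mul_sub_le_of_nat {C : ℝ} (hC : C = 0 ∨ 1 ≤ C) (l : ℝ) :
    2 * l * C - l ^ 2 * C ^ 2 ≤ if C = 0 then 0 else 1 := by
  rcases hC with h | h
  · simp [h]
  · rw [if_neg (by linarith)]
    nlinarith [sq_nonneg (1 - l * C)]

end bilin

section
variable {N : ℕ} {I : Type*} [Fintype I] [Nonempty I] {N' : ℕ} [NeZero N']

/-- heavy-tailed weights -/
noncomputable def wt (N' : ℕ) (q : ℝ) (j : Fin N') : ℝ := ((N' : ℝ) / ((j : ℝ) + 1)) ^ (1 / q)

lemma one_le_wt {q : ℝ} (hq : 0 < q) (j : Fin N') : 1 ≤ wt N' q j := by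
  apply Real.one_le_rpow _ (by positivity)
  rw [one_le_div (by positivity)]
  have := j.2
  exact_mod_cast Nat.succ_le_of_lt this

lemma wt_pos {q : ℝ} (hq : 0 < q) (j : Fin N') : 0 < wt N' q j :=
  lt_of_lt_of_le one_pos (one_le_wt hq j)

/-- tail of the weights -/
lemma wt_tail {q : ℝ} (hq : 0 < q) {u t : ℝ} (hu : 0 ≤ u) (ht : 0 < t) :
    min 1 ((u / t) ^ q) - (N' : ℝ)⁻¹
      ≤ av (fun j : Fin N' => if t ≤ wt N' q j * u then (1:ℝ) else 0) := by
  classical
  have hN' : (0:ℝ) < N' := by exact_mod_cast Nat.pos_of_ne_zero (NeZero.ne N')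
  set x := (u / t) ^ q with hx
  have hx0 : 0 ≤ x := Real.rpow_nonneg (div_nonneg hu ht.le) _
  -- count
  set m : ℕ := min N' ⌊(N':ℝ) * x⌋₊ with hm
  have h1 : (m : ℝ) ≤ ∑ j : Fin N', if t ≤ wt N' q j * u then (1:ℝ) else 0 := by
    have h2 : ∀ j : Fin N', (j:ℕ) < m → t ≤ wt N' q j * u := by
      intro j hj
      have hj1 : ((j:ℝ) + 1) ≤ N' * x := by
        have h3 : (j:ℕ) + 1 ≤ ⌊(N':ℝ) * x⌋₊ := (Nat.succ_le_of_lt hj).trans (min_le_right _ _)
        have h4 := Nat.floor_le (by positivity : 0 ≤ (N':ℝ) * x)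
        have h5 : (((j:ℕ) + 1 : ℕ) : ℝ) ≤ ⌊(N':ℝ) * x⌋₊ := by exact_mod_cast h3
        push_cast at h5
        linarith
      have hjp : (0:ℝ) < (j:ℝ) + 1 := by positivity
      have hxpos : 0 < x := by
        by_contra hneg
        have : x = 0 := le_antisymm (not_lt.1 hneg) hx0
        rw [this, mul_zero] at hj1
        linarith
      have hupos : 0 < u := by
        rcases hu.eq_or_lt with h | h
        · exfalso
          rw [hx, ← h, zero_div, Real.zero_rpow hq.ne'] at hxpos
          exact lt_irrefl _ hxpos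
        · exact h
      have h6 : (t / u) ^ q ≤ (N':ℝ) / ((j:ℝ) + 1) := by
        rw [le_div_iff₀ hjp]
        have h7 : (t / u) ^ q * x = 1 := by
          rw [hx, ← Real.mul_rpow (by positivity) (by positivity)]
          have : t / u * (u / t) = 1 := by field_simp
          rw [this, Real.one_rpow]
        calc (t / u) ^ q * ((j:ℝ) + 1) ≤ (t / u) ^ q * (N' * x) :=
              mul_le_mul_of_nonneg_left hj1 (by positivity)
          _ = N' * ((t / u) ^ q * x) := by ring
          _ = N' := by rw [h7, mul_one]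
      have h8 := Real.rpow_le_rpow (by positivity) h6 (by positivity : (0:ℝ) ≤ 1 / q)
      rw [← Real.rpow_mul (by positivity), mul_one_div_cancel hq.ne', Real.rpow_one] at h8
      rw [div_le_iff₀ hupos] at h8
      exact h8
    calc (m:ℝ) = ∑ j : Fin N', if (j:ℕ) < m then (1:ℝ) else 0 := by
          rw [Finset.sum_ite, Finset.sum_const_zero, add_zero, Finset.sum_const, nsmul_eq_mul,
            mul_one]
          have : (Finset.univ.filter (fun j : Fin N' => (j:ℕ) < m)).card = m := by
            rw [Fin.card_filter_val_lt]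
            exact min_eq_right (min_le_left _ _)
          rw [this]
      _ ≤ _ := by
          refine Finset.sum_le_sum (fun j _ => ?_)
          by_cases hj : (j:ℕ) < m
          · rw [if_pos hj, if_pos (h2 j hj)]
          · rw [if_neg hj]; split_ifs <;> norm_num
  have h3 : N' * min 1 x - 1 ≤ (m:ℝ) := by
    rw [hm]
    push_cast
    rw [le_min_iff]
    constructor
    · have : (N':ℝ) * min 1 x ≤ N' * 1 := mul_le_mul_of_nonneg_left (min_le_left _ _) hN'.le
      linarith
    · have h4 := Nat.lt_floor_add_one ((N':ℝ) * x)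
      have : (N':ℝ) * min 1 x ≤ N' * x := mul_le_mul_of_nonneg_left (min_le_right _ _) hN'.le
      linarith
  simp only [av, Fintype.card_fin]
  have h5 := h3.trans h1
  rw [inv_mul_eq_div, le_div_iff₀ hN']
  have e : (min 1 x - (N':ℝ)⁻¹) * N' = N' * min 1 x - 1 := by
    field_simp
  rw [e]
  exact h5

end

lemma av_prodType {I J : Type*} [Fintype I] [Fintype J] (f : I → J → ℝ) :
    av (fun x : I × J => f x.1 x.2) = av (fun i => av (fun j => f i j)) := by
  simp only [av]
  rw [Fintype.card_prod, Fintype.sum_prod_type, ← Finset.mul_sum]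
  push_cast
  rw [mul_inv]
  ring

section
variable {N : ℕ} {I : Type*} [Fintype I] [Nonempty I] {N' : ℕ} [NeZero N']

/-- number of entries above the level, weighted -/
lemma pl6A {q : ℝ} (hq : 0 < q) (hN : 4 * N ≤ N') (u : Fin N → I → ℝ)
    (hu : ∀ n i, 0 ≤ u n i) (G : (Fin N → I × Fin N') → ℝ) (hG0 : ∀ κ, 0 ≤ G κ)
    (hG : ∀ κ n, wt N' q (κ n).2 * u n (κ n).1 ≤ G κ) (hD : 0 < av G) :
    ∑ n, ∑ i, min 1 ((u n i / (4 * av G)) ^ q) ≤ Fintype.card I := by
  classical
  have hK : (0:ℝ) < Fintype.card I := by exact_mod_cast Fintype.card_pos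
  have hN' : (0:ℝ) < N' := by exact_mod_cast Nat.pos_of_ne_zero (NeZero.ne N')
  set D := av G with hDdef
  set t := 4 * D with ht
  have htp : 0 < t := by positivity
  by_contra hcon
  push Not at hcon
  set F := ∑ n, ∑ i, min 1 ((u n i / t) ^ q) with hF
  set A : Fin N → I × Fin N' → ℝ := fun n x => if t ≤ wt N' q x.2 * u n x.1 then 1 else 0 with hA
  have hA0 : ∀ n x, 0 ≤ A n x := by
    intro n x; simp only [hA]; split_ifs <;> norm_num
  have hAsq : ∀ n x, A n x ^ 2 = A n x := by
    intro n x; simp only [hA]; split_ifs <;> norm_num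
  set S := ∑ n, av (A n) with hS
  have hS1 : F / Fintype.card I - 1 / 4 ≤ S := by
    have h1 : ∀ n, (Fintype.card I : ℝ)⁻¹ * ∑ i, (min 1 ((u n i / t) ^ q) - (N':ℝ)⁻¹)
        ≤ av (A n) := by
      intro n
      have e1 : av (A n) = av (fun i => av (fun j : Fin N' =>
          if t ≤ wt N' q j * u n i then (1:ℝ) else 0)) :=
        av_prodType (fun i j => if t ≤ wt N' q j * u n i then (1:ℝ) else 0)
      rw [e1]
      exact av_mono (fun i => wt_tail hq (hu n i) htp)
    have h2 := Finset.sum_le_sum (s := Finset.univ) (fun n (_ : n ∈ Finset.univ) => h1 n)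
    refine le_trans ?_ h2
    rw [← Finset.mul_sum]
    simp only [Finset.sum_sub_distrib, Finset.sum_const, Finset.card_univ, nsmul_eq_mul,
      Fintype.card_fin]
    rw [← hF, mul_sub, inv_mul_eq_div]
    have h3 : (Fintype.card I : ℝ)⁻¹ * (N * (Fintype.card I * (N':ℝ)⁻¹)) = N / N' := by
      field_simp
    rw [h3]
    have h4 : (N:ℝ) / N' ≤ 1 / 4 := by
      rw [div_le_div_iff₀ hN' (by norm_num)]
      have : ((4 * N : ℕ) : ℝ) ≤ N' := by exact_mod_cast hN
      push_cast at this
      linarith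
    linarith
  have hS2 : 3 / 4 < S := by
    have : 1 < F / Fintype.card I := by rw [lt_div_iff₀ hK]; linarith
    linarith
  have hSpos : 0 < 1 + S := by linarith
  set l := 1 / (1 + S) with hl
  have hpt : ∀ κ : Fin N → I × Fin N', t * (2 * l * (∑ n, A n (κ n))
      - l ^ 2 * (∑ n, A n (κ n)) ^ 2) ≤ G κ := by
    intro κ
    have hcase : (∑ n, A n (κ n)) = 0 ∨ 1 ≤ ∑ n, A n (κ n) := by
      by_cases h : ∃ n, t ≤ wt N' q (κ n).2 * u n (κ n).1
      · right
        obtain ⟨n, hn⟩ := h
        have : A n (κ n) = 1 := by simp only [hA]; rw [if_pos hn]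
        rw [← this]
        exact Finset.single_le_sum (fun m _ => hA0 m (κ m)) (Finset.mem_univ n)
      · left
        push Not at h
        refine Finset.sum_eq_zero (fun n _ => ?_)
        simp only [hA]
        rw [if_neg (not_le.2 (h n))]
    have h1 := mul_sub_le_of_nat hcase l
    refine (mul_le_mul_of_nonneg_left h1 htp.le).trans ?_
    split_ifs with h0
    · rw [mul_zero]; exact hG0 κ
    · rw [mul_one]
      by_contra hlt
      push Not at hlt
      apply h0
      refine Finset.sum_eq_zero (fun n _ => ?_)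
      simp only [hA]
      rw [if_neg]
      intro hge
      linarith [hG κ n]
  have h5 := av_mono hpt
  rw [av_const_mul, av_sub, av_const_mul, av_const_mul, av_sum_coord, ← hS, ← hDdef] at h5
  have h6 : av (fun κ : Fin N → I × Fin N' => (∑ n, A n (κ n)) ^ 2) ≤ S ^ 2 + S := by
    refine (av_sq_sum_le A).trans (le_of_eq ?_)
    simp only [hAsq]
    rfl
  have hl0 : 0 < l := by positivity
  have h7 : t * (2 * l * S - l ^ 2 * (S ^ 2 + S)) ≤ D := by
    refine le_trans (mul_le_mul_of_nonneg_left ?_ htp.le) h5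
    have := mul_le_mul_of_nonneg_left h6 (sq_nonneg l)
    linarith
  have h8 : 2 * l * S - l ^ 2 * (S ^ 2 + S) = S / (1 + S) := by
    rw [hl]
    field_simp
    ring
  rw [h8] at h7
  have h9 : 3 / 7 < S / (1 + S) := by
    rw [div_lt_div_iff₀ (by norm_num) hSpos]
    linarith
  have h10 : t * (3 / 7) < t * (S / (1 + S)) := mul_lt_mul_of_pos_left h9 htp
  rw [ht] at h10 h7
  linarith

lemma pl6B {q : ℝ} (hq : 0 < q) (hN : 4 * N ≤ N') (u : Fin N → I → ℝ)
    (hu : ∀ n i, 0 ≤ u n i) (G : (Fin N → I × Fin N') → ℝ) (hG0 : ∀ κ, 0 ≤ G κ)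
    (hG : ∀ κ n, wt N' q (κ n).2 * u n (κ n).1 ≤ G κ) (hD : 0 < av G) :
    ∑ n, ∑ i, (if u n i ≤ 4 * av G then 0 else u n i) ≤ 2 * Fintype.card I * av G := by
  classical
  have hK : (0:ℝ) < Fintype.card I := by exact_mod_cast Fintype.card_pos
  have hN' : (0:ℝ) < N' := by exact_mod_cast Nat.pos_of_ne_zero (NeZero.ne N')
  have hFA := pl6A hq hN u hu G hG0 hG hD
  set D := av G with hDdef
  set t := 4 * D with ht
  have htp : 0 < t := by positivity
  set g : Fin N → I × Fin N' → ℝ := fun n x => if u n x.1 ≤ t then 0 else u n x.1 with hg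
  set b : Fin N → I × Fin N' → ℝ := fun n x => if u n x.1 ≤ t then 0 else 1 with hb
  have hg0 : ∀ n x, 0 ≤ g n x := by
    intro n x; simp only [hg]; split_ifs; exacts [le_rfl, hu _ _]
  have hb0 : ∀ n x, 0 ≤ b n x := by
    intro n x; simp only [hb]; split_ifs <;> norm_num
  have hgb : ∀ n x, g n x * b n x = g n x := by
    intro n x; simp only [hg, hb]; split_ifs <;> simp
  have avg1 : ∀ f : I → ℝ, av (fun x : I × Fin N' => f x.1) = av f := by
    intro f
    rw [av_prodType (fun i _ => f i)]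
    congr 1
    funext i
    exact av_const _
  have hG1 : ∑ n, av (g n) = (Fintype.card I : ℝ)⁻¹ * ∑ n, ∑ i, (if u n i ≤ t then 0 else u n i) := by
    rw [Finset.mul_sum]
    exact Finset.sum_congr rfl (fun n _ => avg1 (fun i => if u n i ≤ t then 0 else u n i))
  have hB1 : ∑ n, av (b n) ≤ 1 := by
    have e1 : ∑ n, av (b n) = (Fintype.card I : ℝ)⁻¹ * ∑ n, ∑ i, (if u n i ≤ t then (0:ℝ) else 1) := by
      rw [Finset.mul_sum]
      exact Finset.sum_congr rfl (fun n _ => avg1 (fun i => if u n i ≤ t then (0:ℝ) else 1))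
    rw [e1, inv_mul_le_iff₀ hK, mul_one]
    refine le_trans (Finset.sum_le_sum (fun n _ => Finset.sum_le_sum (fun i _ => ?_))) hFA
    split_ifs with h
    · exact le_min zero_le_one (Real.rpow_nonneg (div_nonneg (hu n i) htp.le) _)
    · push Not at h
      refine le_min le_rfl ?_
      apply Real.one_le_rpow _ hq.le
      rw [one_le_div htp]
      exact h.le
  have hpt : ∀ κ : Fin N → I × Fin N', (3 / 2) * (∑ n, g n (κ n))
      - (1 / 2) * ((∑ n, g n (κ n)) * (∑ n, b n (κ n))) ≤ G κ := by
    intro κ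
    set c : ℕ := (Finset.univ.filter (fun n => ¬ u n (κ n).1 ≤ t)).card with hc
    have hcb : ∑ n, b n (κ n) = c := by
      simp only [hb, hc]
      rw [Finset.card_filter]
      push_cast
      refine Finset.sum_congr rfl (fun n _ => ?_)
      split_ifs <;> simp_all
    have hgG : ∑ n, g n (κ n) ≤ c * G κ := by
      rw [← hcb, Finset.sum_mul]
      refine Finset.sum_le_sum (fun n _ => ?_)
      simp only [hg, hb]
      split_ifs with h
      · simp
      · rw [one_mul]
        refine le_trans ?_ (hG κ n)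
        have := one_le_wt (N' := N') hq (κ n).2
        have h2 := hu n (κ n).1
        nlinarith
    have hsum0 : 0 ≤ ∑ n, g n (κ n) := Finset.sum_nonneg (fun n _ => hg0 n _)
    rw [hcb]
    have hGκ := hG0 κ
    rcases Nat.lt_or_ge c 3 with h3 | h3
    · interval_cases hcc : c
      · have : ∑ n, g n (κ n) ≤ 0 := by simpa using hgG
        have h0 : ∑ n, g n (κ n) = 0 := le_antisymm this hsum0
        rw [h0]; simpa using hGκ
      · push_cast at hgG ⊢
        linarith
      · push_cast at hgG ⊢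
        linarith
    · have h4 : (3:ℝ) ≤ c := by exact_mod_cast h3
      nlinarith
  have h5 := av_mono hpt
  rw [av_sub, av_const_mul, av_const_mul, av_sum_coord, ← hDdef] at h5
  have h6 := av_bilin_le g b hg0 hb0
  simp only [hgb] at h6
  set G1 := ∑ n, av (g n) with hG1def
  have hG10 : 0 ≤ G1 := Finset.sum_nonneg (fun n _ => av_nonneg (hg0 n))
  have h7 : G1 * ∑ n, av (b n) ≤ G1 * 1 := mul_le_mul_of_nonneg_left hB1 hG10
  have h8 : G1 ≤ 2 * D := by linarith
  rw [hG1, inv_mul_le_iff₀ hK] at h8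
  linarith

lemma pl6 {q : ℝ} (hq : 0 < q) (hN : 4 * N ≤ N') (u : Fin N → I → ℝ)
    (hu : ∀ n i, 0 ≤ u n i) (G : (Fin N → I × Fin N') → ℝ) (hG0 : ∀ κ, 0 ≤ G κ)
    (hG : ∀ κ n, wt N' q (κ n).2 * u n (κ n).1 ≤ G κ) :
    (∑ n, ∑ i, (if u n i ≤ 4 * av G then u n i else 0) ^ q ≤ Fintype.card I * (4 * av G) ^ q) ∧
    ∑ n, ∑ i, (if u n i ≤ 4 * av G then 0 else u n i) ≤ 2 * Fintype.card I * av G := by
  classical
  have hK : (0:ℝ) < Fintype.card I := by exact_mod_cast Fintype.card_pos
  rcases (av_nonneg hG0).eq_or_lt with h | h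
  · have hz : ∀ κ, G κ = 0 := by
      have h1 : ∑ κ, G κ = 0 := by
        have h2 : (Fintype.card (Fin N → I × Fin N') : ℝ)⁻¹ * ∑ κ, G κ = 0 := h.symm
        rcases mul_eq_zero.1 h2 with h3 | h3
        · exfalso
          have : (Fintype.card (Fin N → I × Fin N') : ℝ) ≠ 0 := by
            exact_mod_cast Fintype.card_ne_zero
          exact inv_ne_zero this h3
        · exact h3
      intro κ
      exact (Finset.sum_eq_zero_iff_of_nonneg (fun κ _ => hG0 κ)).1 h1 κ (Finset.mem_univ _)
    have hu0 : ∀ n i, u n i = 0 := by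
      intro n i
      have h1 := hG (fun _ => (i, ⟨0, Nat.pos_of_ne_zero (NeZero.ne N')⟩)) n
      rw [hz] at h1
      have h2 := wt_pos (N' := N') hq ⟨0, Nat.pos_of_ne_zero (NeZero.ne N')⟩
      simp only at h1
      have h3 := hu n i
      by_contra hne
      have h4 : 0 < u n i := lt_of_le_of_ne h3 (Ne.symm hne)
      have := mul_pos h2 h4
      linarith
    rw [← h]
    simp only [hu0]
    simp [Real.zero_rpow hq.ne']
  · refine ⟨?_, pl6B hq hN u hu G hG0 hG h⟩
    have hFA := pl6A hq hN u hu G hG0 hG h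
    set t := 4 * av G with ht
    have htp : 0 < t := by positivity
    calc ∑ n, ∑ i, (if u n i ≤ t then u n i else 0) ^ q
        ≤ ∑ n, ∑ i, t ^ q * min 1 ((u n i / t) ^ q) := by
          refine Finset.sum_le_sum (fun n _ => Finset.sum_le_sum (fun i _ => ?_))
          split_ifs with hle
          · have h1 : (u n i / t) ^ q ≤ 1 :=
              Real.rpow_le_one (div_nonneg (hu n i) htp.le) ((div_le_one htp).2 hle) hq.le
            rw [min_eq_right h1, ← Real.mul_rpow htp.le (div_nonneg (hu n i) htp.le)]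
            have : t * (u n i / t) = u n i := by field_simp
            rw [this]
          · rw [Real.zero_rpow hq.ne']
            have : 0 ≤ (u n i / t) ^ q := Real.rpow_nonneg (div_nonneg (hu n i) htp.le) _
            exact mul_nonneg (Real.rpow_nonneg htp.le _) (le_min zero_le_one this)
      _ = t ^ q * ∑ n, ∑ i, min 1 ((u n i / t) ^ q) := by
          rw [Finset.mul_sum]
          refine Finset.sum_congr rfl (fun n _ => ?_)
          rw [Finset.mul_sum]
      _ ≤ t ^ q * Fintype.card I := mul_le_mul_of_nonneg_left hFA (Real.rpow_nonneg htp.le _)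
      _ = _ := by ring

end

end Pool.Agent.Lib.MP_cdd7b4_an.H80
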